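import Pool.Agent.H835R2.Flat.Sym
import Pool.Agent.H835R2.Sing.Inv

/-! # Alternating sums over the resolutions of the double points -/

set_option autoImplicit false
set_option linter.unusedSimpArgs false
set_option linter.unusedVariables false

namespace Pool.Agent.H835R2.Flat

open Pool.Agent.H835R2.Knot
open Pool.Agent.H835R2.Flat.FP

/-! ### Isotopies of three strands, for plain words -/

section
open Pool.Agent.H835R2.Sing

theorem iso_of_siso {D E : SWord} (h : SIsotopic D E) :
    (D.countP SPiece.isDouble = E.countP SPiece.isDouble) ∧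
      (D.countP SPiece.isDouble = 0 → Isotopic (Sing.fl D) (Sing.fl E)) := by
  induction h with
  | rel D E h =>
    refine ⟨sstep_doubles h, fun hd => ?_⟩
    obtain ⟨x, l, r, y, hm, hl, hr⟩ := h
    have d1 : l.countP SPiece.isDouble = 0 := by
      simp only [List.countP_append] at hd
      omega
    refine Relation.EqvGen.rel _ _ ?_
    rw [fl_append, fl_append, fl_append, fl_append]
    have c1 := fl_closed hl
    have c2 := fl_closed hr
    rw [fl_append, fl_append] at c1 c2
    refine Step.mk _ _ _ _ ?_ c1 c2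
    cases hm with
    | plain h => rw [fl_pl, fl_pl]; exact h
    | exchange p q h =>
      cases p with
      | double i c => simp [SPiece.isDouble] at d1
      | plain p =>
        cases q with
        | double j c => simp [SPiece.isDouble, SPiece.moved] at d1
        | plain q => exact Move.exchange p q h
    | slideBirth i b c => simp [SPiece.isDouble] at d1
    | slideDeath i c => simp [SPiece.isDouble] at d1
    | fourth₁ i c => simp [SPiece.isDouble] at d1
    | fourth₂ i c => simp [SPiece.isDouble] at d1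
    | fourth₃ i c => simp [SPiece.isDouble] at d1
    | fourth₄ i c => simp [SPiece.isDouble] at d1
    | fifth₁ i c => simp [SPiece.isDouble] at d1
    | fifth₂ i c => simp [SPiece.isDouble] at d1
  | refl D => exact ⟨rfl, fun _ => Relation.EqvGen.refl _⟩
  | symm D E _ ih => exact ⟨ih.1.symm, fun h => (ih.2 (ih.1.trans h)).symm⟩
  | trans D E F _ _ ih1 ih2 =>
    exact ⟨ih1.1.trans ih2.1, fun h => (ih1.2 h).trans _ _ _ (ih2.2 (ih1.1 ▸ h))⟩

theorem iso_of_tr {i : ℕ} {w w' : Word} (h : Tr i w w') {x y : Word}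
    (hn : i + 3 ≤ (Knot.run x Front.empty).n) (hc : Closed (x ++ w ++ y)) :
    Isotopic (x ++ w ++ y) (x ++ w' ++ y) := by
  have h1 : SClosed (pl x ++ pl w ++ pl y) := by
    have e : pl x ++ pl w ++ pl y = pl (x ++ w ++ y) := by simp [pl]
    rw [e]
    exact ⟨(sfits_pl _ _).2 hc.1, by rw [srun_pl]; exact hc.2⟩
  have h2 := h.iso (pl x) (pl y) (by rw [srun_pl]; exact hn) h1
  have h3 := (iso_of_siso h2).2 (by
    have : ∀ w : Word, (pl w).countP SPiece.isDouble = 0 := by
      intro w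
      rw [List.countP_eq_zero]
      intro p hp
      obtain ⟨q, -, rfl⟩ := List.mem_map.1 hp
      simp [SPiece.isDouble]
    simp only [List.countP_append, this])
  simpa [fl_append, fl_pl] using h3

end

/-! ### Alternating sums -/

variable {A : Type} [AddCommGroup A]

/-- The alternating sum of `g` over all resolutions. -/
def alt : FWord → (Word → A) → A
  | [], g => g []
  | birth i b :: w, g => alt w fun u => g (.birth i b :: u)
  | death i :: w, g => alt w fun u => g (.death i :: u)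
  | X i :: w, g => alt w fun u => g (.pos i :: u)
  | dbl i :: w, g => alt w (fun u => g (.pos i :: u)) - alt w (fun u => g (.neg i :: u))

theorem alt_nil (g : Word → A) : alt [] g = g [] := rfl
theorem alt_birth (i : ℕ) (b : Bool) (w : FWord) (g : Word → A) :
    alt (birth i b :: w) g = alt w fun u => g (.birth i b :: u) := rfl
theorem alt_death (i : ℕ) (w : FWord) (g : Word → A) :
    alt (death i :: w) g = alt w fun u => g (.death i :: u) := rfl
theorem alt_X (i : ℕ) (w : FWord) (g : Word → A) :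
    alt (X i :: w) g = alt w fun u => g (.pos i :: u) := rfl
theorem alt_dbl (i : ℕ) (w : FWord) (g : Word → A) :
    alt (dbl i :: w) g = alt w (fun u => g (.pos i :: u)) - alt w (fun u => g (.neg i :: u)) := rfl

/-- Resolutions of a word. -/
inductive Rs : FWord → Word → Prop
  | nil : Rs [] []
  | pc (p : FP) (w : FWord) (u : Word) : Rs w u → Rs (p :: w) (p.pc :: u)
  | neg (i : ℕ) (w : FWord) (u : Word) : Rs w u → Rs (dbl i :: w) (.neg i :: u)

theorem alt_congr {w : FWord} {g g' : Word → A} (h : ∀ u, Rs w u → g u = g' u) :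
    alt w g = alt w g' := by
  induction w generalizing g g' with
  | nil => exact h [] .nil
  | cons p w ih =>
    cases p with
    | birth i b => exact ih fun u hu => h _ (.pc _ _ _ hu)
    | death i => exact ih fun u hu => h _ (.pc _ _ _ hu)
    | X i => exact ih fun u hu => h _ (.pc _ _ _ hu)
    | dbl i =>
      have h1 : alt w (fun u => g (.pos i :: u)) = alt w (fun u => g' (.pos i :: u)) :=
        ih fun u hu => h _ (.pc (dbl i) _ _ hu)
      have h2 : alt w (fun u => g (.neg i :: u)) = alt w (fun u => g' (.neg i :: u)) :=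
        ih fun u hu => h _ (.neg _ _ _ hu)
      rw [alt_dbl, alt_dbl, h1, h2]

theorem alt_sub (w : FWord) (g g' : Word → A) :
    alt w (fun u => g u - g' u) = alt w g - alt w g' := by
  induction w generalizing g g' with
  | nil => rfl
  | cons p w ih =>
    cases p with
    | birth i b => rw [alt_birth, ih]; rfl
    | death i => rw [alt_death, ih]; rfl
    | X i => rw [alt_X, ih]; rfl
    | dbl i =>
      rw [alt_dbl, ih, ih, alt_dbl, alt_dbl]
      abel

theorem alt_append (v w : FWord) (g : Word → A) :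
    alt (v ++ w) g = alt v (fun a => alt w fun b => g (a ++ b)) := by
  induction v generalizing g with
  | nil => rfl
  | cons p v ih =>
    cases p with
    | birth i b => exact ih _
    | death i => exact ih _
    | X i => exact ih _
    | dbl i => rw [List.cons_append, alt_dbl, ih, ih]; rfl

theorem alt_comm (v w : FWord) (g : Word → Word → A) :
    alt v (fun a => alt w fun b => g a b) = alt w fun b => alt v fun a => g a b := by
  induction w generalizing g with
  | nil => rfl
  | cons p w ih =>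
    cases p with
    | birth i b => exact ih _
    | death i => exact ih _
    | X i => exact ih _
    | dbl i =>
      show alt v (fun a => alt w (fun b => g a (.pos i :: b)) - alt w (fun b => g a (.neg i :: b)))
        = _
      rw [alt_sub, ih, ih]
      rfl

/-! ### Resolutions and strands -/

theorem Rs.run_eq {w : FWord} {u : Word} (h : Rs w u) (F : Front) :
    Knot.run u F = fr w F ∧ (Knot.Fits u F ↔ ok w F) ∧ Knot.comps u F = fc w F := by
  induction h generalizing F with
  | nil => exact ⟨rfl, Iff.rfl, rfl⟩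
  | pc p w u _ ih =>
    obtain ⟨h1, h2, h3⟩ := ih (p.pc.act F)
    refine ⟨h1, and_congr Iff.rfl h2, ?_⟩
    show _ + Knot.comps u (p.pc.act F) = _ + fc w (p.pc.act F)
    rw [h3]
  | neg i w u _ ih =>
    obtain ⟨h1, h2, h3⟩ := ih ((dbl i).pc.act F)
    refine ⟨h1, and_congr Iff.rfl h2, ?_⟩
    show _ + Knot.comps u ((dbl i).pc.act F) = _ + fc w ((dbl i).pc.act F)
    rw [h3]
    rfl

theorem knot_congr {x y x' y' m : Word} (hx : ∀ F, Knot.run x F = Knot.run x' F ∧
      (Knot.Fits x F ↔ Knot.Fits x' F) ∧ Knot.comps x F = Knot.comps x' F)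
    (hy : ∀ F, Knot.run y F = Knot.run y' F ∧
      (Knot.Fits y F ↔ Knot.Fits y' F) ∧ Knot.comps y F = Knot.comps y' F) :
    IsKnot (x ++ m ++ y) ↔ IsKnot (x' ++ m ++ y') := by
  unfold IsKnot Closed
  simp only [fits_append, run_append, comps_append, (hx _).1, (hx _).2.1, (hx _).2.2, (hy _).1,
    (hy _).2.1, (hy _).2.2]

theorem Rs.knot {x y : FWord} {a c m : Word} (ha : Rs x a) (hc : Rs y c) :
    IsKnot (a ++ m ++ c) ↔ IsKnot (pw x ++ m ++ pw y) :=
  knot_congr (fun F => ha.run_eq F) (fun F => hc.run_eq F)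

/-- The function of the middle part. -/
def ctx (v : Word → A) (x y : FWord) (m : Word) : A :=
  alt x fun a => alt y fun c => v (a ++ m ++ c)

theorem alt_ctx (v : Word → A) (x l y : FWord) : alt (x ++ l ++ y) v = alt l (ctx v x y) := by
  rw [List.append_assoc, alt_append]
  have : ∀ a, alt (l ++ y) (fun b => v (a ++ b)) = alt l fun m => alt y fun c => v (a ++ m ++ c) := by
    intro a
    rw [alt_append]
    simp only [List.append_assoc]
  simp only [this]
  rw [alt_comm]
  rfl

theorem ctx_iso {v : Word → A} (hv : IsInvariant v) {x y : FWord} {m m' : Word}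
    (hk : IsKnot (pw x ++ m ++ pw y))
    (h : ∀ a c, Rs x a → Rs y c → Isotopic (a ++ m ++ c) (a ++ m' ++ c)) :
    ctx v x y m = ctx v x y m' := by
  refine alt_congr fun a ha => alt_congr fun c hc => ?_
  exact hv _ _ ((ha.knot hc).2 hk) (h a c ha hc)

theorem ctx_move {v : Word → A} (hv : IsInvariant v) {x y : FWord} {m m' : Word} (hm : Move m m')
    (hk : IsKnot (pw x ++ m ++ pw y)) (hk' : IsKnot (pw x ++ m' ++ pw y)) :
    ctx v x y m = ctx v x y m' :=
  ctx_iso hv hk fun a c ha hc => Relation.EqvGen.rel _ _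
    (Step.mk a m m' c hm ((ha.knot hc).2 hk).1 ((ha.knot hc).2 hk').1)

theorem ctx_tr {v : Word → A} (hv : IsInvariant v) {x y : FWord} {i : ℕ} {m m' : Word}
    (hm : Sing.Tr i m m') (hk : IsKnot (pw x ++ m ++ pw y)) (hn : i + 3 ≤ (fr x Front.empty).n) :
    ctx v x y m = ctx v x y m' :=
  ctx_iso hv hk fun a c ha hc => iso_of_tr hm
    (by rw [(ha.run_eq Front.empty).1]; exact hn) ((ha.knot hc).2 hk).1

/-- All alternating sums over `k + 1` double points vanish. -/
def Deg (k : ℕ) (v : Word → A) : Prop := ∀ D, Kn D → nd D = k + 1 → alt D v = 0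

theorem kn_mid {x l y : FWord} (h : Kn (x ++ l ++ y)) : IsKnot (pw x ++ pw l ++ pw y) := by
  have : pw (x ++ l ++ y) = pw x ++ pw l ++ pw y := by rw [pw_append, pw_append]
  rw [← this]
  exact h

theorem kn_of_mid {x l y : FWord} (h : IsKnot (pw x ++ pw l ++ pw y)) : Kn (x ++ l ++ y) := by
  have : pw (x ++ l ++ y) = pw x ++ pw l ++ pw y := by rw [pw_append, pw_append]
  unfold Kn
  rw [this]
  exact h

/-- The same strands in the middle. -/
theorem kn_same {x y : FWord} {m m' : Word} (h : ∀ F, Knot.run m F = Knot.run m' F ∧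
      (Knot.Fits m F ↔ Knot.Fits m' F) ∧ Knot.comps m F = Knot.comps m' F)
    (hk : IsKnot (pw x ++ m ++ pw y)) : IsKnot (pw x ++ m' ++ pw y) := by
  revert hk
  unfold IsKnot Closed
  simp only [fits_append, run_append, comps_append, (h _).1, (h _).2.1, (h _).2.2]
  exact id

theorem kn_same' {x y : FWord} {m m' : Word} (hk : IsKnot (pw x ++ m ++ pw y))
    (h : ∀ F, Knot.run m F = Knot.run m' F ∧
      (Knot.Fits m F ↔ Knot.Fits m' F) ∧ Knot.comps m F = Knot.comps m' F) :
    IsKnot (pw x ++ m' ++ pw y) := kn_same h hk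

theorem kn_drop {x y : Word} {i : ℕ} (h : IsKnot (x ++ [.pos i, .pos i] ++ y)) :
    IsKnot (x ++ [] ++ y) := by
  obtain ⟨⟨h1, h2⟩, h3⟩ := h
  have e : ∀ F, Knot.run [.pos i, .pos i] F = F := fun F => Sing.run_sq i F
  rw [fits_append, fits_append, run_append, e] at h1
  rw [run_append, run_append, e] at h2
  rw [comps_append, comps_append, run_append, e] at h3
  refine ⟨⟨?_, ?_⟩, ?_⟩
  · rw [List.append_nil, fits_append]
    exact ⟨h1.1.1, h1.2⟩
  · rw [List.append_nil, run_append]
    exact h2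
  · rw [List.append_nil, comps_append]
    exact h3

variable {v : Word → A} {k : ℕ}

/-- Moves and alternating sums. -/
theorem alt_move (hv : IsInvariant v) (hd : Deg k v) {x l r y : FWord} (m : FMove l r)
    (hl : Kn (x ++ l ++ y)) (hr : Kn (x ++ r ++ y)) (hn : nd (x ++ l ++ y) = k) :
    alt (x ++ l ++ y) v = alt (x ++ r ++ y) v ∨ alt (x ++ l ++ y) v = -alt (x ++ r ++ y) v := by
  have hl' := kn_mid hl
  have hr' := kn_mid hr
  -- one more double point
  have deg : ∀ l' : FWord, IsKnot (pw x ++ pw l' ++ pw y) → nd l' = nd l + 1 →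
      alt l' (ctx v x y) = 0 := by
    intro l' h1 h2
    rw [← alt_ctx]
    refine hd _ (kn_of_mid h1) ?_
    rw [nd_append, nd_append] at hn ⊢
    omega
  rw [alt_ctx, alt_ctx]
  set H := ctx v x y with hH
  cases m with
  | exch p q hpq =>
    left
    have ex : ∀ (r s : Piece), (r.index = p.index ∧ r.ins = p.ins ∧ r.outs = p.outs) →
        (s.index = q.index) →
        (∀ F, Knot.run [r, s.moved (s.index + r.outs - r.ins)] F = Knot.run (pw [p, p.past q]) F ∧
          (Knot.Fits [r, s.moved (s.index + r.outs - r.ins)] F ↔ Knot.Fits (pw [p, p.past q]) F) ∧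
          Knot.comps [r, s.moved (s.index + r.outs - r.ins)] F =
            Knot.comps (pw [p, p.past q]) F) →
        (∀ F, Knot.run [s, r] F = Knot.run (pw [q, p]) F ∧
          (Knot.Fits [s, r] F ↔ Knot.Fits (pw [q, p]) F) ∧
          Knot.comps [s, r] F = Knot.comps (pw [q, p]) F) →
        H [r, s.moved (s.index + r.outs - r.ins)] = H [s, r] := by
      intro r s h1 h2 h3 h4
      refine ctx_move hv (Move.exchange r s (by rw [h1.1, h1.2.1, h2]; exact hpq)) ?_ ?_
      · exact kn_same (fun F => ⟨(h3 F).1.symm, (h3 F).2.1.symm, (h3 F).2.2.symm⟩) hl'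
      · exact kn_same (fun F => ⟨(h4 F).1.symm, (h4 F).2.1.symm, (h4 F).2.2.symm⟩) hr'
    have triv : ∀ (a b : Word), (∀ F, Knot.run a F = Knot.run b F ∧
      (Knot.Fits a F ↔ Knot.Fits b F) ∧ Knot.comps a F = Knot.comps b F) → True := fun _ _ _ => trivial
    cases p with
    | birth i b =>
      cases q with
      | birth j c =>
        exact ex (.birth i b) (.birth j c) ⟨rfl, rfl, rfl⟩ rfl
          (fun F => ⟨rfl, Iff.rfl, rfl⟩) (fun F => ⟨rfl, Iff.rfl, rfl⟩)
      | death j =>
        exact ex (.birth i b) (.death j) ⟨rfl, rfl, rfl⟩ rfl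
          (fun F => ⟨rfl, Iff.rfl, rfl⟩) (fun F => ⟨rfl, Iff.rfl, rfl⟩)
      | X j =>
        exact ex (.birth i b) (.pos j) ⟨rfl, rfl, rfl⟩ rfl
          (fun F => ⟨rfl, Iff.rfl, rfl⟩) (fun F => ⟨rfl, Iff.rfl, rfl⟩)
      | dbl j =>
        have e1 := ex (.birth i b) (.pos j) ⟨rfl, rfl, rfl⟩ rfl
          (fun F => ⟨rfl, Iff.rfl, rfl⟩) (fun F => ⟨rfl, Iff.rfl, rfl⟩)
        have e2 := ex (.birth i b) (.neg j) ⟨rfl, rfl, rfl⟩ rfl
          (fun F => ⟨rfl, Iff.rfl, rfl⟩) (fun F => ⟨rfl, Iff.rfl, rfl⟩)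
        exact congrArg₂ (· - ·) e1 e2
    | death i =>
      cases q with
      | birth j c =>
        exact ex (.death i) (.birth j c) ⟨rfl, rfl, rfl⟩ rfl
          (fun F => ⟨rfl, Iff.rfl, rfl⟩) (fun F => ⟨rfl, Iff.rfl, rfl⟩)
      | death j =>
        exact ex (.death i) (.death j) ⟨rfl, rfl, rfl⟩ rfl
          (fun F => ⟨rfl, Iff.rfl, rfl⟩) (fun F => ⟨rfl, Iff.rfl, rfl⟩)
      | X j =>
        exact ex (.death i) (.pos j) ⟨rfl, rfl, rfl⟩ rfl
          (fun F => ⟨rfl, Iff.rfl, rfl⟩) (fun F => ⟨rfl, Iff.rfl, rfl⟩)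
      | dbl j =>
        have e1 := ex (.death i) (.pos j) ⟨rfl, rfl, rfl⟩ rfl
          (fun F => ⟨rfl, Iff.rfl, rfl⟩) (fun F => ⟨rfl, Iff.rfl, rfl⟩)
        have e2 := ex (.death i) (.neg j) ⟨rfl, rfl, rfl⟩ rfl
          (fun F => ⟨rfl, Iff.rfl, rfl⟩) (fun F => ⟨rfl, Iff.rfl, rfl⟩)
        exact congrArg₂ (· - ·) e1 e2
    | X i =>
      cases q with
      | birth j c =>
        exact ex (.pos i) (.birth j c) ⟨rfl, rfl, rfl⟩ rfl
          (fun F => ⟨rfl, Iff.rfl, rfl⟩) (fun F => ⟨rfl, Iff.rfl, rfl⟩)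
      | death j =>
        exact ex (.pos i) (.death j) ⟨rfl, rfl, rfl⟩ rfl
          (fun F => ⟨rfl, Iff.rfl, rfl⟩) (fun F => ⟨rfl, Iff.rfl, rfl⟩)
      | X j =>
        exact ex (.pos i) (.pos j) ⟨rfl, rfl, rfl⟩ rfl
          (fun F => ⟨rfl, Iff.rfl, rfl⟩) (fun F => ⟨rfl, Iff.rfl, rfl⟩)
      | dbl j =>
        have e1 := ex (.pos i) (.pos j) ⟨rfl, rfl, rfl⟩ rfl
          (fun F => ⟨rfl, Iff.rfl, rfl⟩) (fun F => ⟨rfl, Iff.rfl, rfl⟩)
        have e2 := ex (.pos i) (.neg j) ⟨rfl, rfl, rfl⟩ rfl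
          (fun F => ⟨rfl, Iff.rfl, rfl⟩) (fun F => ⟨rfl, Iff.rfl, rfl⟩)
        exact congrArg₂ (· - ·) e1 e2
    | dbl i =>
      cases q with
      | birth j c =>
        have e1 := ex (.pos i) (.birth j c) ⟨rfl, rfl, rfl⟩ rfl
          (fun F => ⟨rfl, Iff.rfl, rfl⟩) (fun F => ⟨rfl, Iff.rfl, rfl⟩)
        have e2 := ex (.neg i) (.birth j c) ⟨rfl, rfl, rfl⟩ rfl
          (fun F => ⟨rfl, Iff.rfl, rfl⟩) (fun F => ⟨rfl, Iff.rfl, rfl⟩)
        exact congrArg₂ (· - ·) e1 e2
      | death j =>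
        have e1 := ex (.pos i) (.death j) ⟨rfl, rfl, rfl⟩ rfl
          (fun F => ⟨rfl, Iff.rfl, rfl⟩) (fun F => ⟨rfl, Iff.rfl, rfl⟩)
        have e2 := ex (.neg i) (.death j) ⟨rfl, rfl, rfl⟩ rfl
          (fun F => ⟨rfl, Iff.rfl, rfl⟩) (fun F => ⟨rfl, Iff.rfl, rfl⟩)
        exact congrArg₂ (· - ·) e1 e2
      | X j =>
        have e1 := ex (.pos i) (.pos j) ⟨rfl, rfl, rfl⟩ rfl
          (fun F => ⟨rfl, Iff.rfl, rfl⟩) (fun F => ⟨rfl, Iff.rfl, rfl⟩)
        have e2 := ex (.neg i) (.pos j) ⟨rfl, rfl, rfl⟩ rfl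
          (fun F => ⟨rfl, Iff.rfl, rfl⟩) (fun F => ⟨rfl, Iff.rfl, rfl⟩)
        exact congrArg₂ (· - ·) e1 e2
      | dbl j =>
        have e1 := ex (.pos i) (.pos j) ⟨rfl, rfl, rfl⟩ rfl
          (fun F => ⟨rfl, Iff.rfl, rfl⟩) (fun F => ⟨rfl, Iff.rfl, rfl⟩)
        have e2 := ex (.neg i) (.pos j) ⟨rfl, rfl, rfl⟩ rfl
          (fun F => ⟨rfl, Iff.rfl, rfl⟩) (fun F => ⟨rfl, Iff.rfl, rfl⟩)
        have e3 := ex (.pos i) (.neg j) ⟨rfl, rfl, rfl⟩ rfl
          (fun F => ⟨rfl, Iff.rfl, rfl⟩) (fun F => ⟨rfl, Iff.rfl, rfl⟩)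
        have e4 := ex (.neg i) (.neg j) ⟨rfl, rfl, rfl⟩ rfl
          (fun F => ⟨rfl, Iff.rfl, rfl⟩) (fun F => ⟨rfl, Iff.rfl, rfl⟩)
        show (H [.pos i, .pos (j + 2 - 2)] - H [.pos i, .neg (j + 2 - 2)]) -
            (H [.neg i, .pos (j + 2 - 2)] - H [.neg i, .neg (j + 2 - 2)]) =
          (H [.pos j, .pos i] - H [.pos j, .neg i]) - (H [.neg j, .pos i] - H [.neg j, .neg i])
        have e1' : H [.pos i, .pos (j + 2 - 2)] = H [.pos j, .pos i] := e1
        have e2' : H [.neg i, .pos (j + 2 - 2)] = H [.pos j, .neg i] := e2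
        have e3' : H [.pos i, .neg (j + 2 - 2)] = H [.neg j, .pos i] := e3
        have e4' : H [.neg i, .neg (j + 2 - 2)] = H [.neg j, .neg i] := e4
        rw [e1', e2', e3', e4']
        abel
  | zig₁ i b => exact Or.inl (ctx_move hv (Move.zigzag₁ i b) hl' hr')
  | zig₂ i b => exact Or.inl (ctx_move hv (Move.zigzag₂ i b) hl' hr')
  | slB i b =>
    left
    have h1 : H [.birth i b, .pos (i + 1)] = H [.birth (i + 1) b, .neg i] :=
      ctx_move hv (Move.slideBirth₁ i b) hl' (kn_same' hr' fun F => ⟨rfl, Iff.rfl, rfl⟩)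
    have h2 : H [.birth (i + 1) b, .pos i] - H [.birth (i + 1) b, .neg i] = 0 :=
      deg [birth (i + 1) b, dbl i] hr' rfl
    show H [.birth i b, .pos (i + 1)] = H [.birth (i + 1) b, .pos i]
    rw [h1]
    exact (sub_eq_zero.1 h2).symm
  | slD i =>
    left
    have h1 : H [.pos (i + 1), .death i] = H [.neg i, .death (i + 1)] :=
      ctx_move hv (Move.slideDeath₁ i) hl' (kn_same' hr' fun F => ⟨rfl, Iff.rfl, rfl⟩)
    have h2 : H [.pos i, .death (i + 1)] - H [.neg i, .death (i + 1)] = 0 :=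
      deg [dbl i, death (i + 1)] hr' rfl
    show H [.pos (i + 1), .death i] = H [.pos i, .death (i + 1)]
    rw [h1]
    exact (sub_eq_zero.1 h2).symm
  | slBd i b =>
    right
    have h1 : H [.birth i b, .pos (i + 1)] = H [.birth (i + 1) b, .neg i] :=
      ctx_move hv (Move.slideBirth₁ i b) hl' (kn_same' hr' fun F => ⟨rfl, Iff.rfl, rfl⟩)
    have h2 : H [.birth i b, .neg (i + 1)] = H [.birth (i + 1) b, .pos i] :=
      ctx_move hv (Move.slideBirth₂ i b) (kn_same' hl' fun F => ⟨rfl, Iff.rfl, rfl⟩) hr'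
    show H [.birth i b, .pos (i + 1)] - H [.birth i b, .neg (i + 1)] =
      -(H [.birth (i + 1) b, .pos i] - H [.birth (i + 1) b, .neg i])
    rw [h1, h2]
    abel
  | slDd i =>
    right
    have h1 : H [.pos (i + 1), .death i] = H [.neg i, .death (i + 1)] :=
      ctx_move hv (Move.slideDeath₁ i) hl' (kn_same' hr' fun F => ⟨rfl, Iff.rfl, rfl⟩)
    have h2 : H [.neg (i + 1), .death i] = H [.pos i, .death (i + 1)] :=
      ctx_move hv (Move.slideDeath₂ i) (kn_same' hl' fun F => ⟨rfl, Iff.rfl, rfl⟩) hr'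
    show H [.pos (i + 1), .death i] - H [.neg (i + 1), .death i] =
      -(H [.pos i, .death (i + 1)] - H [.neg i, .death (i + 1)])
    rw [h1, h2]
    abel
  | fB i b => exact Or.inl (ctx_move hv (Move.firstBirthPos i b) hl' hr')
  | fD i => exact Or.inl (ctx_move hv (Move.firstDeathPos i) hl' hr')
  | sec i =>
    left
    have h1 : H [.pos i, .pos i] - H [.pos i, .neg i] = 0 := deg [X i, dbl i] hl' rfl
    have h2 : H [.pos i, .neg i] = H [] :=
      ctx_move hv (Move.second₁ i) (kn_same' hl' fun F => ⟨rfl, Iff.rfl, rfl⟩) hr'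
    show H [.pos i, .pos i] = H []
    rw [← h2]
    exact sub_eq_zero.1 h1
  | thd i => exact Or.inl (ctx_move hv (Move.third i) hl' hr')
  | fth i =>
    left
    have hn3 : i + 3 ≤ (fr x Front.empty).n := by
      have h1 := hl.ok
      rw [ok_append, ok_append] at h1
      exact h1.1.2.1
    have h1 : H [.pos i, .pos (i + 1), .pos i] = H [.pos (i + 1), .pos i, .pos (i + 1)] :=
      ctx_tr hv (Sing.third_pos i) hr' hn3
    have h2 : H [.neg i, .pos (i + 1), .pos i] = H [.pos (i + 1), .pos i, .neg (i + 1)] :=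
      ctx_tr hv (Sing.third_npp i) (kn_same' hr' fun F => ⟨rfl, Iff.rfl, rfl⟩) hn3
    show H [.pos (i + 1), .pos i, .pos (i + 1)] - H [.pos (i + 1), .pos i, .neg (i + 1)] =
      H [.pos i, .pos (i + 1), .pos i] - H [.neg i, .pos (i + 1), .pos i]
    rw [h1, h2]
  | fif i =>
    left
    have he : IsKnot (pw x ++ [] ++ pw y) := kn_drop hl'
    have h1 : H [.neg i, .pos i] = H [] :=
      ctx_move hv (Move.second₂ i) (kn_same' hl' fun F => ⟨rfl, Iff.rfl, rfl⟩) he
    have h2 : H [.pos i, .neg i] = H [] :=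
      ctx_move hv (Move.second₁ i) (kn_same' hl' fun F => ⟨rfl, Iff.rfl, rfl⟩) he
    show H [.pos i, .pos i] - H [.neg i, .pos i] = H [.pos i, .pos i] - H [.pos i, .neg i]
    rw [h1, h2]

end Pool.Agent.H835R2.Flat
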