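import Pool.Agent.H835R2.Knot.Front

/-! # Flat words and their moves -/

set_option autoImplicit false
set_option linter.unusedSimpArgs false
set_option linter.unusedVariables false

namespace Pool.Agent.H835R2.Flat

open Pool.Agent.H835R2.Knot
open Piece (act)

/-- Pieces of flat diagrams: maxima, minima, crossings whose signs do not matter, double points. -/
inductive FP : Type
  | birth (i : ℕ) (b : Bool) : FP
  | death (i : ℕ) : FP
  | X (i : ℕ) : FP
  | dbl (i : ℕ) : FP
  deriving DecidableEq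

namespace FP

/-- A plain piece with the same strands. -/
def pc : FP → Piece
  | birth i b => .birth i b
  | death i => .death i
  | X i => .pos i
  | dbl i => .pos i

def index : FP → ℕ
  | birth i _ => i
  | death i => i
  | X i => i
  | dbl i => i

def ins : FP → ℕ
  | birth _ _ => 0
  | _ => 2

def outs : FP → ℕ
  | death _ => 0
  | _ => 2

def moved (j : ℕ) : FP → FP
  | birth _ b => birth j b
  | death _ => death j
  | X _ => X j
  | dbl _ => dbl j

/-- The piece `q` below `p`, if it is on the right of `p`. -/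
def past (p q : FP) : FP := q.moved (q.index + p.outs - p.ins)

end FP

open Pool.Agent.H835R2.Flat.FP

abbrev FWord : Type := List FP

/-- The plain word. -/
def pw (w : FWord) : Word := w.map pc

theorem pw_append (v w : FWord) : pw (v ++ w) = pw v ++ pw w := List.map_append
theorem pw_cons (p : FP) (w : FWord) : pw (p :: w) = p.pc :: pw w := rfl
theorem pw_nil : pw [] = [] := rfl

/-- The strands below a word. -/
abbrev fr (w : FWord) (F : Front) : Front := Knot.run (pw w) F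
/-- The word fits. -/
abbrev ok (w : FWord) (F : Front) : Prop := Knot.Fits (pw w) F
/-- The number of components completed. -/
abbrev fc (w : FWord) (F : Front) : ℕ := Knot.comps (pw w) F

theorem fr_append (v w : FWord) (F : Front) : fr (v ++ w) F = fr w (fr v F) := by
  unfold fr; rw [pw_append, run_append]
theorem ok_append (v w : FWord) (F : Front) : ok (v ++ w) F ↔ ok v F ∧ ok w (fr v F) := by
  unfold ok; rw [pw_append, fits_append]
theorem fc_append (v w : FWord) (F : Front) : fc (v ++ w) F = fc v F + fc w (fr v F) := by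
  unfold fc; rw [pw_append, comps_append]
theorem ok_cons (p : FP) (w : FWord) (F : Front) :
    ok (p :: w) F ↔ p.pc.Fits F ∧ ok w (p.pc.act F) := Iff.rfl
theorem fr_cons (p : FP) (w : FWord) (F : Front) : fr (p :: w) F = fr w (p.pc.act F) := rfl
theorem ok_nil (F : Front) : ok [] F := trivial

/-- Moves of flat words; the left hand side is not shorter. -/
inductive FMove : FWord → FWord → Prop
  | exch (p q : FP) (h : p.index + p.ins ≤ q.index) : FMove [p, p.past q] [q, p]
  | zig₁ (i : ℕ) (b : Bool) : FMove [birth i b, death (i + 1)] []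
  | zig₂ (i : ℕ) (b : Bool) : FMove [birth (i + 1) b, death i] []
  | slB (i : ℕ) (b : Bool) : FMove [birth i b, X (i + 1)] [birth (i + 1) b, X i]
  | slD (i : ℕ) : FMove [X (i + 1), death i] [X i, death (i + 1)]
  | slBd (i : ℕ) (b : Bool) : FMove [birth i b, dbl (i + 1)] [birth (i + 1) b, dbl i]
  | slDd (i : ℕ) : FMove [dbl (i + 1), death i] [dbl i, death (i + 1)]
  | fB (i : ℕ) (b : Bool) : FMove [birth i b, X i] [birth i (!b)]
  | fD (i : ℕ) : FMove [X i, death i] [death i]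
  | sec (i : ℕ) : FMove [X i, X i] []
  | thd (i : ℕ) : FMove [X i, X (i + 1), X i] [X (i + 1), X i, X (i + 1)]
  | fth (i : ℕ) : FMove [X (i + 1), X i, dbl (i + 1)] [dbl i, X (i + 1), X i]
  | fif (i : ℕ) : FMove [dbl i, X i] [X i, dbl i]

/-- Fronts of good states. -/
def GF (F : Front) : Prop := ∃ s : St Empty, s.Good ∧ s.front = F

theorem gf_empty : GF Front.empty := ⟨St.empty, St.good_empty, rfl⟩

theorem GF.act {F : Front} (h : GF F) {p : FP} (hp : p.pc.Fits F) : GF (p.pc.act F) := by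
  obtain ⟨s, hs, rfl⟩ := h
  exact ⟨(shape p.pc).act s, good_act hs hp, front_act _ _⟩

theorem GF.fr {F : Front} (h : GF F) {w : FWord} (hw : ok w F) : GF (fr w F) := by
  induction w generalizing F with
  | nil => exact h
  | cons p w ih => exact ih (h.act hw.1) hw.2

/-! ### Fits of small words -/

theorem exch_pc (p q : FP) :
    (p.past q).pc = q.pc.moved (q.pc.index + p.pc.outs - p.pc.ins) := by
  cases p <;> cases q <;> rfl

theorem pc_index (p : FP) : p.pc.index = p.index := by cases p <;> rfl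
theorem pc_ins (p : FP) : p.pc.ins = p.ins := by cases p <;> rfl
theorem pc_outs (p : FP) : p.pc.outs = p.outs := by cases p <;> rfl

theorem piece_exch_fits (p q : Piece) (h : p.index + p.ins ≤ q.index) (F : Front) :
    Knot.Fits [p, q.moved (q.index + p.outs - p.ins)] F ↔ Knot.Fits [q, p] F := by
  cases p with
  | birth i b =>
    replace h : i ≤ q.index := h
    cases q with
    | birth j c =>
      replace h : i ≤ j := h
      show (i ≤ F.n ∧ j + 2 ≤ F.n + 2 ∧ True) ↔ (j ≤ F.n ∧ i ≤ F.n + 2 ∧ True)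
      constructor <;> rintro ⟨h1, h2, -⟩ <;> refine ⟨?_, ?_, trivial⟩ <;> omega
    | death j =>
      replace h : i ≤ j := h
      show (i ≤ F.n ∧ (j + 2 + 2 ≤ F.n + 2 ∧ (act (.birth i b) F).dir (j + 2 + 1) =
        !(act (.birth i b) F).dir (j + 2)) ∧ True) ↔
        ((j + 2 ≤ F.n ∧ F.dir (j + 1) = !F.dir j) ∧ i ≤ F.n - 2 ∧ True)
      have e1 : (act (.birth i b) F).dir (j + 2 + 1) = F.dir (j + 1) := by
        simp only [act]
        rw [if_neg (by omega), if_neg (by omega), if_neg (by omega)]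
        congr 1
      have e2 : (act (.birth i b) F).dir (j + 2) = F.dir j := by
        simp only [act]
        rw [if_neg (by omega), if_neg (by omega), if_neg (by omega)]
        congr 1
      rw [e1, e2]
      constructor
      · rintro ⟨h1, ⟨h2, h3⟩, -⟩
        exact ⟨⟨by omega, h3⟩, by omega, trivial⟩
      · rintro ⟨⟨h1, h2⟩, h3, -⟩
        exact ⟨by omega, ⟨by omega, h2⟩, trivial⟩
    | pos j =>
      replace h : i ≤ j := h
      show (i ≤ F.n ∧ j + 2 + 2 ≤ F.n + 2 ∧ True) ↔ (j + 2 ≤ F.n ∧ i ≤ F.n ∧ True)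
      constructor <;> rintro ⟨h1, h2, -⟩ <;> refine ⟨?_, ?_, trivial⟩ <;> omega
    | neg j =>
      replace h : i ≤ j := h
      show (i ≤ F.n ∧ j + 2 + 2 ≤ F.n + 2 ∧ True) ↔ (j + 2 ≤ F.n ∧ i ≤ F.n ∧ True)
      constructor <;> rintro ⟨h1, h2, -⟩ <;> refine ⟨?_, ?_, trivial⟩ <;> omega
  | death i =>
    replace h : i + 2 ≤ q.index := h
    cases q with
    | birth j c =>
      replace h : i + 2 ≤ j := h
      show ((i + 2 ≤ F.n ∧ F.dir (i + 1) = !F.dir i) ∧ j + 0 - 2 ≤ F.n - 2 ∧ True) ↔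
        (j ≤ F.n ∧ (i + 2 ≤ F.n + 2 ∧ (act (.birth j c) F).dir (i + 1) =
          !(act (.birth j c) F).dir i) ∧ True)
      have e1 : (act (.birth j c) F).dir (i + 1) = F.dir (i + 1) := by
        simp only [act]
        rw [if_pos (by omega)]
      have e2 : (act (.birth j c) F).dir i = F.dir i := by
        simp only [act]
        rw [if_pos (by omega)]
      rw [e1, e2]
      constructor
      · rintro ⟨⟨h1, h2⟩, h3, -⟩
        exact ⟨by omega, ⟨by omega, h2⟩, trivial⟩
      · rintro ⟨h1, ⟨h2, h3⟩, -⟩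
        exact ⟨⟨by omega, h3⟩, by omega, trivial⟩
    | death j =>
      replace h : i + 2 ≤ j := h
      show ((i + 2 ≤ F.n ∧ F.dir (i + 1) = !F.dir i) ∧ (j + 0 - 2 + 2 ≤ F.n - 2 ∧
          F.dir (up i (j + 0 - 2 + 1)) = !F.dir (up i (j + 0 - 2))) ∧ True) ↔
        ((j + 2 ≤ F.n ∧ F.dir (j + 1) = !F.dir j) ∧ (i + 2 ≤ F.n - 2 ∧
          F.dir (up j (i + 1)) = !F.dir (up j i)) ∧ True)
      rw [up_ge (show i ≤ j + 0 - 2 + 1 by omega), up_ge (show i ≤ j + 0 - 2 by omega),
        up_lt (show i + 1 < j by omega), up_lt (show i < j by omega),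
        show j + 0 - 2 + 1 + 2 = j + 1 by omega, show j + 0 - 2 + 2 = j by omega]
      constructor
      · rintro ⟨⟨h1, h2⟩, ⟨h3, h4⟩, -⟩
        exact ⟨⟨by omega, h4⟩, ⟨by omega, h2⟩, trivial⟩
      · rintro ⟨⟨h1, h2⟩, ⟨h3, h4⟩, -⟩
        exact ⟨⟨by omega, h4⟩, ⟨by omega, h2⟩, trivial⟩
    | pos j =>
      replace h : i + 2 ≤ j := h
      show ((i + 2 ≤ F.n ∧ F.dir (i + 1) = !F.dir i) ∧ j + 0 - 2 + 2 ≤ F.n - 2 ∧ True) ↔
        (j + 2 ≤ F.n ∧ (i + 2 ≤ F.n ∧ F.dir (sw j (i + 1)) = !F.dir (sw j i)) ∧ True)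
      rw [sw_of_ne (show i + 1 ≠ j by omega) (by omega),
        sw_of_ne (show i ≠ j by omega) (by omega)]
      constructor
      · rintro ⟨⟨h1, h2⟩, h3, -⟩
        exact ⟨by omega, ⟨by omega, h2⟩, trivial⟩
      · rintro ⟨h1, ⟨h2, h3⟩, -⟩
        exact ⟨⟨by omega, h3⟩, by omega, trivial⟩
    | neg j =>
      replace h : i + 2 ≤ j := h
      show ((i + 2 ≤ F.n ∧ F.dir (i + 1) = !F.dir i) ∧ j + 0 - 2 + 2 ≤ F.n - 2 ∧ True) ↔
        (j + 2 ≤ F.n ∧ (i + 2 ≤ F.n ∧ F.dir (sw j (i + 1)) = !F.dir (sw j i)) ∧ True)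
      rw [sw_of_ne (show i + 1 ≠ j by omega) (by omega),
        sw_of_ne (show i ≠ j by omega) (by omega)]
      constructor
      · rintro ⟨⟨h1, h2⟩, h3, -⟩
        exact ⟨by omega, ⟨by omega, h2⟩, trivial⟩
      · rintro ⟨h1, ⟨h2, h3⟩, -⟩
        exact ⟨⟨by omega, h3⟩, by omega, trivial⟩
  | pos i =>
    replace h : i + 2 ≤ q.index := h
    cases q with
    | birth j c =>
      replace h : i + 2 ≤ j := h
      show (i + 2 ≤ F.n ∧ j + 2 - 2 ≤ F.n ∧ True) ↔ (j ≤ F.n ∧ i + 2 ≤ F.n + 2 ∧ True)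
      constructor <;> rintro ⟨h1, h2, -⟩ <;> refine ⟨?_, ?_, trivial⟩ <;> omega
    | death j =>
      replace h : i + 2 ≤ j := h
      show (i + 2 ≤ F.n ∧ (j + 2 - 2 + 2 ≤ F.n ∧ F.dir (sw i (j + 2 - 2 + 1)) =
          !F.dir (sw i (j + 2 - 2))) ∧ True) ↔
        ((j + 2 ≤ F.n ∧ F.dir (j + 1) = !F.dir j) ∧ i + 2 ≤ F.n - 2 ∧ True)
      rw [show j + 2 - 2 = j by omega, sw_of_ne (show j + 1 ≠ i by omega) (by omega),
        sw_of_ne (show j ≠ i by omega) (by omega)]
      constructor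
      · rintro ⟨h1, ⟨h2, h3⟩, -⟩
        exact ⟨⟨by omega, h3⟩, by omega, trivial⟩
      · rintro ⟨⟨h1, h2⟩, h3, -⟩
        exact ⟨by omega, ⟨by omega, h2⟩, trivial⟩
    | pos j =>
      replace h : i + 2 ≤ j := h
      show (i + 2 ≤ F.n ∧ j + 2 - 2 + 2 ≤ F.n ∧ True) ↔ (j + 2 ≤ F.n ∧ i + 2 ≤ F.n ∧ True)
      constructor <;> rintro ⟨h1, h2, -⟩ <;> refine ⟨?_, ?_, trivial⟩ <;> omega
    | neg j =>
      replace h : i + 2 ≤ j := h
      show (i + 2 ≤ F.n ∧ j + 2 - 2 + 2 ≤ F.n ∧ True) ↔ (j + 2 ≤ F.n ∧ i + 2 ≤ F.n ∧ True)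
      constructor <;> rintro ⟨h1, h2, -⟩ <;> refine ⟨?_, ?_, trivial⟩ <;> omega
  | neg i =>
    replace h : i + 2 ≤ q.index := h
    cases q with
    | birth j c =>
      replace h : i + 2 ≤ j := h
      show (i + 2 ≤ F.n ∧ j + 2 - 2 ≤ F.n ∧ True) ↔ (j ≤ F.n ∧ i + 2 ≤ F.n + 2 ∧ True)
      constructor <;> rintro ⟨h1, h2, -⟩ <;> refine ⟨?_, ?_, trivial⟩ <;> omega
    | death j =>
      replace h : i + 2 ≤ j := h
      show (i + 2 ≤ F.n ∧ (j + 2 - 2 + 2 ≤ F.n ∧ F.dir (sw i (j + 2 - 2 + 1)) =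
          !F.dir (sw i (j + 2 - 2))) ∧ True) ↔
        ((j + 2 ≤ F.n ∧ F.dir (j + 1) = !F.dir j) ∧ i + 2 ≤ F.n - 2 ∧ True)
      rw [show j + 2 - 2 = j by omega, sw_of_ne (show j + 1 ≠ i by omega) (by omega),
        sw_of_ne (show j ≠ i by omega) (by omega)]
      constructor
      · rintro ⟨h1, ⟨h2, h3⟩, -⟩
        exact ⟨⟨by omega, h3⟩, by omega, trivial⟩
      · rintro ⟨⟨h1, h2⟩, h3, -⟩
        exact ⟨by omega, ⟨by omega, h2⟩, trivial⟩
    | pos j =>
      replace h : i + 2 ≤ j := h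
      show (i + 2 ≤ F.n ∧ j + 2 - 2 + 2 ≤ F.n ∧ True) ↔ (j + 2 ≤ F.n ∧ i + 2 ≤ F.n ∧ True)
      constructor <;> rintro ⟨h1, h2, -⟩ <;> refine ⟨?_, ?_, trivial⟩ <;> omega
    | neg j =>
      replace h : i + 2 ≤ j := h
      show (i + 2 ≤ F.n ∧ j + 2 - 2 + 2 ≤ F.n ∧ True) ↔ (j + 2 ≤ F.n ∧ i + 2 ≤ F.n ∧ True)
      constructor <;> rintro ⟨h1, h2, -⟩ <;> refine ⟨?_, ?_, trivial⟩ <;> omega

theorem exch_fits {p q : FP} (h : p.index + p.ins ≤ q.index) (F : Front) :
    ok [p, p.past q] F ↔ ok [q, p] F := by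
  have := piece_exch_fits p.pc q.pc (by rw [pc_index, pc_ins, pc_index]; exact h) F
  rw [← exch_pc] at this
  exact this

/-! ### Moves and fronts -/

theorem ok_slB (i : ℕ) (b : Bool) (F : Front) :
    ok [birth i b, X (i + 1)] F ↔ ok [birth (i + 1) b, X i] F := by
  show (i ≤ F.n ∧ i + 1 + 2 ≤ F.n + 2 ∧ True) ↔ (i + 1 ≤ F.n ∧ i + 2 ≤ F.n + 2 ∧ True)
  constructor <;> rintro ⟨h1, h2, -⟩ <;> refine ⟨?_, ?_, trivial⟩ <;> omega

theorem ok_slD (i : ℕ) (F : Front) :
    ok [X (i + 1), death i] F ↔ ok [X i, death (i + 1)] F := by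
  show (i + 1 + 2 ≤ F.n ∧ (i + 2 ≤ F.n ∧ F.dir (sw (i + 1) (i + 1)) = !F.dir (sw (i + 1) i)) ∧
    True) ↔ (i + 2 ≤ F.n ∧ (i + 1 + 2 ≤ F.n ∧ F.dir (sw i (i + 1 + 1)) = !F.dir (sw i (i + 1))) ∧
    True)
  rw [sw_left, sw_right, sw_of_ne (show i ≠ i + 1 by omega) (by omega),
    sw_of_ne (show i + 1 + 1 ≠ i by omega) (by omega)]
  constructor
  · rintro ⟨h1, ⟨h2, h3⟩, -⟩
    exact ⟨h2, ⟨h1, h3⟩, trivial⟩
  · rintro ⟨h1, ⟨h2, h3⟩, -⟩
    exact ⟨h2, ⟨h1, h3⟩, trivial⟩

theorem ok_fD (i : ℕ) (F : Front) : ok [X i, death i] F ↔ ok [death i] F := by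
  show (i + 2 ≤ F.n ∧ (i + 2 ≤ F.n ∧ F.dir (sw i (i + 1)) = !F.dir (sw i i)) ∧ True) ↔
    ((i + 2 ≤ F.n ∧ F.dir (i + 1) = !F.dir i) ∧ True)
  rw [sw_left, sw_right]
  constructor
  · rintro ⟨h1, ⟨h2, h3⟩, -⟩
    exact ⟨⟨h1, by rw [h3]; simp⟩, trivial⟩
  · rintro ⟨⟨h1, h2⟩, -⟩
    exact ⟨h1, ⟨h1, by rw [h2]; simp⟩, trivial⟩

/-- The right hand side of a move fits if the left hand side fits. -/
theorem FMove.ok_right {l r : FWord} (m : FMove l r) {F : Front} (h : ok l F) : ok r F := by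
  cases m with
  | exch p q hpq => exact (exch_fits hpq F).1 h
  | zig₁ i b => trivial
  | zig₂ i b => trivial
  | slB i b => exact (ok_slB i b F).1 h
  | slD i => exact (ok_slD i F).1 h
  | slBd i b => exact (ok_slB i b F).1 h
  | slDd i => exact (ok_slD i F).1 h
  | fB i b => exact ⟨h.1, trivial⟩
  | fD i => exact (ok_fD i F).1 h
  | sec i => trivial
  | thd i =>
    obtain ⟨h1, h2, h3, -⟩ := h
    exact ⟨h2, h1, h2, trivial⟩
  | fth i =>
    obtain ⟨h1, h2, h3, -⟩ := h
    exact ⟨h2, h1, h2, trivial⟩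
  | fif i =>
    obtain ⟨h1, h2, -⟩ := h
    exact ⟨h1, h2, trivial⟩

/-- The moves which do not create anything if they are read from right to left. -/
theorem ok_slide {l r : FWord} (m : FMove l r) (hb : r ≠ []) {F : Front} (h : ok r F) : ok l F := by
  cases m with
  | exch p q hpq => exact (exch_fits hpq F).2 h
  | zig₁ i b => exact absurd rfl hb
  | zig₂ i b => exact absurd rfl hb
  | slB i b => exact (ok_slB i b F).2 h
  | slD i => exact (ok_slD i F).2 h
  | slBd i b => exact (ok_slB i b F).2 h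
  | slDd i => exact (ok_slD i F).2 h
  | fB i b =>
    obtain ⟨h1, -⟩ := h
    replace h1 : i ≤ F.n := h1
    exact ⟨h1, by show i + 2 ≤ F.n + 2; omega, trivial⟩
  | fD i => exact (ok_fD i F).2 h
  | sec i => exact absurd rfl hb
  | thd i =>
    obtain ⟨h1, h2, h3, -⟩ := h
    exact ⟨h2, h1, h2, trivial⟩
  | fth i =>
    obtain ⟨h1, h2, h3, -⟩ := h
    exact ⟨h2, h1, h2, trivial⟩
  | fif i =>
    obtain ⟨h1, h2, -⟩ := h
    exact ⟨h1, h2, trivial⟩

theorem run_of_move {l r : Word} (h : Move l r) {F : Front} (hF : GF F)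
    (hl : Knot.Fits l F) (hr : Knot.Fits r F) :
    Knot.run l F = Knot.run r F ∧ Knot.comps l F = Knot.comps r F := by
  obtain ⟨s, hs, rfl⟩ := hF
  obtain ⟨h1, h2⟩ := move_rn h hs hl hr
  refine ⟨?_, h2⟩
  rw [← front_run, ← front_run]
  exact congrArg St.front h1

/-- Moves keep the strands and the number of components. -/
theorem FMove.fr_eq {l r : FWord} (m : FMove l r) {F : Front} (hF : GF F) (h : ok l F) :
    fr l F = fr r F ∧ fc l F = fc r F := by
  have hr := m.ok_right h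
  cases m with
  | exch p q hpq =>
    have hm := Move.exchange p.pc q.pc (by rw [pc_index, pc_ins, pc_index]; exact hpq)
    rw [← exch_pc] at hm
    exact run_of_move hm hF h hr
  | zig₁ i b => exact run_of_move (Move.zigzag₁ i b) hF h hr
  | zig₂ i b => exact run_of_move (Move.zigzag₂ i b) hF h hr
  | slB i b => exact (run_of_move (Move.slideBirth₁ i b) hF h hr :)
  | slD i => exact (run_of_move (Move.slideDeath₁ i) hF h hr :)
  | slBd i b => exact (run_of_move (Move.slideBirth₁ i b) hF h hr :)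
  | slDd i => exact (run_of_move (Move.slideDeath₁ i) hF h hr :)
  | fB i b => exact run_of_move (Move.firstBirthPos i b) hF h hr
  | fD i => exact run_of_move (Move.firstDeathPos i) hF h hr
  | sec i => exact (run_of_move (Move.second₁ i) hF h hr :)
  | thd i => exact run_of_move (Move.third i) hF h hr
  | fth i => exact (run_of_move (Move.third i) hF
      (show Knot.Fits [.pos i, .pos (i + 1), .pos i] F from hr) h :).imp Eq.symm Eq.symm
  | fif i => exact ⟨rfl, rfl⟩

/-! ### The equivalence relation -/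

/-- One move in a word. -/
inductive Step1 (F : Front) : FWord → FWord → Prop
  | mk (a l r b : FWord) (m : FMove l r) (h : ok (a ++ l ++ b) F) :
      Step1 F (a ++ l ++ b) (a ++ r ++ b)

/-- Words below the strands `F` related by moves. -/
def LE (F : Front) : FWord → FWord → Prop := Relation.EqvGen (Step1 F)

theorem LE.refl (F : Front) (w : FWord) : LE F w w := Relation.EqvGen.refl w
theorem LE.symm {F : Front} {v w : FWord} (h : LE F v w) : LE F w v :=
  Relation.EqvGen.symm _ _ h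
theorem LE.trans {F : Front} {u v w : FWord} (h : LE F u v) (h' : LE F v w) : LE F u w :=
  Relation.EqvGen.trans _ _ _ h h'

theorem step1_spec {F : Front} (hF : GF F) {v w : FWord} (h : Step1 F v w) :
    ok v F ∧ ok w F ∧ fr v F = fr w F ∧ fc v F = fc w F := by
  obtain ⟨a, l, r, b, m, h⟩ := h
  have h0 := h
  rw [ok_append, ok_append] at h
  obtain ⟨⟨h1, h2⟩, h3⟩ := h
  obtain ⟨e1, e2⟩ := m.fr_eq (hF.fr h1) h2
  refine ⟨h0, ?_, ?_, ?_⟩
  · rw [ok_append, ok_append]
    refine ⟨⟨h1, m.ok_right h2⟩, ?_⟩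
    rw [fr_append] at h3 ⊢
    rw [← e1]
    exact h3
  · simp only [fr_append, e1]
  · simp only [fc_append, fr_append, e1, e2]

theorem LE.spec {F : Front} (hF : GF F) {v w : FWord} (h : LE F v w) :
    (ok v F ↔ ok w F) ∧ fr v F = fr w F ∧ fc v F = fc w F := by
  induction h with
  | rel v w h =>
    obtain ⟨h1, h2, h3, h4⟩ := step1_spec hF h
    exact ⟨⟨fun _ => h2, fun _ => h1⟩, h3, h4⟩
  | refl v => exact ⟨Iff.rfl, rfl, rfl⟩
  | symm v w _ ih => exact ⟨ih.1.symm, ih.2.1.symm, ih.2.2.symm⟩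
  | trans u v w _ _ ih1 ih2 =>
    exact ⟨ih1.1.trans ih2.1, ih1.2.1.trans ih2.2.1, ih1.2.2.trans ih2.2.2⟩

theorem LE.ok {F : Front} (hF : GF F) {v w : FWord} (h : LE F v w) (hv : ok v F) : ok w F :=
  (h.spec hF).1.1 hv
theorem LE.fr {F : Front} (hF : GF F) {v w : FWord} (h : LE F v w) : fr v F = fr w F :=
  (h.spec hF).2.1

/-- Continuing below. -/
theorem LE.app {F : Front} (hF : GF F) {v w : FWord} (h : LE F v w) {b : FWord}
    (hb : Flat.ok (v ++ b) F) : LE F (v ++ b) (w ++ b) := by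
  have key : ∀ {v w : FWord}, LE F v w → (Flat.ok (v ++ b) F → LE F (v ++ b) (w ++ b)) ∧
      (Flat.ok (w ++ b) F → LE F (v ++ b) (w ++ b)) := by
    intro v w h
    induction h with
    | rel v w h =>
      have h2 := step1_spec hF h
      have key2 : Flat.ok (v ++ b) F → LE F (v ++ b) (w ++ b) := by
        intro hb
        obtain ⟨a, l, r, b', m, h⟩ := h
        have := Relation.EqvGen.rel _ _ (Step1.mk a l r (b' ++ b) m
          (by simpa using hb))
        simpa [LE] using this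
      refine ⟨key2, fun hb => key2 ?_⟩
      rw [ok_append] at hb ⊢
      rw [h2.2.2.1]
      exact ⟨h2.1, hb.2⟩
    | refl v => exact ⟨fun _ => LE.refl _ _, fun _ => LE.refl _ _⟩
    | symm v w _ ih => exact ⟨fun h => (ih.2 h).symm, fun h => (ih.1 h).symm⟩
    | trans u v w h1 h2 ih1 ih2 =>
      have e1 := LE.spec hF h1
      have e2 := LE.spec hF h2
      constructor
      · intro h
        refine (ih1.1 h).trans (ih2.1 ?_)
        rw [ok_append] at h ⊢
        rw [← e1.2.1]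
        exact ⟨e1.1.1 h.1, h.2⟩
      · intro h
        refine LE.trans (ih1.2 ?_) (ih2.2 h)
        rw [ok_append] at h ⊢
        rw [e2.2.1]
        exact ⟨e2.1.2 h.1, h.2⟩
  exact (key h).1 hb

/-- Adding something above. -/
theorem LE.pre {F : Front} {a v w : FWord} (ha : Flat.ok a F) (h : LE (Flat.fr a F) v w) :
    LE F (a ++ v) (a ++ w) := by
  induction h with
  | rel v w h =>
    obtain ⟨a', l, r, b, m, h⟩ := h
    have := Relation.EqvGen.rel _ _ (Step1.mk (a ++ a') l r b m (F := F)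
      (by
        rw [List.append_assoc, List.append_assoc, ok_append]
        exact ⟨ha, by rwa [List.append_assoc] at h⟩))
    simpa [LE] using this
  | refl v => exact LE.refl _ _
  | symm v w _ ih => exact ih.symm
  | trans u v w _ _ ih1 ih2 => exact ih1.trans ih2

theorem LE.cons {F : Front} {p : FP} {v w : FWord} (hp : p.pc.Fits F)
    (h : LE (p.pc.act F) v w) : LE F (p :: v) (p :: w) :=
  LE.pre (a := [p]) ⟨hp, trivial⟩ h

/-- A move at the beginning. -/
theorem FMove.le {l r : FWord} (m : FMove l r) {F : Front} (h : ok l F) : LE F l r := by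
  have := Relation.EqvGen.rel _ _ (Step1.mk [] l r [] m (F := F) (by simpa using h))
  simpa [LE] using this

theorem FMove.ge {l r : FWord} (m : FMove l r) (hb : r ≠ []) {F : Front} (h : ok r F) :
    LE F r l := (m.le (ok_slide m hb h)).symm

/-- Replacing a part of a word. -/
theorem LE.mid {F : Front} (hF : GF F) {a l r b : FWord} (h : Flat.ok (a ++ l ++ b) F)
    (e : LE (Flat.fr a F) l r) : LE F (a ++ l ++ b) (a ++ r ++ b) := by
  have h' := h
  rw [ok_append, ok_append] at h'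
  exact (LE.pre h'.1.1 e).app hF h

end Pool.Agent.H835R2.Flat
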