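import Pool.Agent.H835R2.Flat.Coh

/-! # Moving double points to the right -/

set_option autoImplicit false
set_option linter.unusedSimpArgs false
set_option linter.unusedVariables false

namespace Pool.Agent.H835R2.Flat

open Pool.Agent.H835R2.Knot
open Pool.Agent.H835R2.Flat.FP

/-- One move inside a word. -/
theorem st {F : Front} (hF : GF F) {u : FWord} (a l r b : FWord) (m : FMove l r) (h : ok u F)
    (e : u = a ++ l ++ b) : LE F u (a ++ r ++ b) ∧ ok (a ++ r ++ b) F := by
  subst e
  have h1 := LE.mid hF h (m.le ((ok_append _ _ _).1 ((ok_append _ _ _).1 h).1).2)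
  exact ⟨h1, h1.ok hF h⟩

/-- One move inside a word, from right to left. -/
theorem ts {F : Front} (hF : GF F) {u : FWord} (a l r b : FWord) (m : FMove l r) (hr : r ≠ [])
    (h : ok u F) (e : u = a ++ r ++ b) : LE F u (a ++ l ++ b) ∧ ok (a ++ l ++ b) F := by
  subst e
  have h1 := LE.mid hF h (m.ge hr ((ok_append _ _ _).1 ((ok_append _ _ _).1 h).1).2)
  exact ⟨h1, h1.ok hF h⟩

/-- A pair of crossings inside a word. -/
theorem cc {F : Front} (hF : GF F) {u : FWord} (a : FWord) (i : ℕ) (b : FWord)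
    (hi : i + 2 ≤ (fr a F).n) (h : ok u F) (e : u = a ++ b) :
    LE F u (a ++ [X i, X i] ++ b) ∧ ok (a ++ [X i, X i] ++ b) F := by
  subst e
  have h' : ok (a ++ [] ++ b) F := by simpa using h
  have h1 := LE.mid hF h' (sec_le hi)
  rw [List.append_nil] at h1
  exact ⟨h1, h1.ok hF h⟩

theorem box_aux1 (p q : FP) : (X 0).past q = q := past_X 0 q

/-- A double point whose outgoing strands are joined with the two strands on its right. -/
def box (j : ℕ) : FWord := [dbl j, death (j + 1), death j]

/-- The strand at `j + 4` moves to the position `j`. -/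
def P (j : ℕ) : FWord := [X (j + 3), X (j + 2), X (j + 1), X j]

theorem past_death_birth (j : ℕ) (b : Bool) : (death j).past (birth (j + 2) b) = birth j b := rfl

theorem box_n {j : ℕ} {F : Front} (h : ok (box j) F) : j + 4 ≤ F.n := by
  have h1 : j + 2 ≤ (Piece.act (.death (j + 1)) (Piece.act (.pos j) F)).n := h.2.2.1.1
  have h2 : (Piece.act (.death (j + 1)) (Piece.act (.pos j) F)).n = F.n - 2 := rfl
  have h3 : j + 1 + 2 ≤ F.n := h.2.1.1
  omega

/-- A strand passes a box. -/
theorem pass {F : Front} (hF : GF F) {j : ℕ} (h : ok (box j) F) (hn : j + 5 ≤ F.n) :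
    LE F (box j) (P j ++ box (j + 1)) ∧ ok (P j ++ box (j + 1)) F := by
  have n1 : (fr [dbl j, death (j + 1)] F).n = F.n - 2 := rfl
  obtain ⟨e1, o1⟩ := cc hF [dbl j, death (j + 1)] (j + 1) [death j] (by omega) h rfl
  obtain ⟨e2, o2⟩ := st hF [dbl j, death (j + 1), X (j + 1)] _ _ [] (FMove.slD j) o1 rfl
  obtain ⟨e3, o3⟩ := st hF [dbl j] [death (j + 1), X (j + 1)] [X (j + 3), death (j + 1)]
    [X j, death (j + 1)] (FMove.exch (death (j + 1)) (X (j + 3)) (by show j + 1 + 2 ≤ j + 3; omega))
    o2 rfl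
  obtain ⟨e4, o4⟩ := cc hF [dbl j, X (j + 3)] (j + 2) [death (j + 1), X j, death (j + 1)]
    (by have : (fr [dbl j, X (j + 3)] F).n = F.n := rfl
        omega) o3 rfl
  obtain ⟨e5, o5⟩ := st hF [dbl j, X (j + 3), X (j + 2)] _ _ [X j, death (j + 1)]
    (FMove.slD (j + 1)) o4 rfl
  obtain ⟨e6, o6⟩ := ts hF [dbl j, X (j + 3), X (j + 2), X (j + 1)] [X j, death (j + 2)]
    [death (j + 2), X j] [death (j + 1)] (FMove.exch (X j) (death (j + 2)) (le_refl _)) (by simp)
    o5 rfl
  obtain ⟨e7, o7⟩ := st hF [] [dbl j, X (j + 3)] [X (j + 3), dbl j]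
    [X (j + 2), X (j + 1), X j, death (j + 2), death (j + 1)]
    (FMove.exch (dbl j) (X (j + 3)) (by show j + 2 ≤ j + 3; omega)) o6 rfl
  obtain ⟨e8, o8⟩ := st hF [X (j + 3)] [dbl j, X (j + 2)] [X (j + 2), dbl j]
    [X (j + 1), X j, death (j + 2), death (j + 1)]
    (FMove.exch (dbl j) (X (j + 2)) (le_refl _)) o7 rfl
  obtain ⟨e9, o9⟩ := ts hF [X (j + 3), X (j + 2)] _ _ [death (j + 2), death (j + 1)]
    (FMove.fth j) (by simp) o8 rfl
  exact ⟨((((e1.trans e2).trans e3).trans e4).trans e5).trans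
    (((e6.trans e7).trans e8).trans e9), o9⟩

/-- Swapping the strands of a box. -/
theorem box_swap {F : Front} (hF : GF F) {j : ℕ} (h : ok (box j) F) :
    LE F (box j) ([X j, X (j + 2)] ++ box j) ∧ ok ([X j, X (j + 2)] ++ box j) F := by
  have hn := box_n h
  obtain ⟨e1, o1⟩ := cc hF [dbl j] (j + 2) [death (j + 1), death j]
    (by have : (fr [dbl j] F).n = F.n := rfl
        omega) h rfl
  obtain ⟨e2, o2⟩ := st hF [dbl j, X (j + 2)] _ _ [death j] (FMove.slD (j + 1)) o1 rfl
  obtain ⟨e3, o3⟩ := ts hF [dbl j, X (j + 2), X (j + 1)] [death j, death j]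
    [death (j + 2), death j] [] (FMove.exch (death j) (death (j + 2)) (le_refl _)) (by simp)
    o2 rfl
  obtain ⟨e4, o4⟩ := st hF [dbl j, X (j + 2)] _ _ [death j] (FMove.slD j) o3 rfl
  obtain ⟨e5, o5⟩ := ts hF [dbl j] [X j, X (j + 2)] [X (j + 2), X j] [death (j + 1), death j]
    (FMove.exch (X j) (X (j + 2)) (le_refl _)) (by simp) o4 rfl
  obtain ⟨e6, o6⟩ := st hF [] _ _ [X (j + 2), death (j + 1), death j] (FMove.fif j) o5 rfl
  obtain ⟨e7, o7⟩ := st hF [X j] [dbl j, X (j + 2)] [X (j + 2), dbl j] [death (j + 1), death j]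
    (FMove.exch (dbl j) (X (j + 2)) (le_refl _)) o6 rfl
  exact ⟨((((e1.trans e2).trans e3).trans e4).trans e5).trans (e6.trans e7), o7⟩

/-- Turning a box. -/
theorem box_rot {F : Front} (hF : GF F) {j : ℕ} (h : ok (box j) F) :
    LE F (box j) ([X (j + 2), X (j + 1), X j] ++ box j) ∧
      ok ([X (j + 2), X (j + 1), X j] ++ box j) F := by
  have hn := box_n h
  obtain ⟨e1, o1⟩ := cc hF [dbl j] (j + 2) [death (j + 1), death j]
    (by have : (fr [dbl j] F).n = F.n := rfl
        omega) h rfl
  obtain ⟨e2, o2⟩ := st hF [dbl j, X (j + 2)] _ _ [death j] (FMove.slD (j + 1)) o1 rfl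
  obtain ⟨e3, o3⟩ := ts hF [dbl j, X (j + 2), X (j + 1)] [death j, death j]
    [death (j + 2), death j] [] (FMove.exch (death j) (death (j + 2)) (le_refl _)) (by simp)
    o2 rfl
  obtain ⟨e4, o4⟩ := ts hF [dbl j, X (j + 2), X (j + 1)] _ _ [death j] (FMove.fD j) (by simp)
    o3 rfl
  obtain ⟨e5, o5⟩ := st hF [] [dbl j, X (j + 2)] [X (j + 2), dbl j]
    [X (j + 1), X j, death j, death j] (FMove.exch (dbl j) (X (j + 2)) (le_refl _)) o4 rfl
  obtain ⟨e6, o6⟩ := ts hF [X (j + 2)] _ _ [death j, death j] (FMove.fth j) (by simp) o5 rfl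
  obtain ⟨e7, o7⟩ := st hF [X (j + 2), X (j + 1), X j] _ _ [death j] (FMove.slDd j) o6 rfl
  exact ⟨((((e1.trans e2).trans e3).trans e4).trans e5).trans (e6.trans e7), o7⟩

theorem zig₂_le {F : Front} {i : ℕ} (h : i + 1 ≤ F.n) {b : Bool} (hb : b = !F.dir i) :
    ok [birth (i + 1) b, death i] F := by
  refine ⟨h, ⟨?_, ?_⟩, trivial⟩
  · show i + 2 ≤ F.n + 2; omega
  · have e1 : ((birth (i + 1) b).pc.act F).dir (i + 1) = b := by
      simp [pc, Piece.act]
    have e2 : ((birth (i + 1) b).pc.act F).dir i = F.dir i := by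
      simp only [pc, Piece.act]
      rw [if_pos (by omega)]
    rw [e1, e2, hb]

/-- A zigzag inside a word. -/
theorem zz {F : Front} (hF : GF F) {u : FWord} (a : FWord) (i : ℕ) (c : Bool) (b : FWord)
    (hi : i + 1 ≤ (fr a F).n) (hc : c = !(fr a F).dir i) (h : ok u F) (e : u = a ++ b) :
    LE F u (a ++ [birth (i + 1) c, death i] ++ b) ∧
      ok (a ++ [birth (i + 1) c, death i] ++ b) F := by
  subst e
  have h' : ok (a ++ [] ++ b) F := by simpa using h
  have h1 := LE.mid hF h' ((FMove.zig₂ i c).le (zig₂_le hi hc)).symm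
  rw [List.append_nil] at h1
  exact ⟨h1, h1.ok hF h⟩

/-- A double point becomes a box. -/
theorem dbl_box {F : Front} (hF : GF F) {i : ℕ} (h : ok [dbl i] F) :
    LE F [dbl i] ([birth (i + 2) (!F.dir i), birth (i + 3) (!F.dir (i + 1))] ++ box i) ∧
      ok ([birth (i + 2) (!F.dir i), birth (i + 3) (!F.dir (i + 1))] ++ box i) F := by
  have hi : i + 2 ≤ F.n := h.1
  set b := !F.dir i with hb
  set b' := !F.dir (i + 1) with hb'
  obtain ⟨e1, o1⟩ := zz hF [dbl i] i b' []
    (by have : (fr [dbl i] F).n = F.n := rfl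
        omega)
    (by
      have : (fr [dbl i] F).dir i = F.dir (sw i i) := rfl
      rw [this, sw_left]) h rfl
  obtain ⟨e2, o2⟩ := zz hF [dbl i] (i + 1) b [birth (i + 1) b', death i]
    (by have : (fr [dbl i] F).n = F.n := rfl
        omega)
    (by
      have : (fr [dbl i] F).dir (i + 1) = F.dir (sw i (i + 1)) := rfl
      rw [this, sw_right]) o1 rfl
  obtain ⟨e3, o3⟩ := st hF [dbl i, birth (i + 2) b] [death (i + 1), birth (i + 1) b']
    [birth (i + 3) b', death (i + 1)] [death i]
    (FMove.exch (death (i + 1)) (birth (i + 3) b') (le_refl _)) o2 rfl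
  obtain ⟨e4, o4⟩ := st hF [] [dbl i, birth (i + 2) b] [birth (i + 2) b, dbl i]
    [birth (i + 3) b', death (i + 1), death i]
    (FMove.exch (dbl i) (birth (i + 2) b) (le_refl _)) o3 rfl
  obtain ⟨e5, o5⟩ := st hF [birth (i + 2) b] [dbl i, birth (i + 3) b'] [birth (i + 3) b', dbl i]
    [death (i + 1), death i]
    (FMove.exch (dbl i) (birth (i + 3) b') (by show i + 2 ≤ i + 3; omega)) o4 rfl
  exact ⟨(e1.trans e2).trans ((e3.trans e4).trans e5), o5⟩

/-! ### Moving a box to the right -/

/-- `c` strands pass the four strands `i, ..., i + 3`. -/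
def PP : ℕ → ℕ → FWord
  | _, 0 => []
  | i, c + 1 => P i ++ PP (i + 1) c

theorem isX_P (j : ℕ) : IsX (P j) := by
  intro p hp
  simp only [P, List.mem_cons, List.not_mem_nil, or_false] at hp
  rcases hp with rfl | rfl | rfl | rfl <;> exact ⟨_, rfl⟩

theorem isX_PP (i c : ℕ) : IsX (PP i c) := by
  induction c generalizing i with
  | zero => intro p hp; simp [PP] at hp
  | succ c ih => exact (isX_P i).append (ih (i + 1))

theorem box_PP {F : Front} (hF : GF F) {i c : ℕ} (h : ok (box i) F) (hn : i + c + 4 ≤ F.n) :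
    LE F (box i) (PP i c ++ box (i + c)) ∧ ok (PP i c ++ box (i + c)) F := by
  induction c generalizing F i with
  | zero => exact ⟨LE.refl _ _, h⟩
  | succ c ih =>
    obtain ⟨e1, o1⟩ := pass hF h (by omega)
    have o1' := (ok_append _ _ _).1 o1
    have hn' : (fr (P i) F).n = F.n := (isX_P i).fr_n F
    obtain ⟨e2, o2⟩ := ih (hF.fr o1'.1) (i := i + 1) o1'.2 (by omega)
    have e3 := LE.pre o1'.1 e2
    have e4 : P i ++ (PP (i + 1) c ++ box (i + 1 + c)) = PP i (c + 1) ++ box (i + (c + 1)) := by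
      show _ = P i ++ PP (i + 1) c ++ box (i + (c + 1))
      rw [List.append_assoc, show i + 1 + c = i + (c + 1) by omega]
    rw [e4] at e3
    exact ⟨e1.trans e3, e3.ok hF o1⟩

/-! ### Words with boxes -/

/-- `k` boxes on the strands from `n` on. -/
def Bx (n : ℕ) : ℕ → FWord
  | 0 => []
  | k + 1 => box (n + 4 * k) ++ Bx n k

/-- The flat part for a double point at `i`, if there are `m` strands. -/
def dd (F : Front) (i m : ℕ) : FWord :=
  [birth (i + 2) (!F.dir i), birth (i + 3) (!F.dir (i + 1))] ++ PP i (m - i)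

theorem dbl_dd {F : Front} (hF : GF F) {i : ℕ} (h : ok [dbl i] F) :
    LE F [dbl i] (dd F i F.n ++ box F.n) ∧ ok (dd F i F.n ++ box F.n) F := by
  have hi : i + 2 ≤ F.n := h.1
  obtain ⟨e1, o1⟩ := dbl_box hF h
  have o1' := (ok_append _ _ _).1 o1
  have hn : (fr [birth (i + 2) (!F.dir i), birth (i + 3) (!F.dir (i + 1))] F).n = F.n + 2 + 2 :=
    rfl
  obtain ⟨e2, o2⟩ := box_PP (hF.fr o1'.1) (c := F.n - i) o1'.2 (by omega)
  have e3 := LE.pre o1'.1 e2
  have e4 : i + (F.n - i) = F.n := by omega
  rw [e4, ← List.append_assoc] at e3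
  exact ⟨e1.trans e3, e3.ok hF o1⟩

theorem mem_Bx {n k : ℕ} {q : FP} (h : q ∈ Bx n k) : n ≤ q.index := by
  induction k with
  | zero => simp [Bx] at h
  | succ k ih =>
    rcases List.mem_append.1 h with h | h
    · simp only [box, List.mem_cons, List.not_mem_nil, or_false] at h
      rcases h with rfl | rfl | rfl
      · show n ≤ n + 4 * k; omega
      · show n ≤ n + 4 * k + 1; omega
      · show n ≤ n + 4 * k; omega
    · exact ih h

theorem box_past {p : FP} {j : ℕ} (hj : p.index + p.ins ≤ j) :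
    (box j).map p.past = box (j + p.outs - p.ins) := by
  have h1 : p.ins ≤ j := by omega
  show [dbl (j + p.outs - p.ins), death (j + 1 + p.outs - p.ins), death (j + p.outs - p.ins)] =
    [dbl (j + p.outs - p.ins), death (j + p.outs - p.ins + 1), death (j + p.outs - p.ins)]
  rw [show j + 1 + p.outs - p.ins = j + p.outs - p.ins + 1 by omega]

theorem Bx_past {p : FP} {n : ℕ} (hn : p.index + p.ins ≤ n) (k : ℕ) :
    (Bx n k).map p.past = Bx (n + p.outs - p.ins) k := by
  induction k with
  | zero => rfl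
  | succ k ih =>
    show (box (n + 4 * k) ++ Bx n k).map p.past = _
    rw [List.map_append, ih, box_past (by omega)]
    show _ = box (n + p.outs - p.ins + 4 * k) ++ Bx (n + p.outs - p.ins) k
    rw [show n + 4 * k + p.outs - p.ins = n + p.outs - p.ins + 4 * k by omega]

theorem Bx_comm {F : Front} (hF : GF F) {p : FP} {n k : ℕ} (hn : p.index + p.ins ≤ n)
    (h : ok (Bx n k ++ [p]) F) : LE F (Bx n k ++ [p]) (p :: Bx (n + p.outs - p.ins) k) := by
  have := comm_left hF (p := p) (Y := Bx n k) (fun q hq => hn.trans (mem_Bx hq)) h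
  rwa [Bx_past hn] at this

/-- One step of the normalisation. -/
def nstep (x : FWord × ℕ) (F : Front) : FP → FWord × ℕ
  | dbl i => (x.1 ++ dd F i (F.n + 4 * x.2), x.2 + 1)
  | p => (x.1 ++ [p], x.2)

/-- The flat part of a word; `x` is what has been computed for the part above the strands `F`. -/
def nfs (x : FWord × ℕ) (F : Front) : FWord → FWord × ℕ
  | [] => x
  | p :: w => nfs (nstep x F p) (p.pc.act F) w

theorem fr_Bx {n k : ℕ} {F : Front} (hn : F.n = n + 4 * k) (h : ok (Bx n k) F) :
    (fr (Bx n k) F).n = n ∧ (∀ p < n, (fr (Bx n k) F).dir p = F.dir p) := by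
  induction k generalizing F with
  | zero =>
    refine ⟨?_, fun _ _ => rfl⟩
    show F.n = n
    omega
  | succ k ih =>
    have h' := (ok_append _ _ _).1 h
    have h1 := box_n h'.1
    have n1 : (fr (box (n + 4 * k)) F).n = F.n - 2 - 2 := rfl
    obtain ⟨a1, a2⟩ := ih (F := fr (box (n + 4 * k)) F) (by omega) h'.2
    refine ⟨?_, fun p hp => ?_⟩
    · show (fr (box (n + 4 * k) ++ Bx n k) F).n = n
      rw [fr_append, a1]
    · show (fr (box (n + 4 * k) ++ Bx n k) F).dir p = F.dir p
      rw [fr_append, a2 p hp]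
      show F.dir (sw (n + 4 * k) (up (n + 4 * k + 1) (up (n + 4 * k) p))) = F.dir p
      rw [up_lt (show p < n + 4 * k by omega), up_lt (show p < n + 4 * k + 1 by omega),
        sw_of_ne (by omega) (by omega)]

theorem dd_congr {F G : Front} {i : ℕ} (h1 : F.dir i = G.dir i)
    (h2 : F.dir (i + 1) = G.dir (i + 1)) (m : ℕ) : dd F i m = dd G i m := by
  unfold dd
  rw [h1, h2]

theorem nfs_spec (w : FWord) : ∀ (v u : FWord) (k : ℕ), ok (v ++ w) Front.empty →
    LE Front.empty v (u ++ Bx (fr v Front.empty).n k) → (∀ i, dbl i ∉ u) →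
    (fr u Front.empty).n = (fr v Front.empty).n + 4 * k →
    LE Front.empty (v ++ w) ((nfs (u, k) (fr v Front.empty) w).1 ++
      Bx (fr (v ++ w) Front.empty).n (nfs (u, k) (fr v Front.empty) w).2) ∧
    (∀ i, dbl i ∉ (nfs (u, k) (fr v Front.empty) w).1) ∧
    (fr (nfs (u, k) (fr v Front.empty) w).1 Front.empty).n =
      (fr (v ++ w) Front.empty).n + 4 * (nfs (u, k) (fr v Front.empty) w).2 := by
  induction w with
  | nil =>
    intro v u k hok he hd hn
    simp only [List.append_nil, nfs]
    exact ⟨he, hd, hn⟩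
  | cons p w ih =>
    intro v u k hok he hd hn
    have e0 : v ++ p :: w = v ++ [p] ++ w := by simp
    rw [e0] at hok ⊢
    have o1 := ((ok_append _ _ _).1 hok).1
    have ov := (ok_append _ _ _).1 o1
    set F := fr v Front.empty with hFd
    have hF : GF F := gf_empty.fr ov.1
    have hv' : fr (v ++ [p]) Front.empty = p.pc.act F := by rw [fr_append]; rfl
    -- the letter
    have e1 := he.app gf_empty o1
    have o2 := e1.ok gf_empty o1
    rw [List.append_assoc] at o2
    have o2' := (ok_append _ _ _).1 o2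
    have hG : GF (fr u Front.empty) := gf_empty.fr o2'.1
    have hbx : ok (Bx F.n k) (fr u Front.empty) := ((ok_append _ _ _).1 o2'.2).1
    obtain ⟨b1, b2⟩ := fr_Bx hn hbx
    have hsame : fr (Bx F.n k) (fr u Front.empty) = F := by
      have := he.fr gf_empty
      rw [fr_append] at this
      exact this.symm
    have hpn : p.index + p.ins ≤ F.n := by
      have : p.pc.Fits F := ov.2.1
      cases p with
      | birth i b => exact this
      | death i => exact this.1
      | X i => exact this
      | dbl i => exact this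
    have e2 := Bx_comm hG hpn o2'.2
    have e3 := LE.pre o2'.1 e2
    rw [List.append_assoc] at e1
    have e4 := e1.trans e3
    have o4 := e4.ok gf_empty o1
    have hpo : (p.pc.act F).n = F.n + p.outs - p.ins := by
      cases p <;> rfl
    have key : ∀ u' k', nstep (u, k) F p = (u', k') →
        LE Front.empty (v ++ [p]) (u' ++ Bx (p.pc.act F).n k') → (∀ i, dbl i ∉ u') →
        (fr u' Front.empty).n = (p.pc.act F).n + 4 * k' →
        LE Front.empty (v ++ [p] ++ w) ((nfs (u, k) F (p :: w)).1 ++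
          Bx (fr (v ++ [p] ++ w) Front.empty).n (nfs (u, k) F (p :: w)).2) ∧
        (∀ i, dbl i ∉ (nfs (u, k) F (p :: w)).1) ∧
        (fr (nfs (u, k) F (p :: w)).1 Front.empty).n =
          (fr (v ++ [p] ++ w) Front.empty).n + 4 * (nfs (u, k) F (p :: w)).2 := by
      intro u' k' h1 h2 h3 h4
      have := ih (v ++ [p]) u' k' hok (by rw [hv']; exact h2) h3 (by rw [hv']; exact h4)
      rw [hv'] at this
      show LE Front.empty (v ++ [p] ++ w) ((nfs (nstep (u, k) F p) (p.pc.act F) w).1 ++ _) ∧ _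
      simp only [nfs]
      rw [h1]
      exact this
    by_cases hp : ∃ i, p = dbl i
    · obtain ⟨i, rfl⟩ := hp
      refine key (u ++ dd F i (F.n + 4 * k)) (k + 1) rfl ?_ ?_ ?_
      · -- the double point becomes a box
        have e5 : (dbl i :: Bx (F.n + (dbl i).outs - (dbl i).ins) k) = [dbl i] ++ Bx F.n k := rfl
        rw [e5] at e4 o4
        rw [← List.append_assoc] at o4 e4
        have o5 := (ok_append _ _ _).1 o4
        have o6 := (ok_append _ _ _).1 o5.1
        obtain ⟨e6, o7⟩ := dbl_dd hG o6.2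
        have e7 := (LE.pre o6.1 e6).app gf_empty o4
        have hdir : dd (fr u Front.empty) i (fr u Front.empty).n = dd F i (F.n + 4 * k) := by
          rw [hn]
          have k1 : i + 2 ≤ F.n := hpn
          refine dd_congr ?_ ?_ _
          · rw [← b2 i (by omega), hsame]
          · rw [← b2 (i + 1) (by omega), hsame]
        rw [hdir, hn] at e7
        have e8 : u ++ (dd F i (F.n + 4 * k) ++ box (F.n + 4 * k)) ++ Bx F.n k =
            u ++ dd F i (F.n + 4 * k) ++ Bx ((dbl i).pc.act F).n (k + 1) := by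
          show _ = u ++ dd F i (F.n + 4 * k) ++ (box (F.n + 4 * k) ++ Bx F.n k)
          simp
        rw [e8] at e7
        exact e4.trans e7
      · intro i' hi'
        rcases List.mem_append.1 hi' with h | h
        · exact hd i' h
        · unfold dd at h
          rcases List.mem_append.1 h with h | h
          · simp at h
          · obtain ⟨j, hj⟩ := isX_PP _ _ _ h
            simp at hj
      · rw [fr_append]
        unfold dd
        rw [fr_append, (isX_PP _ _).fr_n]
        show (fr u Front.empty).n + 2 + 2 = F.n + 4 * (k + 1)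
        omega
    · have hs : nstep (u, k) F p = (u ++ [p], k) := by
        cases p with
        | dbl i => exact absurd ⟨i, rfl⟩ hp
        | _ => rfl
      refine key (u ++ [p]) k hs ?_ ?_ ?_
      · rw [hpo]
        rw [List.append_assoc]
        exact e4
      · intro i hi
        rcases List.mem_append.1 hi with h | h
        · exact hd i h
        · exact hp ⟨i, (List.mem_singleton.1 h).symm⟩
      · rw [fr_append]
        have : (fr [p] (fr u Front.empty)).n = (fr u Front.empty).n + p.outs - p.ins := by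
          cases p <;> rfl
        rw [this, hpo, hn]
        have : p.ins ≤ F.n := by omega
        omega

/-- The flat part of a word. -/
def nf (w : FWord) : FWord × ℕ := nfs ([], 0) Front.empty w

/-- Every word is a flat word without double points followed by boxes. -/
theorem nf_spec (w : FWord) (h : ok w Front.empty) :
    LE Front.empty w ((nf w).1 ++ Bx (fr w Front.empty).n (nf w).2) ∧
    (∀ i, dbl i ∉ (nf w).1) ∧
    (fr (nf w).1 Front.empty).n = (fr w Front.empty).n + 4 * (nf w).2 :=
  nfs_spec w [] [] 0 h (LE.refl _ _) (fun i hi => by simp at hi) rfl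

end Pool.Agent.H835R2.Flat
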