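import Pool.Agent.H835R2.Flat.Base

/-! # Normal forms of flat words without double points -/

set_option autoImplicit false
set_option linter.unusedSimpArgs false
set_option linter.unusedVariables false

namespace Pool.Agent.H835R2.Flat

open Pool.Agent.H835R2.Knot
open Pool.Agent.H835R2.Flat.FP

theorem moved_index (q : FP) : q.moved q.index = q := by cases q <;> rfl

theorem past_X (i : ℕ) (q : FP) : (X i).past q = q := by
  show q.moved (q.index + 2 - 2) = q
  rw [Nat.add_sub_cancel, moved_index]

theorem map_past_X (i : ℕ) (Y : FWord) : Y.map (X i).past = Y := by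
  have : (X i).past = id := funext (past_X i)
  rw [this, List.map_id]

/-- A letter moves to the left, past letters on its right. -/
theorem comm_left {F : Front} (hF : GF F) {p : FP} {Y : FWord}
    (hY : ∀ q ∈ Y, p.index + p.ins ≤ q.index) (h : ok (Y ++ [p]) F) :
    LE F (Y ++ [p]) (p :: Y.map p.past) := by
  induction Y generalizing F with
  | nil => exact LE.refl _ _
  | cons q Y ih =>
    have h1 := ih (hF.act h.1) (fun q' hq' => hY q' (List.mem_cons_of_mem _ hq')) h.2
    have h2 : LE F (q :: (Y ++ [p])) (q :: p :: Y.map p.past) := LE.cons h.1 h1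
    refine h2.trans ?_
    have h3 := h2.ok hF h
    have h4 : ok [q, p] F := ⟨h3.1, h3.2.1, trivial⟩
    have h5 := (FMove.exch p q (hY q List.mem_cons_self)).ge (by simp) h4
    exact LE.app hF h5 (b := Y.map p.past) h3

theorem comm_left' {F : Front} (hF : GF F) {p : FP} {Y : FWord}
    (hY : ∀ q ∈ Y, p.index + p.ins ≤ q.index) (h : ok (p :: Y.map p.past) F) :
    LE F (p :: Y.map p.past) (Y ++ [p]) := by
  induction Y generalizing F with
  | nil => exact LE.refl _ _
  | cons q Y ih =>
    have h4 : ok [p, p.past q] F := ⟨h.1, h.2.1, trivial⟩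
    have h5 := (FMove.exch p q (hY q List.mem_cons_self)).le h4
    have h6 := LE.app hF h5 (b := Y.map p.past) h
    have h7 := h6.ok hF h
    refine h6.trans ?_
    exact LE.cons h7.1 (ih (hF.act h7.1) (fun q' hq' => hY q' (List.mem_cons_of_mem _ hq')) h7.2)

/-! ### Ladders -/

/-- `X a, X (a+1), ..., X (a+n-1)`. -/
def L : ℕ → ℕ → FWord
  | _, 0 => []
  | a, n + 1 => X a :: L (a + 1) n

theorem L_zero (a : ℕ) : L a 0 = [] := rfl
theorem L_cons (a n : ℕ) : L a (n + 1) = X a :: L (a + 1) n := rfl

theorem L_succ (a n : ℕ) : L a (n + 1) = L a n ++ [X (a + n)] := by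
  induction n generalizing a with
  | zero => rfl
  | succ n ih =>
    rw [L_cons, ih (a + 1), L_cons, List.cons_append]
    congr 3
    congr 1
    omega

theorem mem_L {a n : ℕ} {q : FP} (h : q ∈ L a n) : ∃ j, a ≤ j ∧ j < a + n ∧ q = X j := by
  induction n generalizing a with
  | zero => simp [L] at h
  | succ n ih =>
    rw [L_cons, List.mem_cons] at h
    rcases h with rfl | h
    · exact ⟨a, le_rfl, by omega, rfl⟩
    · obtain ⟨j, h1, h2, h3⟩ := ih h
      exact ⟨j, by omega, by omega, h3⟩

theorem X_act_n (i : ℕ) (F : Front) : ((X i).pc.act F).n = F.n := rfl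

theorem fr_L_n (a n : ℕ) (F : Front) : (fr (L a n) F).n = F.n := by
  induction n generalizing a F with
  | zero => rfl
  | succ n ih => rw [L_cons, fr_cons, ih]; rfl

theorem ok_L {a n : ℕ} {F : Front} (h : a + n + 1 ≤ F.n) : ok (L a n) F := by
  induction n generalizing a F with
  | zero => exact ok_nil F
  | succ n ih => exact ⟨by show a + 2 ≤ F.n; omega, ih (by rw [X_act_n]; omega)⟩

theorem L1 {F : Front} (hF : GF F) {a n j : ℕ} (hj : j + 2 ≤ a) (h : ok (L a n ++ [X j]) F) :
    LE F (L a n ++ [X j]) (X j :: L a n) := by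
  have := comm_left hF (p := X j) (Y := L a n) (fun q hq => by
    obtain ⟨i, h1, h2, rfl⟩ := mem_L hq
    show j + 2 ≤ i
    omega) h
  rwa [map_past_X] at this

theorem swapX {F : Front} {i j : ℕ} (hij : i + 2 ≤ j) (h : ok [X i, X j] F) :
    LE F [X i, X j] [X j, X i] := by
  have := (FMove.exch (X i) (X j) hij)
  rw [past_X] at this
  exact this.le h

theorem swapX' {F : Front} {i j : ℕ} (hij : i + 2 ≤ j) (h : ok [X j, X i] F) :
    LE F [X j, X i] [X i, X j] := by
  have := (FMove.exch (X i) (X j) hij)
  rw [past_X] at this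
  exact this.ge (by simp) h

theorem L2 {F : Front} (hF : GF F) {a n j : ℕ} (hj : a + n + 1 ≤ j) (h : ok (L a n ++ [X j]) F) :
    LE F (L a n ++ [X j]) (X j :: L a n) := by
  induction n generalizing a F with
  | zero => exact LE.refl _ _
  | succ n ih =>
    rw [L_cons, List.cons_append] at h ⊢
    have h1 : LE F (X a :: (L (a + 1) n ++ [X j])) (X a :: X j :: L (a + 1) n) :=
      LE.cons h.1 (ih (hF.act h.1) (by omega) h.2)
    have h2 := h1.ok hF h
    refine h1.trans ?_
    exact LE.app hF (swapX (by omega) ⟨h2.1, h2.2.1, trivial⟩) (b := L (a + 1) n) h2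

theorem L3 {F : Front} (hF : GF F) {a n j : ℕ} (ha : a ≤ j) (hj : j + 1 < a + n)
    (h : ok (L a n ++ [X j]) F) : LE F (L a n ++ [X j]) (X (j + 1) :: L a n) := by
  induction n generalizing a F with
  | zero => omega
  | succ n ih =>
    rcases Nat.eq_or_lt_of_le ha with rfl | ha'
    · obtain ⟨n, rfl⟩ : ∃ m, n = m + 1 := ⟨n - 1, by omega⟩
      rw [L_cons, L_cons, List.cons_append, List.cons_append] at h ⊢
      have h1 : LE F (X a :: X (a + 1) :: (L (a + 1 + 1) n ++ [X a]))
          (X a :: X (a + 1) :: X a :: L (a + 1 + 1) n) :=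
        LE.cons h.1 (LE.cons h.2.1 (L1 ((hF.act h.1).act h.2.1) (by omega) h.2.2))
      have h2 := h1.ok hF h
      refine h1.trans ?_
      exact LE.app hF ((FMove.thd a).le ⟨h2.1, h2.2.1, h2.2.2.1, trivial⟩)
        (b := L (a + 1 + 1) n) h2
    · rw [L_cons, List.cons_append] at h ⊢
      have h1 : LE F (X a :: (L (a + 1) n ++ [X j])) (X a :: X (j + 1) :: L (a + 1) n) :=
        LE.cons h.1 (ih (hF.act h.1) (by omega) (by omega) h.2)
      have h2 := h1.ok hF h
      refine h1.trans ?_
      exact LE.app hF (swapX (by omega) ⟨h2.1, h2.2.1, trivial⟩) (b := L (a + 1) n) h2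

/-! ### Normal forms -/

/-- The arc from the strand `0` to the strand `e + 1`, in front of everything else. -/
def arc (e : ℕ) (b : Bool) : FWord := birth 0 b :: L 1 e

/-- Normal forms. -/
def can : List (ℕ × Bool) → FWord
  | [] => []
  | x :: t => can t ++ arc x.1 x.2

theorem can_cons (e : ℕ) (b : Bool) (t : List (ℕ × Bool)) :
    can ((e, b) :: t) = can t ++ arc e b := rfl

theorem fr_arc_n (e : ℕ) (b : Bool) (F : Front) : (fr (arc e b) F).n = F.n + 2 := by
  unfold arc
  rw [fr_cons, fr_L_n]
  rfl

theorem fr_can_n (t : List (ℕ × Bool)) : (fr (can t) Front.empty).n = 2 * t.length := by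
  induction t with
  | nil => rfl
  | cons x t ih =>
    obtain ⟨e, b⟩ := x
    rw [can_cons, fr_append, fr_arc_n, ih, List.length_cons]
    omega

theorem ok_arc_le {e : ℕ} {b : Bool} {F : Front} (h : ok (arc e b) F) : e ≤ F.n := by
  unfold arc at h
  rcases Nat.eq_zero_or_pos e with rfl | he
  · omega
  · obtain ⟨m, rfl⟩ : ∃ m, e = m + 1 := ⟨e - 1, by omega⟩
    rw [L_succ] at h
    have h1 : ok (L 1 m ++ [X (1 + m)]) ((birth 0 b).pc.act F) := h.2
    rw [ok_append] at h1
    have h2 : 1 + m + 2 ≤ (fr (L 1 m) ((birth 0 b).pc.act F)).n := h1.2.1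
    rw [fr_L_n] at h2
    have h3 : ((birth 0 b).pc.act F).n = F.n + 2 := rfl
    omega

theorem sec_le {F : Front} {i : ℕ} (h : i + 2 ≤ F.n) : LE F [] [X i, X i] :=
  ((FMove.sec i).le ⟨h, h, trivial⟩).symm

/-- Two nested arcs. -/
theorem nest {F : Front} (hF : GF F) (b b' : Bool) :
    LE F [birth 0 b', birth 1 b] (arc 0 b ++ arc 2 b') := by
  have hok : ok [birth 0 b, birth 0 b', X 1, X 2] F := by
    refine ⟨Nat.zero_le _, Nat.zero_le _, ?_, ?_, trivial⟩
    · show 1 + 2 ≤ F.n + 2 + 2; omega
    · show 2 + 2 ≤ F.n + 2 + 2; omega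
  -- `[birth 0 b, birth 0 b'] ~ [birth 0 b', birth 2 b]`
  have e1 : LE F [birth 0 b, birth 0 b'] [birth 0 b', birth 2 b] :=
    (FMove.exch (birth 0 b') (birth 0 b) (le_refl 0)).ge (by simp)
      ⟨Nat.zero_le _, Nat.zero_le _, trivial⟩
  have e2 := e1.app hF (b := [X 1, X 2]) hok
  have o2 := e2.ok hF hok
  have e3 : LE F [birth 0 b', birth 2 b, X 1, X 2] [birth 0 b', birth 1 b, X 2, X 2] :=
    LE.cons o2.1 (LE.app (hF.act o2.1) ((FMove.slB 1 b).ge (by simp)
      ⟨o2.2.1, o2.2.2.1, trivial⟩) (b := [X 2]) o2.2)
  have o3 := e3.ok hF o2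
  have e4 : LE F [birth 0 b', birth 1 b, X 2, X 2] [birth 0 b', birth 1 b] :=
    LE.cons o3.1 (LE.cons o3.2.1 ((FMove.sec 2).le o3.2.2))
  exact (e2.trans (e3.trans e4)).symm

/-- The set of words with a normal form is closed under crossings which do not use the strand `0`,
if this is known for shorter normal forms. -/
theorem can_X_pos {N : ℕ} (IH : ∀ t : List (ℕ × Bool), t.length < N → ∀ j,
    ok (can t ++ [X j]) Front.empty →
    ∃ t', LE Front.empty (can t ++ [X j]) (can t') ∧ t'.length = t.length)
    (t : List (ℕ × Bool)) (ht : t.length = N) (j : ℕ) (hj : 1 ≤ j)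
    (h : ok (can t ++ [X j]) Front.empty) :
    ∃ t', LE Front.empty (can t ++ [X j]) (can t') ∧ t'.length = t.length := by
  cases t with
  | nil =>
    exfalso
    have h1 : j + 2 ≤ 0 := h.1
    omega
  | cons x t =>
    obtain ⟨e, b⟩ := x
    rw [can_cons] at h ⊢
    have h' := h
    rw [List.append_assoc, ok_append] at h'
    obtain ⟨h1, h2⟩ := h'
    have hF : GF (fr (can t) Front.empty) := gf_empty.fr h1
    -- moving a crossing through the last arc
    have through : ∀ i, LE (fr (can t) Front.empty) (arc e b ++ [X j]) (X i :: arc e b) →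
        ∃ t', LE Front.empty (can t ++ arc e b ++ [X j]) (can t') ∧ t'.length = t.length + 1 := by
      intro i hi
      have e1 := LE.pre h1 hi
      rw [← List.append_assoc] at e1
      have o1 := e1.ok gf_empty h
      have e2 : can t ++ (X i :: arc e b) = can t ++ [X i] ++ arc e b := by simp
      rw [e2] at e1 o1
      have o2 := ((ok_append _ _ _).1 o1).1
      obtain ⟨t', e3, e4⟩ := IH t (by simp at ht; omega) i o2
      refine ⟨(e, b) :: t', ?_, by simp [e4]⟩
      exact e1.trans (e3.app gf_empty o1)
    rcases Nat.lt_trichotomy j e with hje | rfl | hje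
    · -- inside the arc
      have e1 : LE (fr (can t) Front.empty) (arc e b ++ [X j]) (birth 0 b :: X (j + 1) :: L 1 e) :=
        LE.cons h2.1 (L3 (hF.act h2.1) hj (by omega) h2.2)
      have o1 := e1.ok hF h2
      have e2 : LE (fr (can t) Front.empty) [birth 0 b, X (j + 1)] [X (j - 1), birth 0 b] := by
        have := FMove.exch (birth 0 b) (X (j - 1)) (Nat.zero_le _)
        have e : (birth 0 b).past (X (j - 1)) = X (j + 1) := by
          show X (j - 1 + 2) = X (j + 1)
          congr 1; omega
        rw [e] at this
        exact this.le ⟨o1.1, o1.2.1, trivial⟩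
      exact through (j - 1) (e1.trans (e2.app hF (b := L 1 e) o1))
    · -- the last crossing of the arc
      obtain ⟨m, rfl⟩ : ∃ m, j = m + 1 := ⟨j - 1, by omega⟩
      refine ⟨(m, b) :: t, ?_, by simp⟩
      rw [can_cons, List.append_assoc]
      refine LE.pre h1 (LE.cons h2.1 ?_)
      have h3 : ok (L 1 (m + 1) ++ [X (m + 1)]) ((birth 0 b).pc.act (fr (can t) Front.empty)) :=
        h2.2
      show LE _ (L 1 (m + 1) ++ [X (m + 1)]) _
      have e0 : L 1 (m + 1) ++ [X (m + 1)] = L 1 m ++ [X (m + 1), X (m + 1)] := by
        rw [L_succ, show 1 + m = m + 1 by omega]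
        simp
      rw [e0] at h3 ⊢
      have h4 := ((ok_append _ _ _).1 h3)
      have e2 := LE.pre h4.1 ((FMove.sec (m + 1)).le h4.2)
      rwa [List.append_nil] at e2
    · rcases Nat.eq_or_lt_of_le (Nat.succ_le_of_lt hje) with hje' | hje'
      · -- the arc gets longer
        refine ⟨(e + 1, b) :: t, ?_, by simp⟩
        rw [can_cons, List.append_assoc]
        have : arc e b ++ [X j] = arc (e + 1) b := by
          unfold arc
          rw [L_succ, List.cons_append, ← hje', show 1 + e = e.succ by omega]
        rw [this]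
        exact LE.refl _ _
      · -- on the right of the arc
        have e1 : LE (fr (can t) Front.empty) (arc e b ++ [X j]) (birth 0 b :: X j :: L 1 e) :=
          LE.cons h2.1 (L2 (hF.act h2.1) (by omega) h2.2)
        have o1 := e1.ok hF h2
        have e2 : LE (fr (can t) Front.empty) [birth 0 b, X j] [X (j - 2), birth 0 b] := by
          have := FMove.exch (birth 0 b) (X (j - 2)) (Nat.zero_le _)
          have e : (birth 0 b).past (X (j - 2)) = X j := by
            show X (j - 2 + 2) = X j
            congr 1; omega
          rw [e] at this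
          exact this.le ⟨o1.1, o1.2.1, trivial⟩
        exact through (j - 2) (e1.trans (e2.app hF (b := L 1 e) o1))

/-- The set of words with a normal form is closed under crossings. -/
theorem can_X (N : ℕ) : ∀ t : List (ℕ × Bool), t.length = N → ∀ j,
    ok (can t ++ [X j]) Front.empty →
    ∃ t', LE Front.empty (can t ++ [X j]) (can t') ∧ t'.length = t.length := by
  induction N using Nat.strong_induction_on with
  | _ N IH =>
    intro t ht j h
    have IH' : ∀ t : List (ℕ × Bool), t.length < N → ∀ j, ok (can t ++ [X j]) Front.empty →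
        ∃ t', LE Front.empty (can t ++ [X j]) (can t') ∧ t'.length = t.length :=
      fun t ht j h => IH _ ht t rfl j h
    rcases Nat.eq_zero_or_pos j with rfl | hj
    swap
    · exact can_X_pos IH' t ht j hj h
    cases t with
    | nil =>
      exfalso
      have h1 : 0 + 2 ≤ 0 := h.1
      omega
    | cons x t =>
      obtain ⟨e, b⟩ := x
      rw [can_cons] at h ⊢
      have h' := h
      rw [List.append_assoc, ok_append] at h'
      obtain ⟨h1, h2⟩ := h'
      have hF : GF (fr (can t) Front.empty) := gf_empty.fr h1
      rcases Nat.eq_zero_or_pos e with rfl | he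
      · refine ⟨(0, !b) :: t, ?_, by simp⟩
        rw [can_cons, List.append_assoc]
        exact LE.pre h1 ((FMove.fB 0 b).le h2)
      · obtain ⟨m, rfl⟩ : ∃ m, e = m + 1 := ⟨e - 1, by omega⟩
        -- the arc below: `birth 1 b :: L 2 m`
        have e1 : LE (fr (can t) Front.empty) (arc (m + 1) b ++ [X 0])
            (birth 0 b :: X 1 :: X 0 :: L 2 m) := by
          have h3 : ok (birth 0 b :: X 1 :: (L 2 m ++ [X 0])) (fr (can t) Front.empty) := h2
          exact LE.cons h3.1 (LE.cons h3.2.1 (L1 ((hF.act h3.1).act h3.2.1) (by omega) h3.2.2))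
        have o1 := e1.ok hF h2
        have e2 : LE (fr (can t) Front.empty) (birth 0 b :: X 1 :: X 0 :: L 2 m)
            (birth 1 b :: X 0 :: X 0 :: L 2 m) :=
          ((FMove.slB 0 b).le ⟨o1.1, o1.2.1, trivial⟩).app hF (b := X 0 :: L 2 m) o1
        have o2 := e2.ok hF o1
        have e3 : LE (fr (can t) Front.empty) (birth 1 b :: X 0 :: X 0 :: L 2 m)
            (birth 1 b :: L 2 m) :=
          LE.cons o2.1 (((FMove.sec 0).le ⟨o2.2.1, o2.2.2.1, trivial⟩).app (hF.act o2.1)
            (b := L 2 m) o2.2)
        have e4 := LE.pre h1 ((e1.trans e2).trans e3)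
        rw [← List.append_assoc] at e4
        have o4 := e4.ok gf_empty h
        -- the arc above
        cases t with
        | nil =>
          exfalso
          have := o4.1
          have h5 : 1 ≤ 0 := this
          omega
        | cons y t =>
          obtain ⟨e', b'⟩ := y
          have h6 : ok (can t ++ arc e' b') Front.empty := h1
          have h7 := (ok_append _ _ _).1 h6
          have hG : GF (fr (can t) Front.empty) := gf_empty.fr h7.1
          have o5 : ok (arc e' b' ++ [birth 1 b] ++ L 2 m) (fr (can t) Front.empty) := by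
            have : can ((e', b') :: t) ++ birth 1 b :: L 2 m =
              can t ++ (arc e' b' ++ [birth 1 b] ++ L 2 m) := by
              rw [can_cons]; simp
            rw [this, ok_append] at o4
            exact o4.2
          have o6 := ((ok_append _ _ _).1 o5).1
          have e5 : LE (fr (can t) Front.empty) (arc e' b' ++ [birth 1 b])
              (birth 0 b' :: birth 1 b :: L 3 e') := by
            refine LE.cons o6.1 ?_
            have := comm_left (hG.act o6.1) (p := birth 1 b) (Y := L 1 e') (fun q hq => by
              obtain ⟨i, k1, k2, rfl⟩ := mem_L hq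
              exact k1) o6.2
            have e : ∀ a n, (L a n).map (birth 1 b).past = L (a + 2) n := by
              intro a n
              induction n generalizing a with
              | zero => rfl
              | succ n ih => rw [L_cons, List.map_cons, ih, L_cons]; rfl
            rw [e] at this
            exact this
          have o7 := e5.ok hG o6
          have e6 : LE (fr (can t) Front.empty) (birth 0 b' :: birth 1 b :: L 3 e')
              (arc 0 b ++ arc (e' + 2) b') := by
            have := (nest hG b b').app hG (b := L 3 e') o7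
            exact this
          have e7 : LE (fr (can t) Front.empty) (arc e' b' ++ [birth 1 b] ++ L 2 m)
              (arc 0 b ++ arc (e' + 2) b' ++ L 2 m) := (e5.trans e6).app hG o5
          have e8 := LE.pre h7.1 e7
          have e9 : can t ++ (arc 0 b ++ arc (e' + 2) b' ++ L 2 m) =
              can ((e' + 2, b') :: (0, b) :: t) ++ L 2 m := by
            rw [can_cons, can_cons]; simp
          have e10 : can t ++ (arc e' b' ++ [birth 1 b] ++ L 2 m) =
              can ((e', b') :: t) ++ birth 1 b :: L 2 m := by
            rw [can_cons]; simp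
          rw [e9, e10] at e8
          have o8 := e8.ok gf_empty o4
          -- the remaining crossings
          have rest : ∀ (m a : ℕ) (t' : List (ℕ × Bool)), 1 ≤ a → t'.length = N →
              ok (can t' ++ L a m) Front.empty →
              ∃ t'', LE Front.empty (can t' ++ L a m) (can t'') ∧ t''.length = N := by
            intro m
            induction m with
            | zero =>
              intro a t' ha ht' ho
              exact ⟨t', by rw [L_zero, List.append_nil]; exact LE.refl _ _, ht'⟩
            | succ m ihm =>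
              intro a t' ha ht' ho
              have ho' : ok (can t' ++ [X a] ++ L (a + 1) m) Front.empty := by
                simpa [L_cons] using ho
              obtain ⟨t1, k1, k2⟩ := can_X_pos IH' t' ht' a ha ((ok_append _ _ _).1 ho').1
              have k3 := k1.app gf_empty ho'
              have k4 := k3.ok gf_empty ho'
              obtain ⟨t2, k5, k6⟩ := ihm (a + 1) t1 (by omega) (by omega) k4
              refine ⟨t2, ?_, k6⟩
              have : can t' ++ L a (m + 1) = can t' ++ [X a] ++ L (a + 1) m := by
                simp [L_cons]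
              rw [this]
              exact k3.trans k5
          obtain ⟨t'', k1, k2⟩ := rest m 2 ((e' + 2, b') :: (0, b) :: t) (by omega)
            (by simpa using ht) o8
          exact ⟨t'', (e4.trans e8).trans k1, by rw [k2]; exact ht.symm⟩

end Pool.Agent.H835R2.Flat
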