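import Pool.Agent.H835R2.Flat.Deg

/-! # Classification of the fronts above the boxes -/

set_option autoImplicit false
set_option linter.unusedSimpArgs false
set_option linter.unusedVariables false

namespace Pool.Agent.H835R2.Flat

open Pool.Agent.H835R2.Knot
open Pool.Agent.H835R2.Flat.FP

/-! ### Directions -/

theorem fr_box_dir {j p : ℕ} (hp : p < j) (F : Front) : (fr (box j) F).dir p = F.dir p := by
  show F.dir (sw j (up (j + 1) (up j p))) = F.dir p
  rw [up_lt (show p < j by omega), up_lt (show p < j + 1 by omega), sw_of_ne (by omega) (by omega)]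

theorem box_dirs {j : ℕ} {F : Front} (h : ok (box j) F) :
    F.dir (j + 2) = !F.dir j ∧ F.dir (j + 3) = !F.dir (j + 1) := by
  obtain ⟨h1, ⟨h2, h3⟩, ⟨h4, h5⟩, -⟩ := h
  constructor
  · have e : F.dir (sw j (j + 1 + 1)) = !F.dir (sw j (j + 1)) := h3
    rwa [sw_right, sw_of_ne (show j + 1 + 1 ≠ j by omega) (by omega)] at e
  · have e : F.dir (sw j (up (j + 1) (j + 1))) = !F.dir (sw j (up (j + 1) j)) := h5
    rwa [up_ge (le_refl _), up_lt (show j < j + 1 by omega), sw_left,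
      sw_of_ne (show j + 1 + 2 ≠ j by omega) (by omega)] at e

theorem Bx_dirs {k c : ℕ} (hc : c < k) {F : Front} (h : ok (Bx 0 k) F) :
    F.dir (4 * c + 2) = !F.dir (4 * c) ∧ F.dir (4 * c + 3) = !F.dir (4 * c + 1) := by
  induction k generalizing F with
  | zero => omega
  | succ k ih =>
    have h0 : Bx 0 (k + 1) = box (4 * k) ++ Bx 0 k := by
      show box (0 + 4 * k) ++ Bx 0 k = _
      rw [Nat.zero_add]
    rw [h0] at h
    have h' := (ok_append _ _ _).1 h
    rcases Nat.eq_or_lt_of_le (Nat.le_of_lt_succ hc) with rfl | hc'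
    · exact box_dirs h'.1
    · have := ih hc' h'.2
      rwa [fr_box_dir (by omega), fr_box_dir (by omega), fr_box_dir (by omega),
        fr_box_dir (by omega)] at this

/-- The turning of the box `c`. -/
def rot (c : ℕ) : FWord := [X (4 * c + 2), X (4 * c + 1), X (4 * c)]

theorem rot_dir (c : ℕ) (F : Front) :
    (fr (rot c) F).dir (4 * c) = F.dir (4 * c + 3) ∧
    (fr (rot c) F).dir (4 * c + 1) = F.dir (4 * c) ∧
    (fr (rot c) F).dir (4 * c + 2) = F.dir (4 * c + 1) ∧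
    (fr (rot c) F).dir (4 * c + 3) = F.dir (4 * c + 2) ∧
    ∀ p, (p < 4 * c ∨ 4 * c + 4 ≤ p) → (fr (rot c) F).dir p = F.dir p := by
  have key : ∀ p, (fr (rot c) F).dir p =
      F.dir (sw (4 * c + 2) (sw (4 * c + 1) (sw (4 * c) p))) := fun p => rfl
  refine ⟨?_, ?_, ?_, ?_, fun p hp => ?_⟩
  · rw [key, sw_left, sw_left, sw_left]
  · rw [key, sw_right, sw_of_ne (show 4 * c ≠ 4 * c + 1 by omega) (by omega),
      sw_of_ne (show 4 * c ≠ 4 * c + 2 by omega) (by omega)]
  · rw [key, sw_of_ne (show 4 * c + 2 ≠ 4 * c by omega) (by omega), sw_right,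
      sw_of_ne (show 4 * c + 1 ≠ 4 * c + 2 by omega) (by omega)]
  · rw [key, sw_of_ne (show 4 * c + 3 ≠ 4 * c by omega) (by omega),
      sw_of_ne (show 4 * c + 3 ≠ 4 * c + 1 by omega) (by omega), sw_right]
  · rw [key, sw_of_ne (show p ≠ 4 * c by omega) (by omega),
      sw_of_ne (show p ≠ 4 * c + 1 by omega) (by omega),
      sw_of_ne (show p ≠ 4 * c + 2 by omega) (by omega)]

/-- The directions at the box `c` are down, down, up, up. -/
def NS (c : ℕ) (F : Front) : Prop := F.dir (4 * c) = true ∧ F.dir (4 * c + 1) = true ∧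
  F.dir (4 * c + 2) = false ∧ F.dir (4 * c + 3) = false

theorem norm_one {k c : ℕ} (hc : c < k) {F : Front} (h : S k F) :
    ∃ σ, Abs k σ ∧ NS c (fr σ F) ∧ ∀ p, (p < 4 * c ∨ 4 * c + 4 ≤ p) → (fr σ F).dir p = F.dir p := by
  obtain ⟨d2, d3⟩ := Bx_dirs hc h.ok
  have hr : Abs k (rot c) := abs_rot hc
  obtain ⟨a0, a1, a2, a3, a4⟩ := rot_dir c F
  obtain ⟨b0, b1, b2, b3, b4⟩ := rot_dir c (fr (rot c) F)
  obtain ⟨c0, c1, c2, c3, c4⟩ := rot_dir c (fr (rot c) (fr (rot c) F))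
  cases h0 : F.dir (4 * c) <;> cases h1 : F.dir (4 * c + 1) <;> rw [h0] at d2 <;> rw [h1] at d3
  · refine ⟨rot c ++ rot c, hr.append hr, ?_, fun p hp => ?_⟩
    · rw [fr_append]
      refine ⟨?_, ?_, ?_, ?_⟩
      · rw [b0, a3, d2]; rfl
      · rw [b1, a0, d3]; rfl
      · rw [b2, a1, h0]
      · rw [b3, a2, h1]
    · rw [fr_append, b4 p hp, a4 p hp]
  · refine ⟨rot c ++ (rot c ++ rot c), hr.append (hr.append hr), ?_, fun p hp => ?_⟩
    · rw [fr_append, fr_append]
      refine ⟨?_, ?_, ?_, ?_⟩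
      · rw [c0, b3, a2, h1]
      · rw [c1, b0, a3, d2]; rfl
      · rw [c2, b1, a0, d3]; rfl
      · rw [c3, b2, a1, h0]
    · rw [fr_append, fr_append, c4 p hp, b4 p hp, a4 p hp]
  · refine ⟨rot c, hr, ⟨?_, ?_, ?_, ?_⟩, a4⟩
    · rw [a0, d3]; rfl
    · rw [a1, h0]
    · rw [a2, h1]
    · rw [a3, d2]; rfl
  · refine ⟨[], abs_nil k, ⟨h0, h1, ?_, ?_⟩, fun _ _ => rfl⟩
    · show F.dir (4 * c + 2) = false
      rw [d2]; rfl
    · show F.dir (4 * c + 3) = false
      rw [d3]; rfl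

theorem norm_all {k : ℕ} {F : Front} (h : S k F) (m : ℕ) (hm : m ≤ k) :
    ∃ σ, Abs k σ ∧ ∀ c < m, NS c (fr σ F) := by
  induction m with
  | zero => exact ⟨[], abs_nil k, fun c hc => absurd hc (Nat.not_lt_zero c)⟩
  | succ m ih =>
    obtain ⟨σ, h1, h2⟩ := ih (by omega)
    obtain ⟨τ, h3, h4, h5⟩ := norm_one (c := m) (by omega) (h.abs h1)
    refine ⟨σ ++ τ, h1.append h3, fun c hc => ?_⟩
    rw [fr_append]
    rcases Nat.eq_or_lt_of_le (Nat.le_of_lt_succ hc) with rfl | hc'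
    · exact h4
    · obtain ⟨k0, k1, k2, k3⟩ := h2 c hc'
      exact ⟨by rw [h5 _ (by omega), k0], by rw [h5 _ (by omega), k1],
        by rw [h5 _ (by omega), k2], by rw [h5 _ (by omega), k3]⟩

/-! ### Standard fronts -/

/-- The standard front with the given connections. -/
def SF (k : ℕ) (l : List ℕ) : Front where
  n := 4 * k
  dir p := decide (4 * k ≤ p ∨ p % 4 < 2)
  fin p := if 4 * k ≤ p ∨ p % 4 < 2 then p else l.getD (2 * (p / 4) + (p % 4 - 2)) 0

/-- The connections of a front. -/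
def ell (k : ℕ) (F : Front) : List ℕ :=
  (List.range (2 * k)).map fun j => F.fin (4 * (j / 2) + 2 + j % 2)

theorem SF_ell {k : ℕ} {F : Front} (h : GF F) (hn : F.n = 4 * k) (hs : ∀ c < k, NS c F) :
    F = SF k (ell k F) := by
  obtain ⟨s, hg, rfl⟩ := h
  have hout : ∀ p, 4 * k ≤ p → s.d p = true := fun p hp => hg.out p (by
    have : s.n = 4 * k := hn
    omega)
  have hdir : ∀ p, s.d p = decide (4 * k ≤ p ∨ p % 4 < 2) := by
    intro p
    by_cases hp : 4 * k ≤ p
    · rw [hout p hp]; simp [hp]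
    · obtain ⟨k0, k1, k2, k3⟩ := hs (p / 4) (by omega)
      have h4 : p % 4 = 0 ∨ p % 4 = 1 ∨ p % 4 = 2 ∨ p % 4 = 3 := by omega
      rcases h4 with h4 | h4 | h4 | h4
      · have : p = 4 * (p / 4) := by omega
        rw [this]
        have k0' : s.d (4 * (p / 4)) = true := k0
        rw [k0', eq_comm, decide_eq_true_eq]
        omega
      · have : p = 4 * (p / 4) + 1 := by omega
        rw [this]
        have k0' : s.d (4 * (p / 4) + 1) = true := k1
        rw [k0', eq_comm, decide_eq_true_eq]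
        omega
      · have : p = 4 * (p / 4) + 2 := by omega
        rw [this]
        have k0' : s.d (4 * (p / 4) + 2) = false := k2
        rw [k0', eq_comm, decide_eq_false_iff_not]
        omega
      · have : p = 4 * (p / 4) + 3 := by omega
        rw [this]
        have k0' : s.d (4 * (p / 4) + 3) = false := k3
        rw [k0', eq_comm, decide_eq_false_iff_not]
        omega
  refine Front.ext' hn hdir (fun p => ?_)
  show (s.N p).1 = if 4 * k ≤ p ∨ p % 4 < 2 then p else _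
  by_cases hp : 4 * k ≤ p ∨ p % 4 < 2
  · rw [if_pos hp, hg.exit p (by rw [hdir]; exact decide_eq_true hp)]
  · rw [if_neg hp]
    have hj : 2 * (p / 4) + (p % 4 - 2) < (ell k s.front).length := by
      unfold ell
      rw [List.length_map, List.length_range]
      omega
    rw [List.getD_eq_getElem _ _ hj]
    have e : (ell k s.front)[2 * (p / 4) + (p % 4 - 2)]'hj =
        s.front.fin (4 * ((2 * (p / 4) + (p % 4 - 2)) / 2) + 2 +
          (2 * (p / 4) + (p % 4 - 2)) % 2) := by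
      simp [ell]
    rw [e]
    show (s.N p).1 = (s.N _).1
    congr 2
    omega

/-- The strands directed downwards. -/
def dns (k : ℕ) : List ℕ := (List.range (2 * k)).map fun j => 4 * (j / 2) + j % 2

theorem ell_perm {k : ℕ} {F : Front} (h : GF F) (hn : F.n = 4 * k) (hs : ∀ c < k, NS c F) :
    (ell k F).Perm (dns k) := by
  have hF := SF_ell h hn hs
  obtain ⟨s, hg, hsf⟩ := h
  have e1 : ∀ p, s.d p = F.dir p := fun p => by rw [← hsf]; rfl
  have e2 : ∀ p, (s.N p).1 = F.fin p := fun p => by rw [← hsf]; rfl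
  have e3 : s.n = 4 * k := by rw [← hn, ← hsf]; rfl
  have hd : ∀ p, F.dir p = decide (4 * k ≤ p ∨ p % 4 < 2) := fun p => by rw [hF]; rfl
  have hsub : ell k F ⊆ dns k := by
    intro q hq
    unfold ell at hq
    obtain ⟨j, hj, rfl⟩ := List.mem_map.1 hq
    rw [List.mem_range] at hj
    set p := 4 * (j / 2) + 2 + j % 2 with hp
    have hlt := hg.lt p (by omega)
    have hdd := hg.dir p
    rw [e2] at hlt hdd
    rw [e1, hd, decide_eq_true_eq] at hdd
    unfold dns
    refine List.mem_map.2 ⟨2 * (F.fin p / 4) + F.fin p % 4, ?_, ?_⟩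
    · rw [List.mem_range]; omega
    · omega
  have hnd : (ell k F).Nodup := by
    unfold ell
    refine List.Nodup.map_on ?_ List.nodup_range
    intro i hi j hj hij
    rw [List.mem_range] at hi hj
    have h1 := hg.inj (4 * (i / 2) + 2 + i % 2) (4 * (j / 2) + 2 + j % 2)
      (by rw [e1, hd, decide_eq_false_iff_not]; omega)
      (by rw [e1, hd, decide_eq_false_iff_not]; omega) (by rw [e2, e2]; exact hij)
    omega
  refine List.Subperm.perm_of_length_le (List.subperm_of_subset hnd hsub) ?_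
  simp [ell, dns]

/-! ### Kinks -/

theorem joined_symm {F : Front} {p q : ℕ} (h : joined F p q) : joined F q p := Or.symm h

theorem rot_joined {c p q : ℕ} {F : Front} (h : joined F p q) :
    joined (fr (rot c) F) (sw (4 * c) (sw (4 * c + 1) (sw (4 * c + 2) p)))
      (sw (4 * c) (sw (4 * c + 1) (sw (4 * c + 2) q))) :=
  X_joined (X_joined (X_joined h))

theorem rot_pos (c : ℕ) : sw (4 * c) (sw (4 * c + 1) (sw (4 * c + 2) (4 * c + 3))) = 4 * c ∧
    sw (4 * c) (sw (4 * c + 1) (sw (4 * c + 2) (4 * c))) = 4 * c + 1 ∧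
    sw (4 * c) (sw (4 * c + 1) (sw (4 * c + 2) (4 * c + 1))) = 4 * c + 2 ∧
    sw (4 * c) (sw (4 * c + 1) (sw (4 * c + 2) (4 * c + 2))) = 4 * c + 3 := by
  unfold sw
  refine ⟨?_, ?_, ?_, ?_⟩ <;> split_ifs <;> omega

variable {Z : FWord → Prop}

/-- The two strands which go through a box follow each other. -/
def kinkP (k : ℕ) (l : List ℕ) : Prop :=
  ∃ c < k, l.getD (2 * c) 0 = 4 * c + 1 ∨ l.getD (2 * c + 1) 0 = 4 * c

instance (k : ℕ) (l : List ℕ) : Decidable (kinkP k l) :=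
  inferInstanceAs (Decidable (∃ c < k, _))

theorem Q.ofKink {k : ℕ} (hZ : Inv k Z) {l : List ℕ} (hS : S k (SF k l)) (h : kinkP k l) :
    Q Z k (SF k l) := by
  obtain ⟨c, hc, h⟩ := h
  obtain ⟨r0, r1, r2, r3⟩ := rot_pos c
  have hr : Abs k (rot c) := abs_rot hc
  rcases h with h | h
  · have j0 : joined (SF k l) (4 * c + 2) (4 * c + 1) := by
      left
      constructor
      · show decide (4 * k ≤ 4 * c + 2 ∨ (4 * c + 2) % 4 < 2) = false
        rw [decide_eq_false_iff_not]; omega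
      · show (if 4 * k ≤ 4 * c + 2 ∨ (4 * c + 2) % 4 < 2 then _ else _) = _
        rw [if_neg (by omega)]
        rw [show 2 * ((4 * c + 2) / 4) + ((4 * c + 2) % 4 - 2) = 2 * c by omega, h]
    have j1 := rot_joined (c := c) j0
    rw [r3, r2] at j1
    have j2 := rot_joined (c := c) j1
    rw [r0, r3] at j2
    have j3 := rot_joined (c := c) j2
    rw [r1, r0] at j3
    have S1 := hS.abs hr
    have S2 := S1.abs hr
    have S3 := S2.abs hr
    exact Q.abs hZ hS hr (Q.abs hZ S1 hr (Q.abs hZ S2 hr (Q.kink hZ S3 hc (joined_symm j3))))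
  · have j0 : joined (SF k l) (4 * c + 3) (4 * c) := by
      left
      constructor
      · show decide (4 * k ≤ 4 * c + 3 ∨ (4 * c + 3) % 4 < 2) = false
        rw [decide_eq_false_iff_not]; omega
      · show (if 4 * k ≤ 4 * c + 3 ∨ (4 * c + 3) % 4 < 2 then _ else _) = _
        rw [if_neg (by omega)]
        rw [show 2 * ((4 * c + 3) / 4) + ((4 * c + 3) % 4 - 2) = 2 * c + 1 by omega, h]
    have j1 := rot_joined (c := c) j0
    rw [r0, r1] at j1
    exact Q.abs hZ hS hr (Q.kink hZ (hS.abs hr) hc j1)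

/-- The property for all fronts, from a finite list of them. -/
theorem Q.all {k : ℕ} (hZ : Inv k Z) (tb : List (List ℕ))
    (hT : ∀ l ∈ tb, S k (SF k l) → Q Z k (SF k l))
    (hchk : ∀ l ∈ (dns k).permutations', fc (Bx 0 k) (SF k l) = 1 → kinkP k l ∨ l ∈ tb)
    {F : Front} (hS : S k F) : Q Z k F := by
  obtain ⟨σ, h1, h2⟩ := norm_all hS k le_rfl
  have hS' := hS.abs h1
  refine Q.abs hZ hS h1 ?_
  have e := SF_ell hS'.gf hS'.n h2
  have hp := ell_perm hS'.gf hS'.n h2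
  rw [e] at hS' ⊢
  rcases hchk _ (List.mem_permutations'.2 hp) hS'.fc with h | h
  · exact Q.ofKink hZ hS' h
  · exact hT _ h hS'

/-! ### Orbits -/

/-- The directions are standard. -/
def stdb (k : ℕ) (F : Front) : Bool :=
  (List.range k).all fun c => F.dir (4 * c) && F.dir (4 * c + 1) && !F.dir (4 * c + 2) &&
    !F.dir (4 * c + 3)

theorem ns_of_stdb {k : ℕ} {F : Front} (h : stdb k F = true) : ∀ c < k, NS c F := by
  intro c hc
  unfold stdb at h
  rw [List.all_eq_true] at h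
  have := h c (List.mem_range.2 hc)
  simp only [Bool.and_eq_true, Bool.not_eq_true'] at this
  exact ⟨this.1.1.1, this.1.1.2, this.1.2, this.2⟩

/-- The check for one step: the word `g` takes the front `l` to the front `l'`. -/
def stepb (k : ℕ) (l : List ℕ) (g : FWord) (l' : List ℕ) : Bool :=
  stdb k (fr g (SF k l)) && (ell k (fr g (SF k l)) == l')

theorem Q.step {k : ℕ} (hZ : Inv k Z) {l l' : List ℕ} {g : FWord} (hg : Abs k g)
    (h : stepb k l g l' = true) (hS : S k (SF k l)) :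
    S k (SF k l') ∧ (Q Z k (SF k l') → Q Z k (SF k l)) := by
  unfold stepb at h
  rw [Bool.and_eq_true, beq_iff_eq] at h
  have hS' := hS.abs hg
  have e := SF_ell hS'.gf hS'.n (ns_of_stdb h.1)
  rw [h.2] at e
  refine ⟨e ▸ hS', fun hq => Q.abs hZ hS hg (e ▸ hq)⟩

/-- The check of a table. -/
def tabb (k : ℕ) : List (List ℕ × FWord × List ℕ) → List (List ℕ) → Bool
  | [], _ => true
  | t :: T, known => stepb k t.1 t.2.1 t.2.2 && known.contains t.2.2 && tabb k T (t.1 :: known)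

theorem Q.tab {k : ℕ} (hZ : Inv k Z) (T : List (List ℕ × FWord × List ℕ)) :
    ∀ known : List (List ℕ), (∀ l ∈ known, S k (SF k l) → Q Z k (SF k l)) →
    (∀ t ∈ T, Abs k t.2.1) → tabb k T known = true →
    ∀ l ∈ T.map (·.1) ++ known, S k (SF k l) → Q Z k (SF k l) := by
  induction T with
  | nil => intro known h1 _ _ l hl; exact h1 l (by simpa using hl)
  | cons t T ih =>
    intro known h1 h2 h3 l hl hS
    unfold tabb at h3
    rw [Bool.and_eq_true, Bool.and_eq_true] at h3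
    obtain ⟨⟨h4, h5⟩, h6⟩ := h3
    have key : ∀ l ∈ t.1 :: known, S k (SF k l) → Q Z k (SF k l) := by
      intro l hl hS
      rcases List.mem_cons.1 hl with rfl | hl
      · obtain ⟨h7, h8⟩ := Q.step hZ (h2 t List.mem_cons_self) h4 hS
        exact h8 (h1 _ (by simpa using h5) h7)
      · exact h1 l hl hS
    refine ih (t.1 :: known) key (fun t ht => h2 t (List.mem_cons_of_mem _ ht)) h6 l ?_ hS
    rw [List.map_cons, List.cons_append, List.mem_cons, List.mem_append] at hl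
    rw [List.mem_append, List.mem_cons]
    rcases hl with rfl | hl | hl
    · exact Or.inr (Or.inl rfl)
    · exact Or.inl hl
    · exact Or.inr (Or.inr hl)

/-- The front of an explicit diagram. -/
theorem S_nf {k : ℕ} (hk : 0 < k) {D : FWord} (hD : Kn D) (hn : nd D = k) :
    S k (fr (nf D).1 Front.empty) := by
  obtain ⟨h1, h2, h3⟩ := nf_spec D hD.ok
  rw [nf_nd hD, hn, hD.fr_n] at h1
  rw [nf_nd hD, hn, hD.fr_n, zero_add] at h3
  exact (kn_boxes hk ((kn_le h1).1 hD)).2.2 h3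

/-- The base cases. -/
theorem Q.base {k : ℕ} (hk : 0 < k) (hZ : Inv k Z) {D : FWord} (hD : Kn D) (hn : nd D = k)
    (h : Z D) {l : List ℕ} (hs : stdb k (fr (nf D).1 Front.empty) = true)
    (hl : ell k (fr (nf D).1 Front.empty) = l) : Q Z k (SF k l) := by
  have h1 := S_nf hk hD hn
  have e := SF_ell h1.gf h1.n (ns_of_stdb hs)
  rw [hl] at e
  rw [← e]
  exact Q_of_Z hk hZ hD hn h

/-! ### The diagrams -/

/-- One double point. -/
theorem cls1 (hZ : Inv 1 Z) {D : FWord} (hD : Kn D) (hn : nd D = 1) : Z D := by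
  refine Z_of_Q one_pos hZ hD hn fun hS => Q.all hZ [] (fun l hl => by simp at hl) ?_ hS
  decide +kernel

/-- Two crossings of the standard diagram of the trefoil. -/
def D2 : FWord := [birth 0 true, birth 1 true, dbl 0, dbl 0, X 0, death 1, death 0]

/-- The three crossings of the standard diagram of the trefoil. -/
def D3 : FWord := [birth 0 true, birth 1 true, dbl 0, dbl 0, dbl 0, death 1, death 0]

/-- Three crossings of the standard diagram of the figure eight knot as a closed 3-braid. -/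
def D4 : FWord := [birth 0 true, birth 1 true, birth 2 true, dbl 0, dbl 1, dbl 0, X 1, death 2,
  death 1, death 0]

theorem kn_D2 : Kn D2 := by
  show IsKnot _
  decide +kernel
theorem kn_D3 : Kn D3 := by
  show IsKnot _
  decide +kernel
theorem kn_D4 : Kn D4 := by
  show IsKnot _
  decide +kernel

/-- Two double points. -/
theorem cls2 (hZ : Inv 2 Z) (h2 : Z D2) {D : FWord} (hD : Kn D) (hn : nd D = 2) : Z D := by
  have hb : Q Z 2 (SF 2 [5, 4, 0, 1]) :=
    Q.base (by omega) hZ kn_D2 rfl h2 (by decide +kernel) (by decide +kernel)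
  have ht := Q.tab hZ [([4, 5, 1, 0], [X (4 * 0), X (4 * 0 + 2)], [5, 4, 0, 1])]
    [[5, 4, 0, 1]] (fun l hl _ => by
      rw [List.mem_singleton.1 hl]; exact hb) (fun t ht => by
      rw [List.mem_singleton.1 ht]; exact abs_swap (by omega)) (by decide +kernel)
  exact Z_of_Q (by omega) hZ hD hn fun hS => Q.all hZ _ ht (by decide +kernel) hS

/-- The symmetries of three boxes. -/
def gen3 : ℕ → FWord
  | 0 => [X (4 * 0), X (4 * 0 + 2)]
  | 1 => [X (4 * 1), X (4 * 1 + 2)]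
  | 2 => [X (4 * 2), X (4 * 2 + 2)]
  | 3 => PP (4 * 0) 4
  | 4 => PP (4 * 1) 4
  | _ => []

theorem abs_gen3 (i : ℕ) : Abs 3 (gen3 i) := by
  unfold gen3
  split
  · exact abs_swap (by omega)
  · exact abs_swap (by omega)
  · exact abs_swap (by omega)
  · exact abs_perm (by omega)
  · exact abs_perm (by omega)
  · exact abs_nil 3

/-- The orbits of the symmetries. -/
def tb3 : List (List ℕ × FWord × List ℕ) := [
  ([4, 5, 8, 9, 1, 0], gen3 1, [5, 4, 9, 8, 1, 0]),
  ([4, 5, 9, 8, 0, 1], gen3 0, [5, 4, 9, 8, 1, 0]),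
  ([4, 9, 1, 8, 0, 5], gen3 2, [4, 8, 1, 9, 5, 0]),
  ([5, 4, 8, 9, 0, 1], gen3 0, [4, 5, 8, 9, 1, 0]),
  ([5, 8, 0, 9, 4, 1], gen3 3, [4, 9, 1, 8, 0, 5]),
  ([5, 8, 9, 1, 4, 0], gen3 1, [4, 8, 1, 9, 5, 0]),
  ([5, 9, 0, 8, 1, 4], gen3 2, [5, 8, 0, 9, 4, 1]),
  ([5, 9, 8, 1, 0, 4], gen3 1, [4, 9, 1, 8, 0, 5]),
  ([8, 4, 0, 9, 5, 1], gen3 0, [4, 8, 1, 9, 5, 0]),
  ([8, 4, 9, 0, 1, 5], gen3 4, [4, 8, 1, 9, 5, 0]),
  ([8, 5, 0, 9, 1, 4], gen3 1, [8, 4, 9, 0, 1, 5]),
  ([8, 5, 1, 9, 4, 0], gen3 0, [5, 8, 0, 9, 4, 1]),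
  ([8, 5, 9, 0, 4, 1], gen3 0, [5, 8, 9, 1, 4, 0]),
  ([8, 9, 0, 1, 5, 4], gen3 3, [4, 5, 8, 9, 1, 0]),
  ([8, 9, 1, 0, 4, 5], gen3 1, [8, 9, 0, 1, 5, 4]),
  ([9, 4, 0, 8, 1, 5], gen3 0, [4, 9, 1, 8, 0, 5]),
  ([9, 4, 8, 0, 5, 1], gen3 2, [8, 4, 9, 0, 1, 5]),
  ([9, 4, 8, 1, 0, 5], gen3 3, [8, 5, 9, 0, 4, 1]),
  ([9, 5, 0, 8, 4, 1], gen3 1, [9, 4, 8, 0, 5, 1]),
  ([9, 5, 1, 8, 0, 4], gen3 0, [5, 9, 0, 8, 1, 4]),
  ([9, 5, 8, 0, 1, 4], gen3 0, [5, 9, 8, 1, 0, 4]),
  ([9, 8, 0, 1, 4, 5], gen3 0, [8, 9, 1, 0, 4, 5]),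
  ([9, 8, 1, 0, 5, 4], gen3 0, [8, 9, 0, 1, 5, 4]),
  ([4, 8, 9, 0, 5, 1], gen3 1, [5, 8, 0, 9, 4, 1]),
  ([4, 8, 9, 1, 0, 5], gen3 0, [8, 4, 9, 0, 1, 5]),
  ([4, 9, 8, 0, 1, 5], gen3 0, [9, 4, 8, 1, 0, 5]),
  ([4, 9, 8, 1, 5, 0], gen3 0, [9, 4, 8, 0, 5, 1]),
  ([5, 8, 1, 9, 0, 4], gen3 0, [8, 5, 0, 9, 1, 4]),
  ([5, 9, 1, 8, 4, 0], gen3 0, [9, 5, 0, 8, 4, 1]),
  ([8, 4, 9, 1, 5, 0], gen3 0, [4, 8, 9, 0, 5, 1])]

/-- Three double points. -/
theorem cls3 (hZ : Inv 3 Z) (h3 : Z D3) (h4 : Z D4) {D : FWord} (hD : Kn D) (hn : nd D = 3) :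
    Z D := by
  have hb : Q Z 3 (SF 3 [4, 8, 1, 9, 5, 0]) :=
    Q.base (by omega) hZ kn_D4 rfl h4 (by decide +kernel) (by decide +kernel)
  have hb' : Q Z 3 (SF 3 [5, 4, 9, 8, 1, 0]) :=
    Q.base (by omega) hZ kn_D3 rfl h3 (by decide +kernel) (by decide +kernel)
  have ht := Q.tab hZ tb3 [[5, 4, 9, 8, 1, 0], [4, 8, 1, 9, 5, 0]] (fun l hl _ => by
      rcases List.mem_cons.1 hl with rfl | hl
      · exact hb'
      · rw [List.mem_singleton.1 hl]; exact hb) (fun t ht => by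
      obtain ⟨i, hi⟩ : ∃ i, t.2.1 = gen3 i := by
        revert t
        unfold tb3
        simp only [List.forall_mem_cons, List.not_mem_nil, false_implies, implies_true,
          and_true]
        repeat' constructor
      rw [hi]
      exact abs_gen3 i) (by decide +kernel)
  exact Z_of_Q (by omega) hZ hD hn fun hS => Q.all hZ _ ht (by decide +kernel) hS

end Pool.Agent.H835R2.Flat
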