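import Pool.Agent.H835R2.Flat.Can

/-! # Coherence: flat words without double points are determined by their strands -/

set_option autoImplicit false
set_option linter.unusedSimpArgs false
set_option linter.unusedVariables false

namespace Pool.Agent.H835R2.Flat

open Pool.Agent.H835R2.Knot
open Pool.Agent.H835R2.Flat.FP

/-- Words of crossings. -/
def IsX (w : FWord) : Prop := ∀ p ∈ w, ∃ i, p = X i

theorem IsX.append {v w : FWord} (hv : IsX v) (hw : IsX w) : IsX (v ++ w) := by
  intro p hp
  rcases List.mem_append.1 hp with h | h
  · exact hv p h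
  · exact hw p h

theorem IsX.fr_n {w : FWord} (h : IsX w) (F : Front) : (fr w F).n = F.n := by
  induction w generalizing F with
  | nil => rfl
  | cons p w ih =>
    obtain ⟨i, rfl⟩ := h p List.mem_cons_self
    rw [fr_cons, ih (fun q hq => h q (List.mem_cons_of_mem _ hq))]
    rfl

theorem isX_L (a n : ℕ) : IsX (L a n) := by
  intro p hp
  obtain ⟨j, -, -, rfl⟩ := mem_L hp
  exact ⟨j, rfl⟩

/-- Normal forms and words of crossings. -/
theorem can_Xs (w : FWord) (hw : IsX w) (t : List (ℕ × Bool))
    (h : ok (can t ++ w) Front.empty) :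
    ∃ t', LE Front.empty (can t ++ w) (can t') ∧ t'.length = t.length := by
  induction w generalizing t with
  | nil => exact ⟨t, by rw [List.append_nil]; exact LE.refl _ _, rfl⟩
  | cons p w ih =>
    obtain ⟨i, rfl⟩ := hw p List.mem_cons_self
    have e : can t ++ X i :: w = can t ++ [X i] ++ w := by simp
    rw [e] at h ⊢
    obtain ⟨t1, h1, h2⟩ := can_X _ t rfl i ((ok_append _ _ _).1 h).1
    have h3 := h1.app gf_empty h
    obtain ⟨t2, h4, h5⟩ := ih (fun q hq => hw q (List.mem_cons_of_mem _ hq)) t1
      (h3.ok gf_empty h)
    exact ⟨t2, h3.trans h4, h5.trans h2⟩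

/-- The crossings which bring a maximum from the position `0` to the position `i`. -/
def W : ℕ → FWord
  | 0 => []
  | i + 1 => W i ++ [X (i + 1), X i]

theorem isX_W (i : ℕ) : IsX (W i) := by
  induction i with
  | zero => intro p hp; simp [W] at hp
  | succ i ih =>
    refine ih.append ?_
    intro p hp
    simp only [List.mem_cons, List.not_mem_nil, or_false] at hp
    rcases hp with rfl | rfl
    · exact ⟨_, rfl⟩
    · exact ⟨_, rfl⟩

theorem birth_W {F : Front} (hF : GF F) (i : ℕ) (b : Bool) (h : ok [birth i b] F) :
    LE F [birth i b] (birth 0 b :: W i) := by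
  induction i with
  | zero => exact LE.refl _ _
  | succ i ih =>
    have h0 : i + 1 ≤ F.n := h.1
    have e1 : LE F [birth (i + 1) b] [birth (i + 1) b, X i, X i] := by
      have := LE.pre (a := [birth (i + 1) b]) h (sec_le (F := fr [birth (i + 1) b] F) (i := i)
        (by show i + 2 ≤ F.n + 2; omega))
      simpa using this
    have o1 := e1.ok hF h
    have e2 : LE F [birth (i + 1) b, X i, X i] [birth i b, X (i + 1), X i] :=
      ((FMove.slB i b).ge (by simp) ⟨o1.1, o1.2.1, trivial⟩).app hF (b := [X i]) o1
    have o2 := e2.ok hF o1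
    have e3 : LE F ([birth i b] ++ [X (i + 1), X i]) (birth 0 b :: W i ++ [X (i + 1), X i]) :=
      (ih ⟨by show i ≤ F.n; omega, trivial⟩).app hF o2
    refine (e1.trans e2).trans ?_
    simpa [W] using e3

/-- The crossings which bring the strands for a minimum at `i` to the position `0`. -/
def U : ℕ → FWord
  | 0 => []
  | i + 1 => [X i, X (i + 1)] ++ U i

theorem isX_U (i : ℕ) : IsX (U i) := by
  induction i with
  | zero => intro p hp; simp [U] at hp
  | succ i ih =>
    refine IsX.append ?_ ih
    intro p hp
    simp only [List.mem_cons, List.not_mem_nil, or_false] at hp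
    rcases hp with rfl | rfl
    · exact ⟨_, rfl⟩
    · exact ⟨_, rfl⟩

theorem death_U {F : Front} (hF : GF F) (i : ℕ) (h : ok [death i] F) :
    LE F [death i] (U i ++ [death 0]) := by
  induction i generalizing F with
  | zero => exact LE.refl _ _
  | succ i ih =>
    have h0 : i + 1 + 2 ≤ F.n := h.1.1
    have e1 : LE F [death (i + 1)] ([X i, X i] ++ [death (i + 1)]) :=
      (sec_le (F := F) (i := i) (by omega)).app hF (b := [death (i + 1)]) h
    have o1 := e1.ok hF h
    have e2 : LE F [X i, X i, death (i + 1)] [X i, X (i + 1), death i] :=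
      LE.cons o1.1 ((FMove.slD i).ge (by simp) o1.2)
    have o2 := e2.ok hF o1
    have e3 : LE F [X i, X (i + 1), death i] ([X i, X (i + 1)] ++ (U i ++ [death 0])) :=
      LE.cons o2.1 (LE.cons o2.2.1 (ih ((hF.act o2.1).act o2.2.1) o2.2.2))
    exact (e1.trans e2).trans (by simpa [U] using e3)

/-- The minimum at `0` and the last arc. -/
theorem arc_death {F : Front} (hF : GF F) (e : ℕ) (b : Bool) (h : ok (arc (e + 1) b ++ [death 0]) F) :
    LE F (arc (e + 1) b ++ [death 0]) (L 0 e) := by
  have e1 : LE F (birth 0 b :: X 1 :: (L 2 e ++ [death 0]))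
      (birth 0 b :: X 1 :: death 0 :: L 0 e) := by
    refine LE.cons h.1 (LE.cons h.2.1 ?_)
    have := comm_left ((hF.act h.1).act h.2.1) (p := death 0) (Y := L 2 e) (fun q hq => by
      obtain ⟨i, k1, k2, rfl⟩ := mem_L hq
      exact k1) h.2.2
    have e : ∀ a n, (L (a + 2) n).map (death 0).past = L a n := by
      intro a n
      induction n generalizing a with
      | zero => rfl
      | succ n ih =>
        rw [L_cons, List.map_cons, show a + 2 + 1 = (a + 1) + 2 by omega, ih, L_cons]
        rfl
    rw [e] at this
    exact this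
  have o1 := e1.ok hF h
  have e2 : LE F (birth 0 b :: X 1 :: death 0 :: L 0 e) (birth 0 b :: X 0 :: death 1 :: L 0 e) :=
    LE.cons o1.1 (((FMove.slD 0).le ⟨o1.2.1, o1.2.2.1, trivial⟩).app (hF.act o1.1) (b := L 0 e)
      o1.2)
  have o2 := e2.ok hF o1
  have e3 : LE F (birth 0 b :: X 0 :: death 1 :: L 0 e) (birth 0 (!b) :: death 1 :: L 0 e) :=
    ((FMove.fB 0 b).le ⟨o2.1, o2.2.1, trivial⟩).app hF (b := death 1 :: L 0 e) o2
  have o3 := e3.ok hF o2
  have e4 : LE F (birth 0 (!b) :: death 1 :: L 0 e) (L 0 e) :=
    ((FMove.zig₁ 0 (!b)).le ⟨o3.1, o3.2.1, trivial⟩).app hF (b := L 0 e) o3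
  exact (e1.trans e2).trans (e3.trans e4)

theorem fc_nonneg_append {v w : FWord} {F : Front} (h : fc (v ++ w) F = 0) :
    fc v F = 0 ∧ fc w (fr v F) = 0 := by
  rw [fc_append] at h
  omega

theorem fc_L (a n : ℕ) (F : Front) : fc (L a n) F = 0 := by
  induction n generalizing a F with
  | zero => rfl
  | succ n ih =>
    show 0 + fc (L (a + 1) n) ((X a).pc.act F) = 0
    rw [ih]

/-- Every flat word without double points and closed components has a normal form. -/
theorem exists_can (w : FWord) (hd : ∀ i, dbl i ∉ w) (h : ok w Front.empty)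
    (hc : fc w Front.empty = 0) : ∃ t, LE Front.empty w (can t) := by
  induction w using List.reverseRecOn with
  | nil => exact ⟨[], LE.refl _ _⟩
  | append_singleton w p ih =>
    have h' := (ok_append _ _ _).1 h
    have hc' := fc_nonneg_append hc
    obtain ⟨t, ht⟩ := ih (fun i hi => hd i (List.mem_append_left _ hi)) h'.1 hc'.1
    have e1 := ht.app gf_empty h
    have o1 := e1.ok gf_empty h
    have c1 : fc (can t ++ [p]) Front.empty = 0 := by
      rw [← (e1.spec gf_empty).2.2]; exact hc
    have o1' := (ok_append _ _ _).1 o1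
    have hG : GF (fr (can t) Front.empty) := gf_empty.fr o1'.1
    cases p with
    | birth i b =>
      have e2 := LE.pre o1'.1 (birth_W hG i b o1'.2)
      have o2 := e2.ok gf_empty o1
      have e3 : can t ++ (birth 0 b :: W i) = can ((0, b) :: t) ++ W i := by
        rw [can_cons]
        simp [arc, L]
      rw [e3] at e2 o2
      obtain ⟨t', h1, h2⟩ := can_Xs (W i) (isX_W i) _ o2
      exact ⟨t', (e1.trans e2).trans h1⟩
    | death i =>
      have e2 := LE.pre o1'.1 (death_U hG i o1'.2)
      rw [← List.append_assoc] at e2
      have o2 := e2.ok gf_empty o1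
      have c2 : fc (can t ++ U i ++ [death 0]) Front.empty = 0 := by
        rw [← (e2.spec gf_empty).2.2]; exact c1
      obtain ⟨t1, h1, h2⟩ := can_Xs (U i) (isX_U i) _ ((ok_append _ _ _).1 o2).1
      have e3 := h1.app gf_empty o2
      have o3 := e3.ok gf_empty o2
      have c3 : fc (can t1 ++ [death 0]) Front.empty = 0 := by
        rw [← (e3.spec gf_empty).2.2]; exact c2
      cases t1 with
      | nil =>
        exfalso
        have : 0 + 2 ≤ 0 := o3.1.1
        omega
      | cons x t1 =>
        obtain ⟨e, b⟩ := x
        have o3' : ok (can t1 ++ (arc e b ++ [death 0])) Front.empty := by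
          rw [can_cons, List.append_assoc] at o3; exact o3
        have o4 := (ok_append _ _ _).1 o3'
        have hG1 : GF (fr (can t1) Front.empty) := gf_empty.fr o4.1
        cases e with
        | zero =>
          exfalso
          rw [can_cons, List.append_assoc] at c3
          have c4 := (fc_nonneg_append c3).2
          set F := fr (can t1) Front.empty with hFd
          have c5 : (if ((death 0).pc).closes ((birth 0 b).pc.act F) then 1 else 0) = 0 := by
            have : 0 + ((if ((death 0).pc).closes ((birth 0 b).pc.act F) then 1 else 0) + 0) = 0 :=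
              c4
            omega
          have c6 : ((death 0).pc).closes ((birth 0 b).pc.act F) = true := by
            show decide _ = true
            apply decide_eq_true
            cases b <;> simp [Front.inn, Front.out, Piece.act, pc]
          rw [c6] at c5
          simp at c5
        | succ e =>
          have e4 := LE.pre o4.1 (arc_death hG1 e b o4.2)
          have e5 : can t1 ++ (arc (e + 1) b ++ [death 0]) = can ((e + 1, b) :: t1) ++ [death 0] := by
            rw [can_cons, List.append_assoc]
          rw [e5] at e4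
          have o5 := e4.ok gf_empty o3
          obtain ⟨t2, h3, h4⟩ := can_Xs (L 0 e) (isX_L 0 e) _ o5
          exact ⟨t2, (e1.trans e2).trans ((e3.trans e4).trans h3)⟩
    | X i =>
      obtain ⟨t', h1, h2⟩ := can_X _ t rfl i o1
      exact ⟨t', e1.trans h1⟩
    | dbl i => exact absurd (List.mem_append_right _ (List.mem_singleton_self _)) (hd i)

/-! ### The normal form is determined by the strands -/

theorem birth_inj {i : ℕ} {b : Bool} {F G : Front}
    (h : (birth i b).pc.act F = (birth i b).pc.act G) : F = G := by
  have h1 : F.n + 2 = G.n + 2 := congrArg Front.n h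
  have h2 : ∀ p, ((birth i b).pc.act F).dir p = ((birth i b).pc.act G).dir p := fun p => by rw [h]
  have h3 : ∀ p, ((birth i b).pc.act F).fin p = ((birth i b).pc.act G).fin p := fun p => by rw [h]
  refine Front.ext' (by omega) (fun p => ?_) (fun p => ?_)
  · have := h2 (up i p)
    rcases Nat.lt_or_ge p i with hp | hp
    · rw [up_lt hp] at this
      simp only [pc, Piece.act, if_pos hp] at this
      exact this
    · rw [up_ge hp] at this
      simp only [pc, Piece.act] at this
      rw [if_neg (by omega), if_neg (by omega), if_neg (by omega), if_neg (by omega),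
        if_neg (by omega), if_neg (by omega), Nat.add_sub_cancel] at this
      exact this
  · have := h3 (up i p)
    rcases Nat.lt_or_ge p i with hp | hp
    · rw [up_lt hp] at this
      simp only [pc, Piece.act, if_pos hp] at this
      exact up_inj.1 this
    · rw [up_ge hp] at this
      simp only [pc, Piece.act] at this
      rw [if_neg (by omega), if_neg (by omega), if_neg (by omega), if_neg (by omega),
        Nat.add_sub_cancel] at this
      exact up_inj.1 this

theorem X_inj {i : ℕ} {F G : Front} (h : (X i).pc.act F = (X i).pc.act G) : F = G := by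
  have h1 : F.n = G.n := by
    have := congrArg (fun H : Front => H.n) h
    exact this
  have h2 : ∀ p, F.dir (sw i p) = G.dir (sw i p) := fun p => by
    have := congrArg (fun H : Front => H.dir p) h
    exact this
  have h3 : ∀ p, sw i (F.fin (sw i p)) = sw i (G.fin (sw i p)) := fun p => by
    have := congrArg (fun H : Front => H.fin p) h
    exact this
  refine Front.ext' h1 (fun p => ?_) (fun p => ?_)
  · have := h2 (sw i p); rwa [sw_sw] at this
  · have := h3 (sw i p); rw [sw_sw] at this; exact sw_inj.1 this

theorem Xs_inj {w : FWord} (hw : IsX w) {F G : Front} (h : fr w F = fr w G) : F = G := by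
  induction w generalizing F G with
  | nil => exact h
  | cons p w ih =>
    obtain ⟨i, rfl⟩ := hw p List.mem_cons_self
    exact X_inj (ih (fun q hq => hw q (List.mem_cons_of_mem _ hq)) h)

theorem arc_inj {e : ℕ} {b : Bool} {F G : Front} (h : fr (arc e b) F = fr (arc e b) G) : F = G :=
  birth_inj (Xs_inj (isX_L 1 e) h)

/-- The strands below an arc. -/
theorem fr_arc_zero (e : ℕ) (b : Bool) (F : Front) (he : e ≤ F.n) :
    (fr (arc e b) F).dir 0 = b ∧ (fr (arc e b) F).dir (e + 1) = !b ∧
      (fr (arc e b) F).fin 0 = (if b then 0 else e + 1) ∧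
      (fr (arc e b) F).fin (e + 1) = (if b then 0 else e + 1) := by
  induction e with
  | zero => cases b <;> simp [arc, L, fr, pw, pc, Knot.run, Piece.act]
  | succ e ih =>
    obtain ⟨h1, h2, h3, h4⟩ := ih (by omega)
    have e1 : fr (arc (e + 1) b) F = (X (e + 1)).pc.act (fr (arc e b) F) := by
      have : arc (e + 1) b = arc e b ++ [X (e + 1)] := by
        unfold arc
        rw [L_succ, List.cons_append, show 1 + e = e + 1 by omega]
      rw [this, fr_append]
      rfl
    rw [e1]
    have s0 : sw (e + 1) 0 = 0 := sw_of_ne (by omega) (by omega)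
    have s1 : sw (e + 1) (e + 1) = e + 2 := sw_left (e + 1)
    have s2 : sw (e + 1) (e + 2) = e + 1 := sw_right (e + 1)
    refine ⟨?_, ?_, ?_, ?_⟩
    · show (fr (arc e b) F).dir (sw (e + 1) 0) = b
      rw [s0, h1]
    · show (fr (arc e b) F).dir (sw (e + 1) (e + 1 + 1)) = !b
      rw [s2, h2]
    · show sw (e + 1) ((fr (arc e b) F).fin (sw (e + 1) 0)) = _
      rw [s0, h3]
      cases b
      · simp [s1]
      · simp [s0]
    · show sw (e + 1) ((fr (arc e b) F).fin (sw (e + 1) (e + 1 + 1))) = _
      rw [s2, h4]
      cases b
      · simp [s1]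
      · simp [s0]

theorem can_inj (t t' : List (ℕ × Bool)) (h : ok (can t) Front.empty)
    (h' : ok (can t') Front.empty) (e : fr (can t) Front.empty = fr (can t') Front.empty) :
    t = t' := by
  induction t generalizing t' with
  | nil =>
    cases t' with
    | nil => rfl
    | cons x t' =>
      exfalso
      have h1 := congrArg Front.n e
      rw [fr_can_n, fr_can_n, List.length_cons, List.length_nil] at h1
      omega
  | cons x t ih =>
    cases t' with
    | nil =>
      exfalso
      have h1 := congrArg Front.n e
      rw [fr_can_n, fr_can_n, List.length_cons, List.length_nil] at h1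
      omega
    | cons x' t' =>
      obtain ⟨d, b⟩ := x
      obtain ⟨d', b'⟩ := x'
      rw [can_cons] at h e
      rw [can_cons] at h' e
      have g := gf_empty.fr h
      rw [fr_append, fr_append] at e
      have k1 := (ok_append _ _ _).1 h
      have k2 := (ok_append _ _ _).1 h'
      obtain ⟨a1, a2, a3, a4⟩ := fr_arc_zero d b _ (ok_arc_le k1.2)
      obtain ⟨b1, b2, b3, b4⟩ := fr_arc_zero d' b' _ (ok_arc_le k2.2)
      rw [← e] at b1 b2 b3 b4
      have hb : b = b' := a1.symm.trans b1
      subst hb
      have hd : d = d' := by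
        cases b with
        | false =>
          rw [a3] at b3
          simpa using b3
        | true =>
          obtain ⟨s, hs, hsf⟩ := g
          rw [fr_append] at hsf
          rw [← hsf] at a2 a4 b2 b4
          have := hs.inj (d + 1) (d' + 1) a2 b2 (a4.trans b4.symm)
          omega
      subst hd
      rw [ih t' k1.1 k2.1 (arc_inj e)]

/-- Coherence. -/
theorem coherence {v w : FWord} (hv : ∀ i, dbl i ∉ v) (hw : ∀ i, dbl i ∉ w)
    (ov : ok v Front.empty) (ow : ok w Front.empty) (cv : fc v Front.empty = 0)
    (cw : fc w Front.empty = 0) (e : fr v Front.empty = fr w Front.empty) :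
    LE Front.empty v w := by
  obtain ⟨t, ht⟩ := exists_can v hv ov cv
  obtain ⟨t', ht'⟩ := exists_can w hw ow cw
  have h1 := ht.ok gf_empty ov
  have h2 := ht'.ok gf_empty ow
  have h3 := ht.fr gf_empty
  have h4 := ht'.fr gf_empty
  have : t = t' := can_inj t t' h1 h2 (by rw [← h3, ← h4, e])
  subst this
  exact ht.trans ht'.symm

end Pool.Agent.H835R2.Flat
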