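import Pool.Agent.H835R2.Flat.Alt

/-! # The alternating sums of invariants of finite degree -/

set_option autoImplicit false
set_option linter.unusedSimpArgs false
set_option linter.unusedVariables false

namespace Pool.Agent.H835R2.Flat

open Pool.Agent.H835R2.Knot
open Pool.Agent.H835R2.Flat.FP

variable {A : Type} [AddCommGroup A] {v : Word → A} {k : ℕ}

theorem alt_le (hv : IsInvariant v) (hd : Deg k v) {D E : FWord} (h : LE Front.empty D E)
    (hD : Kn D) (hn : nd D = k) : alt D v = 0 ↔ alt E v = 0 := by
  have key : ∀ {D E : FWord}, LE Front.empty D E → Kn D → nd D = k →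
      (alt D v = 0 ↔ alt E v = 0) := by
    intro D E h
    induction h with
    | rel D E h =>
      intro hD hn
      have hE : Kn E := (kn_le (Relation.EqvGen.rel _ _ h)).1 hD
      obtain ⟨a, l, r, b, m, h⟩ := h
      rcases alt_move hv hd m hD hE hn with h1 | h1
      · rw [h1]
      · rw [h1, neg_eq_zero]
    | refl D => exact fun _ _ => Iff.rfl
    | symm D E h ih =>
      intro hE hn
      have hD := (kn_le h).2 hE
      exact (ih hD ((LE.nd h).trans hn)).symm
    | trans D E F h1 h2 ih1 ih2 =>
      intro hD hn
      exact (ih1 hD hn).trans (ih2 ((kn_le h1).1 hD) ((LE.nd h1).symm.trans hn))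
  exact key h hD hn

theorem inv_alt (hv : IsInvariant v) (hd : Deg k v) : Inv k (fun D => alt D v = 0) where
  le D E h hD hn hE := (alt_le hv hd h hD hn).2 hE
  kink x y i b hK hn := by
    show alt (x ++ [birth i b, dbl i] ++ y) v = 0
    rw [alt_ctx]
    have h := kn_mid hK
    have e : ∀ m : Word, (m = [.birth i b, .pos i] ∨ m = [.birth i b, .neg i]) →
        ctx v x y m = ctx v x y [.birth i (!b)] := by
      rintro m hm
      refine ctx_iso hv ?_ fun a c ha hc => ?_
      · rcases hm with rfl | rfl
        · exact h
        · exact kn_same' h fun F => ⟨rfl, Iff.rfl, rfl⟩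
      · have h1 : IsKnot (a ++ m ++ c) := by
          rw [ha.knot hc]
          rcases hm with rfl | rfl
          · exact h
          · exact kn_same' h fun F => ⟨rfl, Iff.rfl, rfl⟩
        have hm' : Move m [.birth i (!b)] := by
          rcases hm with rfl | rfl
          · exact .firstBirthPos i b
          · exact .firstBirthNeg i b
        have h2 : Closed (a ++ [.birth i (!b)] ++ c) := by
          obtain ⟨⟨h3, h4⟩, -⟩ := h1
          rw [fits_append, fits_append] at h3
          have g : GF (Knot.run a Front.empty) := by
            have := (ha.run_eq Front.empty).1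
            rw [this]
            exact gf_empty.fr (((ha.run_eq Front.empty).2.1).1 h3.1.1)
          have o : Knot.Fits [.birth i (!b)] (Knot.run a Front.empty) := by
            rcases hm with rfl | rfl
            · exact ⟨h3.1.2.1, trivial⟩
            · exact ⟨h3.1.2.1, trivial⟩
          have e1 := (run_of_move hm' g h3.1.2 o).1
          rw [run_append] at h3
          rw [run_append, run_append] at h4
          rw [e1] at h3 h4
          refine ⟨?_, ?_⟩
          · rw [fits_append, fits_append, run_append]
            exact ⟨⟨h3.1.1, o⟩, h3.2⟩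
          · rw [run_append, run_append]
            exact h4
        exact Relation.EqvGen.rel _ _ (Step.mk a m _ c hm' h1.1 h2)
    show ctx v x y [.birth i b, .pos i] - ctx v x y [.birth i b, .neg i] = 0
    rw [e _ (Or.inl rfl), e _ (Or.inr rfl), sub_self]

/-! ### The definition of the degree -/

/-- The places of the double points. -/
def dset (D : FWord) : Finset ℕ :=
  (Finset.range D.length).filter fun m => nd [D.getD m (X 0)] = 1

theorem mem_dset_nil (m : ℕ) : m ∉ dset [] := by simp [dset]
theorem zero_mem_dset (p : FP) (w : FWord) : 0 ∈ dset (p :: w) ↔ nd [p] = 1 := by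
  simp [dset]
theorem succ_mem_dset (m : ℕ) (p : FP) (w : FWord) : m + 1 ∈ dset (p :: w) ↔ m ∈ dset w := by
  simp [dset]

theorem dset_cons (p : FP) (w : FWord) : dset (p :: w) =
    (if nd [p] = 1 then {0} else ∅) ∪ (dset w).map ⟨Nat.succ, Nat.succ_injective⟩ := by
  ext m
  simp only [Finset.mem_union, Finset.mem_map, Function.Embedding.coeFn_mk]
  cases m with
  | zero =>
    rw [zero_mem_dset]
    by_cases h : nd [p] = 1 <;> simp [h]
  | succ m =>
    rw [succ_mem_dset]
    constructor
    · intro h; exact Or.inr ⟨m, h, rfl⟩
    · rintro (h | ⟨m', h, h'⟩)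
      · split_ifs at h <;> simp at h
      · obtain rfl : m' = m := Nat.succ_injective h'
        exact h

theorem switchAt_cons (T : Finset ℕ) (p : Piece) (w : Word) :
    switchAt T (p :: w) = (if 0 ∈ T then p.switch else p) ::
      switchAt (T.filterMap (fun n => match n with | 0 => none | m + 1 => some m) (by
        intro a a' b h1 h2
        cases a <;> cases a' <;> simp at h1 h2
        omega)) w := by
  unfold switchAt
  rw [List.mapIdx_cons]
  congr 1
  apply List.ext_getElem
  · simp
  · intro i h1 h2
    simp only [List.getElem_mapIdx, Finset.mem_filterMap]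
    have : (i + 1 ∈ T) ↔ ∃ a ∈ T, (match a with | 0 => none | m + 1 => some m) = some i := by
      constructor
      · intro h; exact ⟨i + 1, h, rfl⟩
      · rintro ⟨a, ha, h⟩
        cases a with
        | zero => simp at h
        | succ a =>
          have : a = i := by simpa using h
          subst this
          exact ha
    simp only [this]

theorem switchAt_cons_of (T : Finset ℕ) (T' : Finset ℕ) (p : Piece) (w : Word)
    (h : ∀ m, m + 1 ∈ T ↔ m ∈ T') :
    switchAt T (p :: w) = (if 0 ∈ T then p.switch else p) :: switchAt T' w := by
  unfold switchAt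
  rw [List.mapIdx_cons]
  congr 1
  apply List.ext_getElem
  · simp
  · intro i h1 h2
    simp only [List.getElem_mapIdx, h]

/-- The alternating sum as a sum over the sets of double points. -/
theorem alt_eq_sum (D : FWord) (g : Word → A) :
    alt D g = ∑ T ∈ (dset D).powerset, (-1 : ℤ) ^ T.card • g (switchAt T (pw D)) := by
  induction D generalizing g with
  | nil =>
    have : dset [] = ∅ := rfl
    rw [this]
    simp [alt_nil, switchAt, pw]
  | cons p w ih =>
    have shift : ∀ g : Word → A, ∀ q : Piece, (∑ T ∈ ((dset w).map
        ⟨Nat.succ, Nat.succ_injective⟩).powerset, (-1 : ℤ) ^ T.card • g (switchAt T (q :: pw w)))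
        = alt w (fun u => g (q :: u)) := by
      intro g q
      rw [ih]
      have pm : ((dset w).map ⟨Nat.succ, Nat.succ_injective⟩).powerset =
          (dset w).powerset.map (Finset.mapEmbedding ⟨Nat.succ, Nat.succ_injective⟩).toEmbedding := by
        rw [Finset.map_eq_image, Finset.powerset_image, Finset.map_eq_image]
        refine Finset.image_congr fun T _ => ?_
        show T.image _ = Finset.map _ T
        rw [Finset.map_eq_image]
      rw [pm, Finset.sum_map]
      refine Finset.sum_congr rfl fun T hT => ?_
      have e1 : ((Finset.mapEmbedding ⟨Nat.succ, Nat.succ_injective⟩).toEmbedding T).card =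
          T.card := by
        show (Finset.map _ T).card = T.card
        exact Finset.card_map _
      have e2 : switchAt ((Finset.mapEmbedding ⟨Nat.succ, Nat.succ_injective⟩).toEmbedding T)
          (q :: pw w) = q :: switchAt T (pw w) := by
        rw [switchAt_cons_of _ T q (pw w), if_neg]
        · show 0 ∉ Finset.map _ T
          simp
        · intro m
          show m + 1 ∈ Finset.map _ T ↔ m ∈ T
          simp
      rw [e1, e2]
    by_cases hp : nd [p] = 1
    · obtain ⟨i, rfl⟩ : ∃ i, p = dbl i := by
        cases p with
        | dbl i => exact ⟨i, rfl⟩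
        | _ => simp [nd] at hp
      have hD : dset (dbl i :: w) = insert 0 ((dset w).map ⟨Nat.succ, Nat.succ_injective⟩) := by
        rw [dset_cons, if_pos hp]
        rfl
      have h0 : 0 ∉ (dset w).map ⟨Nat.succ, Nat.succ_injective⟩ := by simp
      rw [hD, Finset.sum_powerset_insert h0, alt_dbl]
      have e1 := shift g (.pos i)
      have e2 := shift g (.neg i)
      rw [← e1, ← e2, sub_eq_add_neg, ← Finset.sum_neg_distrib]
      congr 1
      refine Finset.sum_congr rfl fun T hT => ?_
      have hT0 : 0 ∉ T := fun h => h0 (Finset.mem_powerset.1 hT h)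
      rw [Finset.card_insert_of_notMem hT0, pow_succ]
      have e3 : switchAt (insert 0 T) (pw (dbl i :: w)) = switchAt T (.neg i :: pw w) := by
        show switchAt (insert 0 T) (.pos i :: pw w) = _
        rw [switchAt_cons_of (insert 0 T) (T.preimage Nat.succ (Nat.succ_injective.injOn)) _ _
          (fun m => by simp), switchAt_cons_of T (T.preimage Nat.succ (Nat.succ_injective.injOn))
          _ _ (fun m => by simp), if_pos (Finset.mem_insert_self _ _), if_neg hT0]
        rfl
      rw [e3]
      simp
    · have hD : dset (p :: w) = (dset w).map ⟨Nat.succ, Nat.succ_injective⟩ := by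
        rw [dset_cons, if_neg hp, Finset.empty_union]
      rw [hD]
      have e1 := shift g p.pc
      rw [show pw (p :: w) = p.pc :: pw w from rfl, e1]
      cases p with
      | dbl i => simp [nd] at hp
      | _ => rfl

theorem dset_card (D : FWord) : (dset D).card = nd D := by
  induction D with
  | nil => rfl
  | cons p w ih =>
    rw [dset_cons, Finset.card_union_of_disjoint]
    · rw [Finset.card_map, ih]
      have : nd (p :: w) = nd [p] + nd w := nd_append [p] w
      rw [this]
      congr 1
      have h2 : nd [p] ≤ 1 := List.countP_le_length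
      split_ifs with h
      · rw [h]; rfl
      · simp; omega
    · rw [Finset.disjoint_left]
      intro m h1 h2
      split_ifs at h1
      · rw [Finset.mem_singleton.1 h1] at h2
        simp at h2
      · simp at h1

theorem dset_subset (D : FWord) : dset D ⊆ crossingSet (pw D) := by
  intro m hm
  unfold dset at hm
  rw [Finset.mem_filter, Finset.mem_range] at hm
  unfold crossingSet
  have hl : (pw D).length = D.length := List.length_map _
  rw [Finset.mem_filter, Finset.mem_range]
  refine ⟨by rw [hl]; exact hm.1, by rw [hl]; exact hm.1, ?_⟩
  have h1 : D.getD m (X 0) = D[m] := List.getD_eq_getElem _ _ hm.1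
  rw [h1] at hm
  have h2 : (pw D)[m]'(by rw [hl]; exact hm.1) = (D[m]'hm.1).pc := List.getElem_map _
  rw [h2]
  cases hp : D[m]'hm.1 with
  | dbl i => rfl
  | X i => rfl
  | birth i b => rw [hp] at hm; simp [nd] at hm
  | death i => rw [hp] at hm; simp [nd] at hm

/-- Invariants of degree at most `k` in the sense of the definition. -/
theorem deg_of_degreeLE (h : DegreeLE k v) : Deg k v := by
  intro D hD hn
  rw [alt_eq_sum]
  exact h (pw D) hD (dset D) (dset_subset D) (by rw [dset_card, hn])

end Pool.Agent.H835R2.Flat
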