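import Pool.Agent.H835R2.Knot.Inv

/-! # Explicit isotopies -/

set_option autoImplicit false

namespace Pool.Agent.H835R2.Flat

open Pool.Agent.H835R2.Knot
open Pool.Agent.H835R2.Knot.Piece

/-- Codes for the local moves. -/
inductive Mv : Type
  | ex (p q : Piece)
  | za (i : ℕ) (b : Bool)
  | zb (i : ℕ) (b : Bool)
  | sba (i : ℕ) (b : Bool)
  | sbb (i : ℕ) (b : Bool)
  | sda (i : ℕ)
  | sdb (i : ℕ)
  | fbp (i : ℕ) (b : Bool)
  | fbn (i : ℕ) (b : Bool)
  | fdp (i : ℕ)
  | fdn (i : ℕ)
  | sa (i : ℕ)
  | sb (i : ℕ)
  | th (i : ℕ)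

/-- The two sides. -/
def Mv.lr : Mv → Word × Word
  | .ex p q => ([p, q.moved (q.index + p.outs - p.ins)], [q, p])
  | .za i b => ([birth i b, death (i + 1)], [])
  | .zb i b => ([birth (i + 1) b, death i], [])
  | .sba i b => ([birth i b, pos (i + 1)], [birth (i + 1) b, neg i])
  | .sbb i b => ([birth i b, neg (i + 1)], [birth (i + 1) b, pos i])
  | .sda i => ([pos (i + 1), death i], [neg i, death (i + 1)])
  | .sdb i => ([neg (i + 1), death i], [pos i, death (i + 1)])
  | .fbp i b => ([birth i b, pos i], [birth i (!b)])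
  | .fbn i b => ([birth i b, neg i], [birth i (!b)])
  | .fdp i => ([pos i, death i], [death i])
  | .fdn i => ([neg i, death i], [death i])
  | .sa i => ([pos i, neg i], [])
  | .sb i => ([neg i, pos i], [])
  | .th i => ([pos i, pos (i + 1), pos i], [pos (i + 1), pos i, pos (i + 1)])

/-- The side condition. -/
def Mv.ok : Mv → Bool
  | .ex p q => decide (p.index + p.ins ≤ q.index)
  | _ => true

theorem Mv.move (m : Mv) (h : m.ok = true) : Move m.lr.1 m.lr.2 := by
  cases m with
  | ex p q => exact .exchange p q (of_decide_eq_true h)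
  | za i b => exact .zigzag₁ i b
  | zb i b => exact .zigzag₂ i b
  | sba i b => exact .slideBirth₁ i b
  | sbb i b => exact .slideBirth₂ i b
  | sda i => exact .slideDeath₁ i
  | sdb i => exact .slideDeath₂ i
  | fbp i b => exact .firstBirthPos i b
  | fbn i b => exact .firstBirthNeg i b
  | fdp i => exact .firstDeathPos i
  | fdn i => exact .firstDeathNeg i
  | sa i => exact .second₁ i
  | sb i => exact .second₂ i
  | th i => exact .third i

/-- Applying a move at a place, forwards or backwards. -/
def go (w : Word) (s : ℕ × Mv × Bool) : Option Word :=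
  let l := if s.2.2 then s.2.1.lr.1 else s.2.1.lr.2
  let r := if s.2.2 then s.2.1.lr.2 else s.2.1.lr.1
  if s.2.1.ok = true ∧ (w.drop s.1).take l.length = l ∧
      Closed (w.take s.1 ++ r ++ (w.drop s.1).drop l.length) then
    some (w.take s.1 ++ r ++ (w.drop s.1).drop l.length) else none

theorem iso_of_go {w w' : Word} {s : ℕ × Mv × Bool} (hw : Closed w) (h : go w s = some w') :
    Closed w' ∧ Isotopic w w' := by
  unfold go at h
  simp only at h
  split_ifs at h with h1 h2 h2
  · obtain ⟨ho, hl, hc⟩ := h2
    have h' := Option.some.inj h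
    rw [← h']
    refine ⟨hc, ?_⟩
    have e : w = w.take s.1 ++ s.2.1.lr.1 ++ (w.drop s.1).drop s.2.1.lr.1.length := by
      conv_lhs => rw [← List.take_append_drop s.1 w,
        ← List.take_append_drop s.2.1.lr.1.length (w.drop s.1), hl]
      rw [List.append_assoc]
    generalize w.take s.1 = x at *
    generalize (w.drop s.1).drop s.2.1.lr.1.length = y at *
    subst e
    exact Relation.EqvGen.rel _ _ (Step.mk x _ _ y (s.2.1.move ho) hw hc)
  · obtain ⟨ho, hl, hc⟩ := h2
    have h' := Option.some.inj h
    rw [← h']
    refine ⟨hc, ?_⟩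
    have e : w = w.take s.1 ++ s.2.1.lr.2 ++ (w.drop s.1).drop s.2.1.lr.2.length := by
      conv_lhs => rw [← List.take_append_drop s.1 w,
        ← List.take_append_drop s.2.1.lr.2.length (w.drop s.1), hl]
      rw [List.append_assoc]
    generalize w.take s.1 = x at *
    generalize (w.drop s.1).drop s.2.1.lr.2.length = y at *
    subst e
    exact (Relation.EqvGen.rel _ _ (Step.mk x _ _ y (s.2.1.move ho) hc hw)).symm

/-- Applying a list of moves. -/
def goes : Word → List (ℕ × Mv × Bool) → Option Word
  | w, [] => some w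
  | w, s :: L => (go w s).bind fun w' => goes w' L

theorem iso_of_goes {L : List (ℕ × Mv × Bool)} : ∀ {w w' : Word}, Closed w →
    goes w L = some w' → Isotopic w w' := by
  induction L with
  | nil =>
    intro w w' _ h
    rw [Option.some.inj h]
    exact Relation.EqvGen.refl _
  | cons s L ih =>
    intro w w' hw h
    unfold goes at h
    cases hg : go w s with
    | none => rw [hg] at h; exact absurd h (by simp)
    | some u =>
      rw [hg] at h
      obtain ⟨h1, h2⟩ := iso_of_go hw hg
      exact h2.trans _ _ _ (ih h1 h)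

theorem isoT : Isotopic [.birth 0 true, .birth 1 true, .birth 2 true, .pos 0, .pos 1, .pos 0, .pos 1, .death 2, .death 1, .death 0]
    [.birth 0 true, .birth 1 true, .pos 0, .pos 0, .pos 0, .death 1, .death 0] :=
  iso_of_goes (L := [
    (4, .th 0, false),
    (2, .ex (.pos 0) (.birth 2 true), false),
    (1, .sbb 0 true, false),
    (0, .ex (.birth 0 true) (.birth 0 true), false),
    (1, .sba 1 true, false),
    (2, .ex (.birth 2 true) (.pos 2), false),
    (3, .ex (.pos 0) (.pos 4), false),
    (4, .ex (.pos 1) (.pos 4), false),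
    (5, .ex (.pos 0) (.pos 4), false),
    (6, .ex (.death 2) (.pos 4), false),
    (7, .sda 1, true),
    (8, .ex (.death 0) (.death 2), false),
    (7, .sdb 0, true),
    (6, .ex (.pos 0) (.death 2), false),
    (2, .ex (.pos 0) (.birth 2 true), false),
    (1, .sbb 0 true, false),
    (0, .ex (.birth 0 true) (.birth 0 true), false),
    (1, .sba 1 true, false),
    (2, .ex (.birth 2 true) (.pos 2), false),
    (3, .ex (.pos 1) (.pos 4), false),
    (4, .ex (.pos 0) (.pos 4), false),
    (5, .ex (.pos 0) (.pos 4), false),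
    (6, .ex (.death 2) (.pos 4), false),
    (7, .sda 1, true),
    (8, .ex (.death 0) (.death 2), false),
    (7, .sdb 0, true),
    (6, .ex (.pos 0) (.death 2), false),
    (2, .sbb 1 true, false),
    (1, .ex (.birth 1 true) (.birth 1 true), false),
    (2, .sba 2 true, false),
    (3, .ex (.pos 0) (.pos 3), false),
    (4, .ex (.pos 0) (.pos 3), false),
    (5, .ex (.pos 0) (.pos 3), false),
    (6, .sda 2, true),
    (7, .ex (.death 1) (.death 3), false),
    (6, .sdb 1, true),
    (2, .ex (.pos 0) (.birth 2 true), false),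
    (3, .ex (.pos 0) (.birth 2 true), false),
    (4, .ex (.pos 0) (.birth 2 true), false),
    (5, .sbb 1 true, false),
    (6, .fdn 2, true),
    (5, .za 1 true, true)]) (by decide +kernel) (by decide +kernel)

theorem isoAmph : Isotopic [.birth 0 true, .birth 1 true, .birth 2 true, .pos 0, .neg 1, .pos 0, .neg 1, .death 2, .death 1, .death 0]
    [.birth 0 true, .birth 1 true, .birth 2 true, .neg 0, .pos 1, .neg 0, .pos 1, .death 2, .death 1, .death 0] :=
  iso_of_goes (L := [
    (3, .sb 1, false),
    (4, .sb 0, false),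
    (5, .th 0, true),
    (7, .sa 1, true),
    (5, .sb 0, false),
    (6, .th 0, true),
    (7, .th 0, true),
    (9, .sa 1, true),
    (2, .sba 1 true, false),
    (1, .ex (.birth 1 true) (.birth 1 true), false),
    (2, .sbb 2 true, false),
    (3, .ex (.neg 0) (.neg 3), false),
    (4, .ex (.neg 0) (.neg 3), false),
    (5, .ex (.pos 1) (.neg 3), false),
    (6, .ex (.pos 1) (.neg 3), false),
    (7, .ex (.pos 0) (.neg 3), false),
    (8, .sdb 2, true),
    (9, .ex (.death 1) (.death 3), false),
    (8, .sda 1, true),
    (6, .sb 0, false),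
    (7, .th 0, true),
    (9, .sa 1, true),
    (2, .ex (.neg 0) (.birth 2 true), false),
    (1, .sba 0 true, false),
    (0, .ex (.birth 0 true) (.birth 0 true), false),
    (1, .sbb 1 true, false),
    (2, .ex (.birth 2 true) (.neg 2), false),
    (3, .ex (.neg 0) (.neg 4), false),
    (4, .ex (.pos 1) (.neg 4), false),
    (5, .ex (.neg 0) (.neg 4), false),
    (6, .ex (.pos 1) (.neg 4), false),
    (7, .ex (.pos 0) (.neg 4), false),
    (8, .ex (.death 2) (.neg 4), false),
    (9, .sdb 1, true),
    (10, .ex (.death 0) (.death 2), false),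
    (9, .sda 0, true),
    (8, .ex (.neg 0) (.death 2), false),
    (7, .sa 0, true)]) (by decide +kernel) (by decide +kernel)

theorem iso_pnp : Isotopic [.birth 0 true, .birth 1 true, .birth 2 true, .pos 0, .neg 1, .pos 0, .pos 1, .death 2, .death 1, .death 0]
    [.birth 0 true, .death 0] :=
  iso_of_goes (L := [
    (7, .sa 0, false),
    (5, .th 0, true),
    (4, .sb 1, true),
    (2, .ex (.pos 0) (.birth 2 true), false),
    (1, .sbb 0 true, false),
    (0, .ex (.birth 0 true) (.birth 0 true), false),
    (1, .sba 1 true, false),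
    (2, .ex (.birth 2 true) (.pos 2), false),
    (3, .ex (.pos 0) (.pos 4), false),
    (4, .ex (.pos 1) (.pos 4), false),
    (5, .ex (.neg 0) (.pos 4), false),
    (6, .ex (.death 2) (.pos 4), false),
    (7, .sda 1, true),
    (8, .ex (.death 0) (.death 2), false),
    (7, .sdb 0, true),
    (6, .ex (.pos 0) (.death 2), false),
    (2, .ex (.pos 0) (.birth 2 true), false),
    (1, .sbb 0 true, false),
    (0, .ex (.birth 0 true) (.birth 0 true), false),
    (1, .sba 1 true, false),
    (2, .ex (.birth 2 true) (.pos 2), false),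
    (3, .ex (.pos 1) (.pos 4), false),
    (4, .ex (.neg 0) (.pos 4), false),
    (5, .ex (.pos 0) (.pos 4), false),
    (6, .ex (.death 2) (.pos 4), false),
    (7, .sda 1, true),
    (8, .ex (.death 0) (.death 2), false),
    (7, .sdb 0, true),
    (6, .ex (.pos 0) (.death 2), false),
    (2, .sbb 1 true, false),
    (1, .ex (.birth 1 true) (.birth 1 true), false),
    (2, .sba 2 true, false),
    (3, .ex (.neg 0) (.pos 3), false),
    (4, .ex (.pos 0) (.pos 3), false),
    (5, .ex (.pos 0) (.pos 3), false),
    (6, .sda 2, true),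
    (7, .ex (.death 1) (.death 3), false),
    (6, .sdb 1, true),
    (2, .ex (.neg 0) (.birth 2 true), false),
    (3, .ex (.pos 0) (.birth 2 true), false),
    (4, .ex (.pos 0) (.birth 2 true), false),
    (5, .sbb 1 true, false),
    (6, .fdn 2, true),
    (5, .za 1 true, true),
    (2, .sb 0, true),
    (1, .sbb 0 true, false),
    (2, .fdn 1, true),
    (1, .za 0 true, true)]) (by decide +kernel) (by decide +kernel)

theorem iso_nnn : Isotopic [.birth 0 true, .birth 1 true, .birth 2 true, .neg 0, .neg 1, .neg 0, .pos 1, .death 2, .death 1, .death 0]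
    [.birth 0 true, .death 0] :=
  iso_of_goes (L := [
    (4, .za 2 true, false),
    (5, .ex (.neg 1) (.death 3), false),
    (4, .sba 1 true, false),
    (6, .ex (.neg 0) (.death 3), false),
    (5, .ex (.neg 0) (.pos 2), false),
    (4, .sba 0 true, false),
    (7, .ex (.pos 1) (.death 3), false),
    (5, .th 1, true),
    (4, .ex (.birth 0 true) (.pos 0), true),
    (5, .sba 0 true, true),
    (6, .ex (.neg 0) (.pos 2), true),
    (5, .sba 1 true, true),
    (7, .ex (.neg 0) (.death 3), true),
    (6, .ex (.neg 1) (.death 3), true),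
    (5, .za 2 true, true),
    (3, .sb 0, true),
    (2, .sba 1 true, false),
    (1, .ex (.birth 1 true) (.birth 1 true), false),
    (2, .sbb 2 true, false),
    (3, .ex (.neg 0) (.neg 3), false),
    (4, .sdb 2, true),
    (5, .ex (.death 1) (.death 3), false),
    (4, .sda 1, true),
    (2, .ex (.neg 0) (.birth 2 true), false),
    (3, .sba 1 true, false),
    (4, .fdp 2, true),
    (3, .za 1 true, true),
    (1, .sba 0 true, false),
    (2, .fdp 1, true),
    (1, .za 0 true, true)]) (by decide +kernel) (by decide +kernel)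

theorem iso_ppn : Isotopic [.birth 0 true, .birth 1 true, .birth 2 true, .pos 0, .pos 1, .neg 0, .pos 1, .death 2, .death 1, .death 0]
    [.birth 0 true, .death 0] :=
  iso_of_goes (L := [
    (3, .sb 1, false),
    (4, .th 0, false),
    (6, .sa 0, true),
    (2, .sba 1 true, false),
    (1, .ex (.birth 1 true) (.birth 1 true), false),
    (2, .sbb 2 true, false),
    (3, .ex (.pos 0) (.neg 3), false),
    (4, .ex (.pos 1) (.neg 3), false),
    (5, .ex (.pos 1) (.neg 3), false),
    (6, .sdb 2, true),
    (7, .ex (.death 1) (.death 3), false),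
    (6, .sda 1, true),
    (5, .sa 1, true),
    (2, .ex (.pos 0) (.birth 2 true), false),
    (3, .sbb 1 true, false),
    (4, .fdn 2, true),
    (3, .za 1 true, true),
    (1, .sbb 0 true, false),
    (2, .fdn 1, true),
    (1, .za 0 true, true)]) (by decide +kernel) (by decide +kernel)

theorem iso_npp : Isotopic [.birth 0 true, .birth 1 true, .birth 2 true, .neg 0, .pos 1, .pos 0, .pos 1, .death 2, .death 1, .death 0]
    [.birth 0 true, .death 0] :=
  iso_of_goes (L := [
    (4, .th 0, false),
    (3, .sb 0, true),
    (2, .sbb 1 true, false),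
    (1, .ex (.birth 1 true) (.birth 1 true), false),
    (2, .sba 2 true, false),
    (3, .ex (.pos 0) (.pos 3), false),
    (4, .sda 2, true),
    (5, .ex (.death 1) (.death 3), false),
    (4, .sdb 1, true),
    (2, .ex (.pos 0) (.birth 2 true), false),
    (3, .sbb 1 true, false),
    (4, .fdn 2, true),
    (3, .za 1 true, true),
    (1, .sbb 0 true, false),
    (2, .fdn 1, true),
    (1, .za 0 true, true)]) (by decide +kernel) (by decide +kernel)

theorem iso_pnn : Isotopic [.birth 0 true, .birth 1 true, .birth 2 true, .pos 0, .neg 1, .neg 0, .pos 1, .death 2, .death 1, .death 0]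
    [.birth 0 true, .death 0] :=
  iso_of_goes (L := [
    (4, .za 2 true, false),
    (5, .ex (.neg 1) (.death 3), false),
    (4, .sba 1 true, false),
    (6, .ex (.neg 0) (.death 3), false),
    (5, .ex (.neg 0) (.pos 2), false),
    (4, .sba 0 true, false),
    (3, .ex (.birth 0 true) (.pos 0), false),
    (4, .th 1, false),
    (3, .sba 0 true, true),
    (4, .ex (.neg 0) (.pos 2), true),
    (3, .sba 1 true, true),
    (6, .ex (.pos 1) (.death 3), true),
    (5, .ex (.neg 0) (.death 3), true),
    (4, .ex (.neg 1) (.death 3), true),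
    (3, .za 2 true, true),
    (2, .sba 1 true, false),
    (1, .ex (.birth 1 true) (.birth 1 true), false),
    (2, .sbb 2 true, false),
    (3, .ex (.neg 0) (.neg 3), false),
    (4, .ex (.pos 1) (.neg 3), false),
    (5, .ex (.pos 1) (.neg 3), false),
    (6, .sdb 2, true),
    (7, .ex (.death 1) (.death 3), false),
    (6, .sda 1, true),
    (5, .sa 1, true),
    (2, .ex (.neg 0) (.birth 2 true), false),
    (3, .sbb 1 true, false),
    (4, .fdn 2, true),
    (3, .za 1 true, true),
    (1, .sba 0 true, false),
    (2, .fdp 1, true),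
    (1, .za 0 true, true)]) (by decide +kernel) (by decide +kernel)

theorem iso_nnp : Isotopic [.birth 0 true, .birth 1 true, .birth 2 true, .neg 0, .neg 1, .pos 0, .pos 1, .death 2, .death 1, .death 0]
    [.birth 0 true, .death 0] :=
  iso_of_goes (L := [
    (7, .sa 0, false),
    (5, .th 0, true),
    (4, .sb 1, true),
    (3, .sb 0, true),
    (2, .sbb 1 true, false),
    (1, .ex (.birth 1 true) (.birth 1 true), false),
    (2, .sba 2 true, false),
    (3, .ex (.neg 0) (.pos 3), false),
    (4, .sda 2, true),
    (5, .ex (.death 1) (.death 3), false),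
    (4, .sdb 1, true),
    (2, .ex (.neg 0) (.birth 2 true), false),
    (3, .sbb 1 true, false),
    (4, .fdn 2, true),
    (3, .za 1 true, true),
    (1, .sba 0 true, false),
    (2, .fdp 1, true),
    (1, .za 0 true, true)]) (by decide +kernel) (by decide +kernel)

theorem iso_t_ppn : Isotopic [.birth 0 true, .birth 1 true, .pos 0, .pos 0, .neg 0, .death 1, .death 0]
    [.birth 0 true, .death 0] :=
  iso_of_goes (L := [
    (3, .sa 0, true),
    (1, .sbb 0 true, false),
    (2, .fdn 1, true),
    (1, .za 0 true, true)]) (by decide +kernel) (by decide +kernel)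

theorem iso_t_pnp : Isotopic [.birth 0 true, .birth 1 true, .pos 0, .neg 0, .pos 0, .death 1, .death 0]
    [.birth 0 true, .death 0] :=
  iso_of_goes (L := [
    (2, .sa 0, true),
    (1, .sbb 0 true, false),
    (2, .fdn 1, true),
    (1, .za 0 true, true)]) (by decide +kernel) (by decide +kernel)

theorem iso_t_pnn : Isotopic [.birth 0 true, .birth 1 true, .pos 0, .neg 0, .neg 0, .death 1, .death 0]
    [.birth 0 true, .death 0] :=
  iso_of_goes (L := [
    (2, .sa 0, true),
    (1, .sba 0 true, false),
    (2, .fdp 1, true),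
    (1, .za 0 true, true)]) (by decide +kernel) (by decide +kernel)

theorem iso_t_npp : Isotopic [.birth 0 true, .birth 1 true, .neg 0, .pos 0, .pos 0, .death 1, .death 0]
    [.birth 0 true, .death 0] :=
  iso_of_goes (L := [
    (2, .sb 0, true),
    (1, .sbb 0 true, false),
    (2, .fdn 1, true),
    (1, .za 0 true, true)]) (by decide +kernel) (by decide +kernel)

theorem iso_t_npn : Isotopic [.birth 0 true, .birth 1 true, .neg 0, .pos 0, .neg 0, .death 1, .death 0]
    [.birth 0 true, .death 0] :=
  iso_of_goes (L := [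
    (2, .sb 0, true),
    (1, .sba 0 true, false),
    (2, .fdp 1, true),
    (1, .za 0 true, true)]) (by decide +kernel) (by decide +kernel)

theorem iso_t_nnp : Isotopic [.birth 0 true, .birth 1 true, .neg 0, .neg 0, .pos 0, .death 1, .death 0]
    [.birth 0 true, .death 0] :=
  iso_of_goes (L := [
    (3, .sb 0, true),
    (1, .sba 0 true, false),
    (2, .fdp 1, true),
    (1, .za 0 true, true)]) (by decide +kernel) (by decide +kernel)

end Pool.Agent.H835R2.Flat
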