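import Pool.Agent.H835R2.Flat.Box

/-! # Symmetries of the boxes -/

set_option autoImplicit false
set_option linter.unusedSimpArgs false
set_option linter.unusedVariables false

namespace Pool.Agent.H835R2.Flat

open Pool.Agent.H835R2.Knot
open Pool.Agent.H835R2.Flat.FP

/-- Crossings move to the left past letters on their right. -/
theorem comm_word {F : Front} (hF : GF F) {Y σ : FWord} {m : ℕ}
    (hσ : ∀ q ∈ σ, ∃ i, q = X i ∧ i + 2 ≤ m) (hY : ∀ q ∈ Y, m ≤ q.index)
    (h : ok (Y ++ σ) F) : LE F (Y ++ σ) (σ ++ Y) := by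
  induction σ generalizing F with
  | nil => rw [List.append_nil]; exact LE.refl _ _
  | cons p σ ih =>
    obtain ⟨i, rfl, hi⟩ := hσ p List.mem_cons_self
    have e0 : Y ++ X i :: σ = Y ++ [X i] ++ σ := by simp
    rw [e0] at h ⊢
    have h1 := comm_left hF (p := X i) (Y := Y) (fun q hq => by
      show i + 2 ≤ q.index
      exact hi.trans (hY q hq)) ((ok_append _ _ _).1 h).1
    rw [map_past_X] at h1
    have h2 := h1.app hF h
    have h3 := h2.ok hF h
    have h4 : LE F (X i :: (Y ++ σ)) (X i :: (σ ++ Y)) :=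
      LE.cons h3.1 (ih (hF.act h3.1) (fun q hq => hσ q (List.mem_cons_of_mem _ hq)) h3.2)
    exact h2.trans h4

/-- Words of crossings which are absorbed by the boxes. -/
def Abs (k : ℕ) (σ : FWord) : Prop :=
  IsX σ ∧ ∀ F, GF F → ok (Bx 0 k) F → LE F (Bx 0 k) (σ ++ Bx 0 k)

theorem abs_nil (k : ℕ) : Abs k [] :=
  ⟨fun p hp => by simp at hp, fun F _ _ => LE.refl _ _⟩

theorem Abs.append {k : ℕ} {σ τ : FWord} (h : Abs k σ) (h' : Abs k τ) : Abs k (σ ++ τ) := by
  refine ⟨h.1.append h'.1, fun F hF ho => ?_⟩
  have e1 := h.2 F hF ho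
  have o1 := (ok_append _ _ _).1 (e1.ok hF ho)
  have e2 := LE.pre o1.1 (h'.2 _ (hF.fr o1.1) o1.2)
  rw [List.append_assoc]
  exact e1.trans e2

/-- Words absorbed by one box. -/
theorem abs_box {c : ℕ} {σ : FWord} (hσ : ∀ q ∈ σ, ∃ i, q = X i ∧ i + 2 ≤ 4 * c + 4)
    (hb : ∀ F, GF F → ok (box (4 * c)) F → LE F (box (4 * c)) (σ ++ box (4 * c)))
    {k : ℕ} (hk : c < k) : Abs k σ := by
  refine ⟨fun p hp => ?_, ?_⟩
  · obtain ⟨i, rfl, -⟩ := hσ p hp
    exact ⟨i, rfl⟩
  · induction k with
    | zero => omega
    | succ k ih =>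
      intro F hF h
      have h0 : Bx 0 (k + 1) = box (4 * k) ++ Bx 0 k := by
        show box (0 + 4 * k) ++ Bx 0 k = _
        rw [Nat.zero_add]
      rw [h0] at h ⊢
      have h' := (ok_append _ _ _).1 h
      rcases Nat.eq_or_lt_of_le (Nat.le_of_lt_succ hk) with rfl | hc
      · have e1 := (hb F hF h'.1).app hF h
        rwa [List.append_assoc] at e1
      · have e1 := LE.pre h'.1 (ih hc _ (hF.fr h'.1) h'.2)
        have o1 := e1.ok hF h
        rw [← List.append_assoc] at e1 o1
        have e2 := (comm_word hF hσ (fun q hq => by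
          simp only [box, List.mem_cons, List.not_mem_nil, or_false] at hq
          rcases hq with rfl | rfl | rfl
          · show 4 * c + 4 ≤ 4 * k; omega
          · show 4 * c + 4 ≤ 4 * k + 1; omega
          · show 4 * c + 4 ≤ 4 * k; omega) ((ok_append _ _ _).1 o1).1).app hF o1
        rw [List.append_assoc] at e2
        rw [← List.append_assoc]
        rw [← List.append_assoc] at e2
        exact e1.trans e2

theorem abs_swap {c k : ℕ} (hk : c < k) : Abs k [X (4 * c), X (4 * c + 2)] := by
  refine abs_box (fun q hq => ?_) (fun F hF h => (box_swap hF h).1) hk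
  simp only [List.mem_cons, List.not_mem_nil, or_false] at hq
  rcases hq with rfl | rfl
  · exact ⟨_, rfl, by omega⟩
  · exact ⟨_, rfl, by omega⟩

theorem abs_rot {c k : ℕ} (hk : c < k) : Abs k [X (4 * c + 2), X (4 * c + 1), X (4 * c)] := by
  refine abs_box (fun q hq => ?_) (fun F hF h => (box_rot hF h).1) hk
  simp only [List.mem_cons, List.not_mem_nil, or_false] at hq
  rcases hq with rfl | rfl | rfl
  · exact ⟨_, rfl, by omega⟩
  · exact ⟨_, rfl, by omega⟩
  · exact ⟨_, rfl, by omega⟩

/-- Exchanging two boxes. -/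
theorem box_box {F : Front} (hF : GF F) {j : ℕ} (h : ok (box (j + 4) ++ box j) F) :
    LE F (box (j + 4) ++ box j) (box j ++ box j) := by
  have e0 : box (j + 4) ++ box j = box (j + 4) ++ [dbl j] ++ [death (j + 1), death j] := by
    simp [box]
  rw [e0] at h ⊢
  have mem : ∀ i, ∀ q ∈ box i, i ≤ q.index := by
    intro i q hq
    simp only [box, List.mem_cons, List.not_mem_nil, or_false] at hq
    rcases hq with rfl | rfl | rfl
    · exact le_rfl
    · show i ≤ i + 1; omega
    · exact le_rfl
  have e1 := comm_left hF (p := dbl j) (Y := box (j + 4))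
    (fun q hq => (show j + 2 ≤ j + 4 by omega).trans (mem _ q hq)) ((ok_append _ _ _).1 h).1
  rw [box_past (show j + 2 ≤ j + 4 by omega)] at e1
  have e1' := e1.app hF h
  have o1 := e1'.ok hF h
  have k1 : (dbl j :: box (j + 4 + (dbl j).outs - (dbl j).ins)) ++ [death (j + 1), death j] =
      [dbl j] ++ (box (j + 4) ++ [death (j + 1)]) ++ [death j] := by
    show (dbl j :: box (j + 4 + 2 - 2)) ++ _ = _
    rw [Nat.add_sub_cancel]
    simp
  rw [k1] at e1' o1
  have o2 := (ok_append _ _ _).1 ((ok_append _ _ _).1 o1).1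
  have e2 := comm_left (hF.fr o2.1) (p := death (j + 1)) (Y := box (j + 4))
    (fun q hq => (show j + 1 + 2 ≤ j + 4 by omega).trans (mem _ q hq)) o2.2
  rw [box_past (show j + 1 + 2 ≤ j + 4 by omega)] at e2
  have k2 : j + 4 + (death (j + 1)).outs - (death (j + 1)).ins = j + 2 := by
    show j + 4 + 0 - 2 = j + 2
    omega
  rw [k2] at e2
  have e2' := (LE.pre o2.1 e2).app hF o1
  have o3 := e2'.ok hF o1
  have k3 : [dbl j] ++ death (j + 1) :: box (j + 2) ++ [death j] =
      [dbl j, death (j + 1)] ++ (box (j + 2) ++ [death j]) := by simp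
  rw [k3] at e2' o3
  have o4 := (ok_append _ _ _).1 o3
  have e3 := comm_left (hF.fr o4.1) (p := death j) (Y := box (j + 2))
    (fun q hq => mem _ q hq) o4.2
  rw [box_past (show j + 2 ≤ j + 2 by omega)] at e3
  have k4 : j + 2 + (death j).outs - (death j).ins = j := by
    show j + 2 + 0 - 2 = j
    omega
  rw [k4] at e3
  have e3' := LE.pre o4.1 e3
  have k5 : [dbl j, death (j + 1)] ++ death j :: box j = box j ++ box j := by simp [box]
  rw [k5] at e3'
  exact e1'.trans (e2'.trans e3')

theorem ok_box_box {F : Front} {j : ℕ} (hF : GF F) (h : ok (box (j + 4) ++ box j) F) :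
    j + 8 ≤ F.n := by
  have h' := (ok_append _ _ _).1 h
  have := box_n h'.1
  omega

theorem abs_perm {c k : ℕ} (hk : c + 1 < k) : Abs k (PP (4 * c) 4) := by
  refine ⟨isX_PP _ _, ?_⟩
  induction k with
  | zero => omega
  | succ k ih =>
    intro F hF h
    have h0 : Bx 0 (k + 1) = box (4 * k) ++ Bx 0 k := by
      show box (0 + 4 * k) ++ Bx 0 k = _
      rw [Nat.zero_add]
    rcases Nat.eq_or_lt_of_le (Nat.le_of_lt_succ hk) with hc | hc
    · obtain rfl : k = c + 1 := hc.symm
      have h1 : Bx 0 (c + 1 + 1) = box (4 * c + 4) ++ box (4 * c) ++ Bx 0 c := by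
        rw [h0]
        show box (4 * (c + 1)) ++ (box (0 + 4 * c) ++ Bx 0 c) = _
        rw [Nat.zero_add, show 4 * (c + 1) = 4 * c + 4 by omega, List.append_assoc]
      rw [h1] at h ⊢
      have h' := (ok_append _ _ _).1 h
      have e1 := box_box hF h'.1
      have o1 := e1.ok hF h'.1
      have hn := ok_box_box hF h'.1
      have o1' := (ok_append _ _ _).1 o1
      have e2 := (box_PP hF o1'.1 (c := 4) (by omega)).1.app hF o1
      have e3 := (e1.trans e2).app hF h
      simpa using e3
    · rw [h0] at h ⊢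
      have h' := (ok_append _ _ _).1 h
      have e1 := LE.pre h'.1 (ih hc _ (hF.fr h'.1) h'.2)
      have o1 := e1.ok hF h
      rw [← List.append_assoc] at e1 o1
      have e2 := (comm_word hF (σ := PP (4 * c) 4) (m := 4 * c + 8) (fun q hq => by
        simp only [PP, P, List.append_nil, List.cons_append, List.nil_append, List.mem_cons,
          List.not_mem_nil, or_false] at hq
        rcases hq with rfl | rfl | rfl | rfl | rfl | rfl | rfl | rfl | rfl | rfl | rfl | rfl |
          rfl | rfl | rfl | rfl <;> exact ⟨_, rfl, by omega⟩) (fun q hq => by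
        simp only [box, List.mem_cons, List.not_mem_nil, or_false] at hq
        rcases hq with rfl | rfl | rfl
        · show 4 * c + 8 ≤ 4 * k; omega
        · show 4 * c + 8 ≤ 4 * k + 1; omega
        · show 4 * c + 8 ≤ 4 * k; omega) ((ok_append _ _ _).1 o1).1).app hF o1
      rw [List.append_assoc, ← List.append_assoc] at e2
      rw [← List.append_assoc]
      exact e1.trans (by simpa using e2)

/-! ### Predicates -/

/-- Diagrams of one component. -/
def Kn (D : FWord) : Prop := IsKnot (pw D)

theorem Kn.ok {D : FWord} (h : Kn D) : Flat.ok D Front.empty := h.1.1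

theorem kn_le {D E : FWord} (h : LE Front.empty D E) : Kn D ↔ Kn E := by
  obtain ⟨h1, h2, h3⟩ := h.spec gf_empty
  unfold Kn IsKnot Closed
  have h1' : Knot.Fits (pw D) Front.empty ↔ Knot.Fits (pw E) Front.empty := h1
  have h2' : Knot.run (pw D) Front.empty = Knot.run (pw E) Front.empty := h2
  have h3' : Knot.comps (pw D) Front.empty = Knot.comps (pw E) Front.empty := h3
  rw [h1', h2', h3']

/-- The number of double points. -/
def nd (D : FWord) : ℕ := D.countP fun p => match p with | dbl _ => true | _ => false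

theorem nd_append (v w : FWord) : nd (v ++ w) = nd v + nd w := List.countP_append

theorem FMove.nd_eq {l r : FWord} (m : FMove l r) : nd l = nd r := by
  cases m with
  | exch p q h => cases p <;> cases q <;> rfl
  | _ => rfl

theorem LE.nd {F : Front} {D E : FWord} (h : LE F D E) : nd D = nd E := by
  induction h with
  | rel D E h =>
    obtain ⟨a, l, r, b, m, h⟩ := h
    simp only [nd_append, m.nd_eq]
  | refl D => rfl
  | symm D E _ ih => exact ih.symm
  | trans D E F _ _ ih1 ih2 => exact ih1.trans ih2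

/-- A property of diagrams with `k` double points which is invariant under the moves and holds for
diagrams with a double point in a kink. -/
structure Inv (k : ℕ) (Z : FWord → Prop) : Prop where
  le : ∀ D E, LE Front.empty D E → Kn D → nd D = k → Z E → Z D
  kink : ∀ x y i b, Kn (x ++ [birth i b, dbl i] ++ y) → nd (x ++ [birth i b, dbl i] ++ y) = k →
    Z (x ++ [birth i b, dbl i] ++ y)

/-- The fronts above the boxes. -/
structure S (k : ℕ) (F : Front) : Prop where
  gf : GF F
  n : F.n = 4 * k
  ok : ok (Bx 0 k) F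
  fc : fc (Bx 0 k) F = 1

/-- The property for all diagrams with the front `F` above the boxes. -/
def Q (Z : FWord → Prop) (k : ℕ) (F : Front) : Prop :=
  ∀ u, (∀ i, dbl i ∉ u) → ok u Front.empty → fc u Front.empty = 0 → fr u Front.empty = F →
    Kn (u ++ Bx 0 k) → Z (u ++ Bx 0 k)

theorem fc_X {w : FWord} (hw : IsX w) (F : Front) : fc w F = 0 := by
  induction w generalizing F with
  | nil => rfl
  | cons p w ih =>
    obtain ⟨i, rfl⟩ := hw p List.mem_cons_self
    show 0 + fc w ((X i).pc.act F) = 0
    rw [ih (fun q hq => hw q (List.mem_cons_of_mem _ hq))]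

theorem S.abs {k : ℕ} {F : Front} (h : S k F) {σ : FWord} (hσ : Abs k σ) : S k (fr σ F) := by
  have e := hσ.2 F h.gf h.ok
  have o := e.ok h.gf h.ok
  have o' := (ok_append _ _ _).1 o
  refine ⟨h.gf.fr o'.1, by rw [hσ.1.fr_n]; exact h.n, o'.2, ?_⟩
  have h1 := (e.spec h.gf).2.2
  rw [fc_append, fc_X hσ.1, zero_add] at h1
  rw [← h1]
  exact h.fc

theorem nd_X {w : FWord} (hw : IsX w) : nd w = 0 := by
  induction w with
  | nil => rfl
  | cons p w ih =>
    obtain ⟨i, rfl⟩ := hw p List.mem_cons_self
    have := ih (fun q hq => hw q (List.mem_cons_of_mem _ hq))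
    show List.countP _ _ = 0
    rw [List.countP_cons_of_neg (by simp)]
    exact this

theorem nd_zero {w : FWord} (hw : ∀ i, dbl i ∉ w) : nd w = 0 := by
  unfold nd
  rw [List.countP_eq_zero]
  intro p hp
  cases p with
  | dbl i => exact absurd hp (hw i)
  | _ => simp

theorem nd_Bx (n k : ℕ) : nd (Bx n k) = k := by
  induction k with
  | zero => rfl
  | succ k ih =>
    show nd (box (n + 4 * k) ++ Bx n k) = k + 1
    rw [nd_append, ih]
    show 1 + k = k + 1
    omega

/-- Absorbed crossings. -/
theorem Q.abs {Z : FWord → Prop} {k : ℕ} (hZ : Inv k Z) {F : Front} (hS : S k F) {σ : FWord}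
    (hσ : Abs k σ) (h : Q Z k (fr σ F)) : Q Z k F := by
  intro u hd hu hc hf hK
  have o1 : ok (u ++ Bx 0 k) Front.empty := hK.ok
  have o1' := (ok_append _ _ _).1 o1
  have e1 := LE.pre hu (hσ.2 _ (gf_empty.fr hu) o1'.2)
  have o2 := e1.ok gf_empty o1
  rw [← List.append_assoc] at e1 o2
  refine hZ.le _ _ e1 hK (by rw [nd_append, nd_zero hd, nd_Bx, zero_add]) ?_
  refine h (u ++ σ) ?_ ((ok_append _ _ _).1 o2).1 ?_ ?_ ((kn_le e1).1 hK)
  · intro i hi
    rcases List.mem_append.1 hi with h | h
    · exact hd i h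
    · obtain ⟨j, hj⟩ := hσ.1 _ h
      simp at hj
  · rw [fc_append, hc, fc_X hσ.1]
  · rw [fr_append, hf]

/-- Coherence for the property. -/
theorem Q.of_one {Z : FWord → Prop} {k : ℕ} (hZ : Inv k Z) {u : FWord} (hd : ∀ i, dbl i ∉ u)
    (hu : ok u Front.empty) (hc : fc u Front.empty = 0) (h : Z (u ++ Bx 0 k)) :
    Q Z k (fr u Front.empty) := by
  intro v vd vo vc vf hK
  have e := (coherence vd hd vo hu vc hc vf).app gf_empty hK.ok
  exact hZ.le _ _ e hK (by rw [nd_append, nd_zero vd, nd_Bx, zero_add]) h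

/-- The last piece of a knot diagram. -/
theorem last_death {D : FWord} (h : Kn D) : ∃ D', D = D' ++ [death 0] ∧
    fc D' Front.empty = 0 ∧ ok D' Front.empty ∧ (fr D' Front.empty).n = 2 := by
  obtain ⟨W, h1, h2, h3, h4⟩ := knot_last h
  rcases List.eq_nil_or_concat D with rfl | ⟨D', p, rfl⟩
  · simp [pw] at h1
  · rw [List.concat_eq_append] at h1 ⊢
    rw [pw_append] at h1
    have h5 := List.append_inj' h1 rfl
    have hp : p = death 0 := by
      have h6 : p.pc = .death 0 := by simpa [pw] using h5.2
      cases p with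
      | death i =>
        have : i = 0 := by
          have h7 : Piece.death i = Piece.death 0 := h6
          injection h7
        rw [this]
      | birth i b => simp [pc] at h6
      | X i => simp [pc] at h6
      | dbl i => simp [pc] at h6
    subst hp
    refine ⟨D', rfl, ?_, ?_, ?_⟩
    · show Knot.comps (pw D') Front.empty = 0
      rw [h5.1]; exact h3
    · show Knot.Fits (pw D') Front.empty
      rw [h5.1]; exact h2
    · show (Knot.run (pw D') Front.empty).n = 2
      rw [h5.1]; exact h4

theorem Bx_last (k : ℕ) : ∃ y, Bx 0 (k + 1) = y ++ [death 0] := by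
  induction k with
  | zero => exact ⟨[dbl 0, death 1], rfl⟩
  | succ k ih =>
    obtain ⟨y, hy⟩ := ih
    refine ⟨box (0 + 4 * (k + 1)) ++ y, ?_⟩
    show box (0 + 4 * (k + 1)) ++ Bx 0 (k + 1) = _
    rw [hy, List.append_assoc]

/-- The flat part of a knot diagram with double points. -/
theorem kn_boxes {u : FWord} {k : ℕ} (hk : 0 < k) (h : Kn (u ++ Bx 0 k)) :
    fc u Front.empty = 0 ∧ (ok u Front.empty) ∧
      ((fr u Front.empty).n = 4 * k → S k (fr u Front.empty)) := by
  obtain ⟨m, rfl⟩ : ∃ m, k = m + 1 := ⟨k - 1, by omega⟩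
  obtain ⟨y, hy⟩ := Bx_last m
  obtain ⟨D', h1, h2, h3, h4⟩ := last_death h
  have o := (ok_append _ _ _).1 h.ok
  have hc : fc u Front.empty = 0 := by
    rw [hy, ← List.append_assoc] at h1
    have h5 := (List.append_inj' h1 rfl).1
    rw [← h5, fc_append] at h2
    omega
  refine ⟨hc, o.1, fun hn => ⟨gf_empty.fr o.1, hn, o.2, ?_⟩⟩
  have h6 : fc (u ++ Bx 0 (m + 1)) Front.empty = 1 := h.2
  rw [fc_append, hc, zero_add] at h6
  exact h6

theorem nf_nd {D : FWord} (h : Kn D) : (nf D).2 = nd D := by
  obtain ⟨h1, h2, h3⟩ := nf_spec D h.ok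
  have := h1.nd
  rw [nd_append, nd_zero h2, nd_Bx, zero_add] at this
  exact this.symm

theorem Kn.fr_n {D : FWord} (h : Kn D) : (fr D Front.empty).n = 0 := h.1.2

/-- The property for a diagram, from the property for the front. -/
theorem Z_of_Q {Z : FWord → Prop} {k : ℕ} (hk : 0 < k) (hZ : Inv k Z) {D : FWord} (hD : Kn D)
    (hn : nd D = k) (h : S k (fr (nf D).1 Front.empty) → Q Z k (fr (nf D).1 Front.empty)) :
    Z D := by
  obtain ⟨h1, h2, h3⟩ := nf_spec D hD.ok
  rw [nf_nd hD, hn, hD.fr_n] at h1
  rw [nf_nd hD, hn, hD.fr_n, zero_add] at h3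
  have hK := (kn_le h1).1 hD
  obtain ⟨a1, a2, a3⟩ := kn_boxes hk hK
  exact hZ.le _ _ h1 hD hn (h (a3 h3) _ h2 a2 a1 rfl hK)

/-- The property for the front, from the property for a diagram. -/
theorem Q_of_Z {Z : FWord → Prop} {k : ℕ} (hk : 0 < k) (hZ : Inv k Z) {D : FWord} (hD : Kn D)
    (hn : nd D = k) (h : Z D) : Q Z k (fr (nf D).1 Front.empty) := by
  obtain ⟨h1, h2, h3⟩ := nf_spec D hD.ok
  rw [nf_nd hD, hn, hD.fr_n] at h1
  have hK := (kn_le h1).1 hD
  obtain ⟨a1, a2, a3⟩ := kn_boxes hk hK
  refine Q.of_one hZ h2 a2 a1 ?_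
  exact hZ.le _ _ h1.symm hK (by rw [nd_append, nd_zero h2, nd_Bx, zero_add]) h

/-! ### Kinks -/

/-- The strands `p` and `q` are joined above. -/
def joined (F : Front) (p q : ℕ) : Prop :=
  (F.dir p = false ∧ F.fin p = q) ∨ (F.dir q = false ∧ F.fin q = p)

theorem fr_WU (i : ℕ) (F : Front) : fr (W i) (fr (U i) F) = F := by
  induction i generalizing F with
  | zero => rfl
  | succ i ih =>
    show fr (W i ++ [X (i + 1), X i]) (fr ([X i, X (i + 1)] ++ U i) F) = F
    rw [fr_append, fr_append, ih]
    show Knot.run [.pos i, .pos (i + 1), .pos (i + 1), .pos i] F = F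
    refine Front.ext' rfl (fun p => ?_) (fun p => ?_)
    · show F.dir (sw i (sw (i + 1) (sw (i + 1) (sw i p)))) = F.dir p
      rw [sw_sw, sw_sw]
    · show sw i (sw (i + 1) (sw (i + 1) (sw i (F.fin (sw i (sw (i + 1) (sw (i + 1) (sw i p)))))))) =
        F.fin p
      rw [sw_sw, sw_sw, sw_sw, sw_sw]

/-- Where the strand `p` goes. -/
theorem X_joined {i p q : ℕ} {F : Front} (h : joined F p q) :
    joined ((X i).pc.act F) (sw i p) (sw i q) := by
  rcases h with ⟨h1, h2⟩ | ⟨h1, h2⟩
  · left
    refine ⟨?_, ?_⟩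
    · show F.dir (sw i (sw i p)) = false
      rw [sw_sw, h1]
    · show sw i (F.fin (sw i (sw i p))) = sw i q
      rw [sw_sw, h2]
  · right
    refine ⟨?_, ?_⟩
    · show F.dir (sw i (sw i q)) = false
      rw [sw_sw, h1]
    · show sw i (F.fin (sw i (sw i q))) = sw i p
      rw [sw_sw, h2]

theorem U_joined {i : ℕ} {F : Front} (h : joined F i (i + 1)) : joined (fr (U i) F) 0 1 := by
  induction i generalizing F with
  | zero => exact h
  | succ i ih =>
    show joined (fr ([X i, X (i + 1)] ++ U i) F) 0 1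
    rw [fr_append]
    refine ih ?_
    have h1 := X_joined (i := i + 1) (X_joined (i := i) h)
    have e1 : sw (i + 1) (sw i (i + 1)) = i := by
      rw [sw_right, sw_of_ne (by omega) (by omega)]
    have e2 : sw (i + 1) (sw i (i + 1 + 1)) = i + 1 := by
      rw [sw_of_ne (show i + 1 + 1 ≠ i by omega) (by omega), sw_right]
    rw [e1, e2] at h1
    exact h1

/-- An arc which joins two neighbouring strands may be taken to be the last piece. -/
theorem last_birth {u : FWord} (hd : ∀ i, dbl i ∉ u) (hu : ok u Front.empty)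
    (hc : fc u Front.empty = 0) {i : ℕ} (hi : i + 2 ≤ (fr u Front.empty).n)
    (hj : joined (fr u Front.empty) i (i + 1)) :
    ∃ t b, LE Front.empty u (can t ++ [birth i b]) := by
  set F := fr u Front.empty with hFd
  have hF : GF F := gf_empty.fr hu
  have oU : ∀ (i : ℕ) (F : Front), i + 2 ≤ F.n → ok (U i) F := by
    intro i
    induction i with
    | zero => intro F _; exact ok_nil F
    | succ i ih =>
      intro F hn
      refine ⟨?_, ?_, ih _ ?_⟩
      · show i + 2 ≤ F.n; omega
      · show i + 1 + 2 ≤ F.n; omega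
      · show i + 2 ≤ F.n; omega
  have h1 : ok (u ++ U i) Front.empty := (ok_append _ _ _).2 ⟨hu, oU i F hi⟩
  have h2 : fc (u ++ U i) Front.empty = 0 := by rw [fc_append, hc, fc_X (isX_U i)]
  obtain ⟨t, ht⟩ := exists_can (u ++ U i) (fun j hj => by
    rcases List.mem_append.1 hj with h | h
    · exact hd j h
    · obtain ⟨m, hm⟩ := isX_U i _ h
      simp at hm) h1 h2
  have hfr := ht.fr gf_empty
  rw [fr_append, ← hFd] at hfr
  have hn := congrArg Front.n hfr
  rw [(isX_U i).fr_n, fr_can_n] at hn
  have hj' := U_joined hj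
  have ht' := ht.ok gf_empty h1
  cases t with
  | nil =>
    exfalso
    rw [List.length_nil] at hn
    omega
  | cons x t =>
    obtain ⟨e, b⟩ := x
    rw [can_cons] at ht' hfr
    have k1 := (ok_append _ _ _).1 ht'
    obtain ⟨a1, a2, a3, a4⟩ := fr_arc_zero e b _ (ok_arc_le k1.2)
    rw [fr_append] at hfr
    have g : GF (fr (arc e b) (fr (can t) Front.empty)) := by
      rw [← hfr]; exact hF.fr (oU i F hi)
    rw [hfr] at hj'
    have he : e = 0 := by
      rcases hj' with ⟨h3, h4⟩ | ⟨h3, h4⟩
      · rw [a1] at h3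
        subst h3
        rw [a3] at h4
        simpa using h4
      · have hb : b = true := by
          obtain ⟨s, hs, hsf⟩ := g
          rw [← hsf] at h4 a1
          have := hs.dir 1
          have h5 : (s.N 1).1 = 0 := h4
          rw [h5] at this
          have h6 : s.d 0 = b := a1
          rw [← h6, this]
        subst hb
        obtain ⟨s, hs, hsf⟩ := g
        rw [← hsf] at h3 h4 a2 a4
        have h5 : (s.N 1).1 = 0 := h4
        have h6 : (s.N (e + 1)).1 = 0 := a4
        have := hs.inj 1 (e + 1) h3 a2 (h5.trans h6.symm)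
        omega
    subst he
    refine ⟨t, b, coherence hd ?_ hu ?_ hc ?_ ?_⟩
    · intro j hj
      rcases List.mem_append.1 hj with h | h
      · have : ∀ t : List (ℕ × Bool), dbl j ∉ can t := by
          intro t
          induction t with
          | nil => simp [can]
          | cons x t ih =>
            intro h
            rcases List.mem_append.1 h with h | h
            · exact ih h
            · rcases List.mem_cons.1 h with h | h
              · simp at h
              · obtain ⟨m, -, -, hm⟩ := mem_L h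
                simp at hm
        exact this t h
      · simp at h
    · refine (ok_append _ _ _).2 ⟨k1.1, ?_, trivial⟩
      show i ≤ (fr (can t) Front.empty).n
      rw [fr_can_n]
      have h7 := hn
      rw [List.length_cons] at h7
      omega
    · rw [fc_append]
      have : ∀ t : List (ℕ × Bool), ok (can t) Front.empty → fc (can t) Front.empty = 0 := by
        intro t
        induction t with
        | nil => intro _; rfl
        | cons x t ih =>
          intro h
          obtain ⟨e, b⟩ := x
          rw [can_cons] at h ⊢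
          rw [fc_append, ih ((ok_append _ _ _).1 h).1]
          show 0 + (0 + fc (L 1 e) _) = 0
          rw [fc_L]
      rw [this t k1.1]
      rfl
    · have ob : ok [birth i b] (fr (can t) Front.empty) := by
        refine ⟨?_, trivial⟩
        show i ≤ (fr (can t) Front.empty).n
        rw [fr_can_n]
        have h7 := hn
        rw [List.length_cons] at h7
        omega
      have e1 := (birth_W (gf_empty.fr k1.1) i b ob).fr (gf_empty.fr k1.1)
      rw [fr_append, e1, fr_cons]
      have e2 : (birth 0 b).pc.act (fr (can t) Front.empty) =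
          fr (arc 0 b) (fr (can t) Front.empty) := rfl
      rw [e2, ← hfr, fr_WU]

/-- The property holds if the two first strands of a box are joined. -/
theorem Q.kink {Z : FWord → Prop} {k : ℕ} (hZ : Inv k Z) {F : Front} (hS : S k F) {c : ℕ}
    (hc : c < k) (hj : joined F (4 * c) (4 * c + 1)) : Q Z k F := by
  intro u hd hu huc hf hK
  have hn : (fr u Front.empty).n = 4 * k := by rw [hf]; exact hS.n
  obtain ⟨t, b, e1⟩ := last_birth hd hu huc (i := 4 * c) (by omega) (by rw [hf]; exact hj)
  have e1' := e1.app gf_empty hK.ok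
  have o1 := e1'.ok gf_empty hK.ok
  -- moving the maximum below the boxes on its right
  have key : ∀ (m : ℕ) (G : Front), c < m → GF G → ok ([birth (4 * c) b] ++ Bx 0 m) G →
      ∃ x y, LE G ([birth (4 * c) b] ++ Bx 0 m) (x ++ [birth (4 * c) b, dbl (4 * c)] ++ y) := by
    intro m
    induction m with
    | zero => intro G h; omega
    | succ m ih =>
      intro G hm hG ho
      have h0 : Bx 0 (m + 1) = box (4 * m) ++ Bx 0 m := by
        show box (0 + 4 * m) ++ Bx 0 m = _
        rw [Nat.zero_add]
      rcases Nat.eq_or_lt_of_le (Nat.le_of_lt_succ hm) with rfl | hcm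
      · refine ⟨[], [death (4 * c + 1), death (4 * c)] ++ Bx 0 c, ?_⟩
        rw [h0]
        exact LE.refl _ _
      · rw [h0, ← List.append_assoc] at ho ⊢
        have e2 : [birth (4 * c) b] ++ box (4 * m) =
            birth (4 * c) b :: (box (4 * m - 2)).map (birth (4 * c) b).past := by
          rw [box_past (show 4 * c + 0 ≤ 4 * m - 2 by omega)]
          show _ = birth (4 * c) b :: box (4 * m - 2 + 2 - 0)
          rw [show 4 * m - 2 + 2 - 0 = 4 * m by omega]
          rfl
        have o2 := ((ok_append _ _ _).1 ho).1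
        have e3 : LE G ([birth (4 * c) b] ++ box (4 * m)) (box (4 * m - 2) ++ [birth (4 * c) b]) := by
          rw [e2] at o2 ⊢
          exact comm_left' hG (fun q hq => by
            simp only [box, List.mem_cons, List.not_mem_nil, or_false] at hq
            rcases hq with rfl | rfl | rfl
            · show 4 * c + 0 ≤ 4 * m - 2; omega
            · show 4 * c + 0 ≤ 4 * m - 2 + 1; omega
            · show 4 * c + 0 ≤ 4 * m - 2; omega) o2
        have e4 := e3.app hG ho
        have o4 := e4.ok hG ho
        rw [List.append_assoc] at e4 o4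
        have o5 := (ok_append _ _ _).1 o4
        obtain ⟨x, y, e5⟩ := ih _ hcm (hG.fr o5.1) o5.2
        refine ⟨box (4 * m - 2) ++ x, y, e4.trans ?_⟩
        have := LE.pre o5.1 e5
        simpa using this
  rw [List.append_assoc] at e1' o1
  have o2 := (ok_append _ _ _).1 o1
  obtain ⟨x, y, e2⟩ := key k _ hc (gf_empty.fr o2.1) o2.2
  have e3 := LE.pre o2.1 e2
  have e4 : can t ++ (x ++ [birth (4 * c) b, dbl (4 * c)] ++ y) =
      (can t ++ x) ++ [birth (4 * c) b, dbl (4 * c)] ++ y := by simp
  rw [e4] at e3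
  have e5 := e1'.trans e3
  have hnd : nd (u ++ Bx 0 k) = k := by rw [nd_append, nd_zero hd, nd_Bx, zero_add]
  exact hZ.le _ _ e5 hK hnd (hZ.kink _ _ _ _ ((kn_le e5).1 hK) (e5.nd ▸ hnd))

end Pool.Agent.H835R2.Flat
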