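import Pool.Agent.H835R2.Flat.Van
import Pool.Agent.H835R2.Knot.Bound

/-! # Uniqueness and integrality of the invariant of degree three -/

set_option autoImplicit false
set_option linter.unusedSimpArgs false
set_option linter.unusedVariables false

namespace Pool.Agent.H835R2.Flat

open Pool.Agent.H835R2.Knot

theorem kn_fig8 : IsKnot fig8 := by decide +kernel

/-- The figure eight knot is isotopic to its mirror image. -/
theorem fig8_amph : Isotopic (mirror fig8) fig8 := isoAmph

theorem deg_sub {v w : Word → ℝ} {k : ℕ} (hv : DegreeLE k v) (hw : DegreeLE k w) :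
    DegreeLE k fun D => v D - w D := by
  intro D hD S hS hc
  have h1 := hv D hD S hS hc
  have h2 := hw D hD S hS hc
  have e : ∑ T ∈ S.powerset, (-1 : ℤ) ^ T.card • (v (switchAt T D) - w (switchAt T D)) =
      ∑ T ∈ S.powerset, (-1 : ℤ) ^ T.card • v (switchAt T D) -
      ∑ T ∈ S.powerset, (-1 : ℤ) ^ T.card • w (switchAt T D) := by
    rw [← Finset.sum_sub_distrib]
    exact Finset.sum_congr rfl fun T _ => smul_sub _ _ _
  show ∑ T ∈ S.powerset, (-1 : ℤ) ^ T.card • (v (switchAt T D) - w (switchAt T D)) = 0
  rw [e, h1, h2, sub_self]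

/-- The invariant `v₃` is unique. -/
theorem v3_unique {v w : Word → ℝ} (hv : IsV3 v) (hw : IsV3 w) {D : Word} (hD : IsKnot D) :
    v D = w D := by
  have inv : IsInvariant fun D => v D - w D := fun D E hD h => by
    show v D - w D = v E - w E
    rw [hv.invariant D E hD h, hw.invariant D E hD h]
  have zero : ∀ {u : Word → ℝ}, IsV3 u → u circle = 0 ∧ u fig8 = 0 := by
    intro u hu
    refine ⟨?_, ?_⟩
    · have h1 : u circle = -u circle := hu.mirror circle (by decide +kernel)
      linarith
    · have h1 := hu.mirror fig8 kn_fig8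
      have h2 := hu.invariant _ _ ((isotopic_knot fig8_amph).2 kn_fig8) fig8_amph
      linarith
  have h := vanish inv (deg_sub hv.degree hw.degree)
    (by show v circle - w circle = 0; rw [(zero hv).1, (zero hw).1, sub_self])
    (by show v rightTrefoil - w rightTrefoil = 0; rw [hv.trefoil, hw.trefoil, sub_self])
    (by
      show v (mirror rightTrefoil) - w (mirror rightTrefoil) = 0
      rw [hv.mirror _ (by decide +kernel), hw.mirror _ (by decide +kernel), hv.trefoil,
        hw.trefoil, sub_self])
    (by show v fig8 - w fig8 = 0; rw [(zero hv).2, (zero hw).2, sub_self]) D hD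
  exact sub_eq_zero.1 h

/-- The invariant `f` is divisible by 48. -/
theorem f_dvd {D : Word} (hD : IsKnot D) : (48 : ℤ) ∣ f D := by
  have inv : IsInvariant fun D => ((f D : ℤ) : ZMod 48) := fun D E hD h => by
    show ((f D : ℤ) : ZMod 48) = _
    rw [f_invariant D E hD h]
  have deg : DegreeLE 3 fun D => ((f D : ℤ) : ZMod 48) := by
    intro D hD S hS hc
    have h1 := f_degree D hD S hc
    have h2 := congrArg (fun z : ℤ => (z : ZMod 48)) h1
    simp only [Int.cast_sum, Int.cast_mul, Int.cast_pow, Int.cast_neg, Int.cast_one,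
      Int.cast_zero] at h2
    rw [← h2]
    refine Finset.sum_congr rfl fun T _ => ?_
    rw [zsmul_eq_mul]
    push_cast
    rfl
  have h := vanish inv deg (by decide +kernel) (by decide +kernel) (by decide +kernel)
    (by decide +kernel) D hD
  exact (ZMod.intCast_zmod_eq_zero_iff_dvd _ _).1 h

/-- Integrality. -/
theorem v3_int {D : Word} (hD : IsKnot D) : ∃ m : ℤ, v3 D = m := by
  obtain ⟨m, hm⟩ := f_dvd hD
  refine ⟨m, ?_⟩
  unfold v3
  rw [hm]
  push_cast
  ring

/-- The bound with the integer part. -/
theorem v3_floor {D : Word} (hD : IsKnot D) :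
    |v3 D| ≤ ((⌊(crossings D : ℝ) * ((crossings D : ℝ) ^ 2 - 1) / 24⌋ : ℤ) : ℝ) := by
  obtain ⟨m, hm⟩ := v3_int hD
  have h := v3_bound hD
  rw [hm] at h ⊢
  have h1 : |m| ≤ ⌊(crossings D : ℝ) * ((crossings D : ℝ) ^ 2 - 1) / 24⌋ := by
    rw [Int.le_floor]
    push_cast
    exact h
  exact_mod_cast h1

end Pool.Agent.H835R2.Flat
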