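import Pool.Agent.H835R2.Flat.Cls
import Pool.Agent.H835R2.Flat.Path

/-! # Vanishing of invariants of degree three -/

set_option autoImplicit false
set_option linter.unusedSimpArgs false
set_option linter.unusedVariables false

namespace Pool.Agent.H835R2.Flat

open Pool.Agent.H835R2.Knot
open Pool.Agent.H835R2.Flat.FP

/-! ### No double points -/

theorem two_front {F : Front} (h : GF F) (hn : F.n = 2) (hd : F.dir 1 = !F.dir 0) :
    F = fr [birth 0 (F.dir 0)] Front.empty := by
  obtain ⟨s, hg, rfl⟩ := h
  have hn' : s.n = 2 := hn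
  have hd' : s.d 1 = !s.d 0 := hd
  have hout : ∀ p, 2 ≤ p → s.d p = true := fun p hp => hg.out p (by omega)
  refine Front.ext' hn (fun p => ?_) (fun p => ?_)
  · show s.d p = if p < 0 then true else if p = 0 then s.d 0 else if p = 1 then !s.d 0 else true
    rw [if_neg (Nat.not_lt_zero p)]
    split_ifs with h1 h2
    · rw [h1]
    · rw [h2, hd']
    · exact hout p (by omega)
  · show (s.N p).1 = if p < 0 then up 0 p else if p = 0 ∨ p = 0 + 1 then
        (if s.d 0 then 0 else 0 + 1) else up 0 (p - 2)
    rw [if_neg (Nat.not_lt_zero p)]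
    by_cases hp : 2 ≤ p
    · rw [if_neg (by omega), hg.exit p (hout p hp)]
      show p = up 0 (p - 2)
      unfold up
      rw [if_neg (Nat.not_lt_zero _)]
      omega
    · rw [if_pos (by omega)]
      have hp' : p = 0 ∨ p = 1 := by omega
      have h1 := hg.lt p (by omega)
      have h2 := hg.dir p
      cases h0 : s.d 0
      · have h3 : s.d 1 = true := by rw [hd', h0]; rfl
        have h4 : (s.N p).1 ≠ 0 := fun h => by rw [h, h0] at h2; exact absurd h2 (by simp)
        simp
        omega
      · have h3 : s.d 1 = false := by rw [hd', h0]; rfl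
        have h4 : (s.N p).1 ≠ 1 := fun h => by rw [h, h3] at h2; exact absurd h2 (by simp)
        simp
        omega

/-- No double points. -/
theorem cls0 {Z : FWord → Prop} (hZ : Inv 0 Z) (h : ∀ b, Z [birth 0 b, death 0]) {D : FWord}
    (hD : Kn D) (hn : nd D = 0) : Z D := by
  obtain ⟨D', rfl, h1, h2, h3⟩ := last_death hD
  have hdd : ∀ i, dbl i ∉ D' := by
    intro i hi
    rw [nd_append] at hn
    have : nd D' = 0 := by omega
    unfold nd at this
    rw [List.countP_eq_zero] at this
    exact absurd (this _ hi) (by simp)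
  have o := (ok_append _ _ _).1 hD.ok
  have hdir : (fr D' Front.empty).dir 1 = !(fr D' Front.empty).dir 0 := o.2.1.2
  have e := two_front (gf_empty.fr o.1) h3 hdir
  have hle := coherence hdd (w := [birth 0 ((fr D' Front.empty).dir 0)]) (by simp) h2
    ⟨Nat.zero_le _, trivial⟩ h1 rfl e
  exact hZ.le _ _ (hle.app gf_empty hD.ok) hD hn (h _)

/-! ### Evaluation -/

variable {A : Type} [AddCommGroup A] {v : Word → A}

theorem alt_of_nd {D : FWord} (h : nd D = 0) (g : Word → A) : alt D g = g (pw D) := by
  induction D generalizing g with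
  | nil => rfl
  | cons p w ih =>
    have h' : nd [p] + nd w = 0 := by rw [← nd_append]; exact h
    cases p with
    | dbl i => exact absurd h' (by simp [nd])
    | birth i b => exact ih (by omega) _
    | death i => exact ih (by omega) _
    | X i => exact ih (by omega) _

theorem circle_false : Isotopic [.birth 0 false, .death 0] circle :=
  iso_of_goes (L := [(0, .fbp 0 true, false), (1, .fdp 0, true)]) (by decide +kernel)
    (by decide +kernel)

theorem cir (hv : IsInvariant v) {D : Word} (h : Isotopic D circle) : v D = v circle :=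
  hv _ _ ((isotopic_knot h).2 (by decide +kernel)) h

/-- The figure eight knot as a closed braid. -/
def fig8 : Word := [.birth 0 true, .birth 1 true, .birth 2 true, .neg 0, .pos 1, .neg 0, .pos 1,
  .death 2, .death 1, .death 0]

theorem alt_D2 (hv : IsInvariant v) : alt D2 v = v rightTrefoil - v circle := by
  have e : alt D2 v = (v [.birth 0 true, .birth 1 true, .pos 0, .pos 0, .pos 0, .death 1, .death 0]
      - v [.birth 0 true, .birth 1 true, .pos 0, .neg 0, .pos 0, .death 1, .death 0]) -
      (v [.birth 0 true, .birth 1 true, .neg 0, .pos 0, .pos 0, .death 1, .death 0]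
      - v [.birth 0 true, .birth 1 true, .neg 0, .neg 0, .pos 0, .death 1, .death 0]) := rfl
  rw [e, cir hv iso_t_pnp, cir hv iso_t_npp, cir hv iso_t_nnp]
  show (v rightTrefoil - _) - _ = _
  abel

theorem alt_D3 (hv : IsInvariant v) :
    alt D3 v = v rightTrefoil - v (mirror rightTrefoil) := by
  have e : alt D3 v =
      ((v [.birth 0 true, .birth 1 true, .pos 0, .pos 0, .pos 0, .death 1, .death 0]
      - v [.birth 0 true, .birth 1 true, .pos 0, .pos 0, .neg 0, .death 1, .death 0]) -
      (v [.birth 0 true, .birth 1 true, .pos 0, .neg 0, .pos 0, .death 1, .death 0]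
      - v [.birth 0 true, .birth 1 true, .pos 0, .neg 0, .neg 0, .death 1, .death 0])) -
      ((v [.birth 0 true, .birth 1 true, .neg 0, .pos 0, .pos 0, .death 1, .death 0]
      - v [.birth 0 true, .birth 1 true, .neg 0, .pos 0, .neg 0, .death 1, .death 0]) -
      (v [.birth 0 true, .birth 1 true, .neg 0, .neg 0, .pos 0, .death 1, .death 0]
      - v [.birth 0 true, .birth 1 true, .neg 0, .neg 0, .neg 0, .death 1, .death 0])) := rfl
  rw [e, cir hv iso_t_ppn, cir hv iso_t_pnp, cir hv iso_t_pnn, cir hv iso_t_npp,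
    cir hv iso_t_npn, cir hv iso_t_nnp]
  show ((v rightTrefoil - _) - _) - (_ - (_ - v (mirror rightTrefoil))) = _
  abel

theorem alt_D4 (hv : IsInvariant v) :
    alt D4 v = v rightTrefoil + v fig8 - (v circle + v circle) := by
  have e : alt D4 v =
      ((v [.birth 0 true, .birth 1 true, .birth 2 true, .pos 0, .pos 1, .pos 0, .pos 1,
        .death 2, .death 1, .death 0]
      - v [.birth 0 true, .birth 1 true, .birth 2 true, .pos 0, .pos 1, .neg 0, .pos 1,
        .death 2, .death 1, .death 0]) -
      (v [.birth 0 true, .birth 1 true, .birth 2 true, .pos 0, .neg 1, .pos 0, .pos 1,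
        .death 2, .death 1, .death 0]
      - v [.birth 0 true, .birth 1 true, .birth 2 true, .pos 0, .neg 1, .neg 0, .pos 1,
        .death 2, .death 1, .death 0])) -
      ((v [.birth 0 true, .birth 1 true, .birth 2 true, .neg 0, .pos 1, .pos 0, .pos 1,
        .death 2, .death 1, .death 0]
      - v fig8) -
      (v [.birth 0 true, .birth 1 true, .birth 2 true, .neg 0, .neg 1, .pos 0, .pos 1,
        .death 2, .death 1, .death 0]
      - v [.birth 0 true, .birth 1 true, .birth 2 true, .neg 0, .neg 1, .neg 0, .pos 1,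
        .death 2, .death 1, .death 0])) := rfl
  have hT : v [.birth 0 true, .birth 1 true, .birth 2 true, .pos 0, .pos 1, .pos 0, .pos 1,
        .death 2, .death 1, .death 0] = v rightTrefoil :=
    hv _ _ (by decide +kernel) isoT
  rw [e, hT, cir hv iso_ppn, cir hv iso_pnp, cir hv iso_pnn, cir hv iso_npp, cir hv iso_nnp,
    cir hv iso_nnn]
  abel

/-! ### Positive diagrams -/

theorem gf_run {x : Word} (h : Knot.Fits x Front.empty) : GF (Knot.run x Front.empty) :=
  ⟨rn x St.empty, good_rn St.good_empty h, front_run x St.empty⟩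

theorem iso_step {x l r y : Word} (m : Move l r ∨ Move r l) (h : Closed (x ++ l ++ y))
    (hr : Knot.Fits r (Knot.run x Front.empty)) :
    Closed (x ++ r ++ y) ∧ Isotopic (x ++ l ++ y) (x ++ r ++ y) := by
  have h' := h
  obtain ⟨h1, h2⟩ := h'
  rw [fits_append, fits_append] at h1
  rw [run_append] at h1 h2
  rw [run_append] at h2
  have g := gf_run h1.1.1
  have e : Knot.run l (Knot.run x Front.empty) = Knot.run r (Knot.run x Front.empty) := by
    rcases m with m | m
    · exact (run_of_move m g h1.1.2 hr).1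
    · exact (run_of_move m g hr h1.1.2).1.symm
  have hc : Closed (x ++ r ++ y) := by
    refine ⟨?_, ?_⟩
    · rw [fits_append, fits_append, run_append, ← e]
      exact ⟨⟨h1.1.1, hr⟩, h1.2⟩
    · rw [run_append, run_append, ← e]
      exact h2
  refine ⟨hc, ?_⟩
  rcases m with m | m
  · exact Relation.EqvGen.rel _ _ (Step.mk x l r y m h hc)
  · exact (Relation.EqvGen.rel _ _ (Step.mk x r l y m hc h)).symm

theorem neg_iso {x y : Word} {i : ℕ} (h : Closed (x ++ [.neg i] ++ y)) :
    Isotopic (x ++ [.neg i] ++ y)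
      (x ++ [.birth (i + 2) (!(Knot.run x Front.empty).dir i), .pos (i + 1), .death i] ++ y) := by
  have h1 := h.1
  rw [fits_append, fits_append] at h1
  have hn : i + 2 ≤ (Knot.run x Front.empty).n := h1.1.2.1
  set F := Knot.run x Front.empty with hF
  set b := !F.dir i with hb
  have dB : ((Piece.birth (i + 1) b).act F).dir (i + 1) = !((Piece.birth (i + 1) b).act F).dir i := by
    show (if i + 1 < i + 1 then F.dir (i + 1) else if i + 1 = i + 1 then b else _) =
      !(if i < i + 1 then F.dir i else _)
    rw [if_neg (lt_irrefl _), if_pos rfl, if_pos (Nat.lt_succ_self i)]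
  have e1 : x ++ [.neg i] ++ y = x ++ [] ++ ([.neg i] ++ y) := by simp
  rw [e1] at h ⊢
  obtain ⟨c1, i1⟩ := iso_step (r := [.birth (i + 1) b, .death i])
    (Or.inr (Move.zigzag₂ i b)) h ⟨by show i + 1 ≤ F.n; omega, ⟨by
      show i + 2 ≤ F.n + 2; omega, dB⟩, trivial⟩
  refine i1.trans _ _ _ ?_
  have e2 : x ++ [.birth (i + 1) b, .death i] ++ ([.neg i] ++ y) =
    (x ++ [.birth (i + 1) b]) ++ [.death i, .neg i] ++ y := by simp
  rw [e2] at c1 ⊢
  have m2 : Move [.death i, .neg i] [.neg (i + 2), .death i] :=
    Move.exchange (.death i) (.neg (i + 2)) (le_refl _)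
  have r2 : Knot.run (x ++ [.birth (i + 1) b]) Front.empty = (Piece.birth (i + 1) b).act F := by
    rw [run_append]; rfl
  obtain ⟨c2, i2⟩ := iso_step (Or.inl m2) c1 (by
    rw [r2]
    refine ⟨by show i + 2 + 2 ≤ F.n + 2; omega, ⟨by show i + 2 ≤ F.n + 2; omega, ?_⟩, trivial⟩
    show ((Piece.birth (i + 1) b).act F).dir (sw (i + 2) (i + 1)) =
      !((Piece.birth (i + 1) b).act F).dir (sw (i + 2) i)
    rw [sw_of_ne (by omega) (by omega), sw_of_ne (by omega) (by omega)]
    exact dB)
  refine i2.trans _ _ _ ?_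
  have e3 : (x ++ [.birth (i + 1) b]) ++ [.neg (i + 2), .death i] ++ y =
    x ++ [.birth (i + 1) b, .neg (i + 2)] ++ ([.death i] ++ y) := by simp
  rw [e3] at c2 ⊢
  obtain ⟨c3, i3⟩ := iso_step (Or.inl (Move.slideBirth₂ (i + 1) b)) c2
    ⟨by show i + 2 ≤ F.n; omega, by show i + 1 + 2 ≤ F.n + 2; omega, trivial⟩
  refine i3.trans _ _ _ ?_
  have e4 : x ++ [.birth (i + 1 + 1) b, .pos (i + 1)] ++ ([.death i] ++ y) =
    x ++ [.birth (i + 2) b, .pos (i + 1), .death i] ++ y := by simp
  rw [e4]
  exact Relation.EqvGen.refl _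

theorem isotopic_closed {D E : Word} (h : Isotopic D E) : Closed D ↔ Closed E := by
  induction h with
  | rel D E h => obtain ⟨x, l, r, y, m, h1, h2⟩ := h; exact ⟨fun _ => h2, fun _ => h1⟩
  | refl D => exact Iff.rfl
  | symm D E _ ih => exact ih.symm
  | trans D E F _ _ ih1 ih2 => exact ih1.trans ih2

/-- Every diagram is isotopic to a positive word. -/
theorem pos_form (w : Word) : ∀ x : Word, Closed (x ++ w) →
    ∃ E : FWord, nd E = 0 ∧ Isotopic (x ++ w) (x ++ pw E) := by
  induction w with
  | nil => intro x _; exact ⟨[], rfl, Relation.EqvGen.refl _⟩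
  | cons p w ih =>
    intro x hx
    have e : x ++ p :: w = (x ++ [p]) ++ w := by simp
    rw [e] at hx ⊢
    obtain ⟨E, h1, h2⟩ := ih _ hx
    cases p with
    | birth i b =>
      refine ⟨birth i b :: E, h1, ?_⟩
      have : x ++ pw (birth i b :: E) = x ++ [.birth i b] ++ pw E := by simp [pw, pc]
      rw [this]; exact h2
    | death i =>
      refine ⟨death i :: E, h1, ?_⟩
      have : x ++ pw (death i :: E) = x ++ [.death i] ++ pw E := by simp [pw, pc]
      rw [this]; exact h2
    | pos i =>
      refine ⟨X i :: E, h1, ?_⟩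
      have : x ++ pw (X i :: E) = x ++ [.pos i] ++ pw E := by simp [pw, pc]
      rw [this]; exact h2
    | neg i =>
      set b := !(Knot.run x Front.empty).dir i with hb
      refine ⟨[birth (i + 2) b, X (i + 1), death i] ++ E, by rw [nd_append, h1]; rfl, ?_⟩
      have h3 := neg_iso ((isotopic_closed h2).1 hx)
      have e2 : x ++ pw ([birth (i + 2) b, X (i + 1), death i] ++ E) =
        x ++ [.birth (i + 2) b, .pos (i + 1), .death i] ++ pw E := by simp [pw, pc]
      rw [e2]
      exact h2.trans _ _ _ h3

/-- An invariant of degree at most three which vanishes on the four basic knots vanishes. -/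
theorem vanish (hv : IsInvariant v) (h3 : DegreeLE 3 v) (hc : v circle = 0)
    (hr : v rightTrefoil = 0) (hl : v (mirror rightTrefoil) = 0) (hf : v fig8 = 0) :
    ∀ D, IsKnot D → v D = 0 := by
  have d3 : Deg 3 v := deg_of_degreeLE h3
  have d2 : Deg 2 v := fun D hD hn => cls3 (inv_alt hv d3)
    (by show alt D3 v = 0; rw [alt_D3 hv, hr, hl, sub_self])
    (by show alt D4 v = 0; rw [alt_D4 hv, hr, hf, hc]; abel) hD hn
  have d1 : Deg 1 v := fun D hD hn => cls2 (inv_alt hv d2)
    (by show alt D2 v = 0; rw [alt_D2 hv, hr, hc, sub_self]) hD hn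
  have d0 : Deg 0 v := fun D hD hn => cls1 (inv_alt hv d1) hD hn
  intro D hD
  obtain ⟨E, h1, h2⟩ := pos_form D [] hD.1
  have hE : Kn E := (isotopic_knot h2).1 hD
  have h4 := cls0 (inv_alt hv d0) (fun b => by
    show alt [birth 0 b, death 0] v = 0
    rw [alt_of_nd rfl]
    cases b
    · exact (cir hv circle_false).trans hc
    · exact hc) hE h1
  rw [alt_of_nd h1] at h4
  exact (hv _ _ hD h2).trans h4

end Pool.Agent.H835R2.Flat
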